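import Pool.Agent.SeqDil.CertA

namespace Pool.Agent.SeqDil

variable {a : ℕ → ℕ}

theorem mult_31_1_7 (G : Good a) : ∃ c, Law a c (30 + 1) :=
  mult_of G (K := 14) (k := 4) (o := 1871) (A := 10122646) (J := 10) (w := 30) (st_1_7 G)
    (by norm_num) (by norm_num) (by decide +kernel) (by norm_num) (by decide +kernel)
    (by norm_num) (by decide +kernel)

theorem mult_37_11_3 (G : Good a) : ∃ c, Law a c (36 + 1) :=
  mult_of G (K := 11) (k := 5) (o := 1393) (A := 3508084) (J := 8) (w := 36) (st_11_3 G)
    (by norm_num) (by norm_num) (by decide +kernel) (by norm_num) (by decide +kernel)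
    (by norm_num) (by decide +kernel)

end Pool.Agent.SeqDil
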