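import Pool.Agent.SeqDil.CertA

namespace Pool.Agent.SeqDil

variable {a : ℕ → ℕ}

theorem mult_29_11_5 (G : Good a) : ∃ c, Law a c (28 + 1) :=
  mult_of G (K := 15) (k := 4) (o := 8419) (A := 24883031) (J := 9) (w := 28) (st_11_5 G)
    (by norm_num) (by norm_num) (by decide +kernel) (by norm_num) (by decide +kernel)
    (by norm_num) (by decide +kernel)

end Pool.Agent.SeqDil
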