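import Pool.Agent.SeqDil.CertA

namespace Pool.Agent.SeqDil

variable {a : ℕ → ℕ}

theorem val_of (G : Good a) {D u m t n v : ℕ} (hS : St a D u m) (hn : n + 1 ≤ 2 ^ t)
    (h : lastIs v 0 (win u m t (n + 1)) = true) : ∃ N, 1 ≤ N ∧ a N = v :=
  ⟨2 ^ t * D + n, Nat.le_add_right_of_le (Nat.mul_pos (by positivity) hS.1), win_last G hS hn h⟩

theorem pow_2 (G : Good a) : ∃ N, 1 ≤ N ∧ a N = 4 :=
  val_of G (t := 1) (n := 1) (st_1_5 G) (by norm_num) (by decide +kernel)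

theorem pow_3 (G : Good a) : ∃ N, 1 ≤ N ∧ a N = 8 :=
  val_of G (t := 5) (n := 1) (St.root G) (by norm_num) (by decide +kernel)

theorem pow_4 (G : Good a) : ∃ N, 1 ≤ N ∧ a N = 16 :=
  val_of G (t := 5) (n := 1) (st_11_3 G) (by norm_num) (by decide +kernel)

theorem pow_5 (G : Good a) : ∃ N, 1 ≤ N ∧ a N = 32 :=
  val_of G (t := 3) (n := 1) (st_23_3 G) (by norm_num) (by decide +kernel)

theorem pow_6 (G : Good a) : ∃ N, 1 ≤ N ∧ a N = 64 :=
  val_of G (t := 8) (n := 5) (st_1_7 G) (by norm_num) (by decide +kernel)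

theorem pow_7 (G : Good a) : ∃ N, 1 ≤ N ∧ a N = 128 :=
  val_of G (t := 7) (n := 1) (st_7_5 G) (by norm_num) (by decide +kernel)

theorem pow_8 (G : Good a) : ∃ N, 1 ≤ N ∧ a N = 256 :=
  val_of G (t := 17) (n := 85) (St.root G) (by norm_num) (by decide +kernel)

theorem pow_9 (G : Good a) : ∃ N, 1 ≤ N ∧ a N = 512 :=
  val_of G (t := 14) (n := 41) (st_11_7 G) (by norm_num) (by decide +kernel)

theorem pow_10 (G : Good a) : ∃ N, 1 ≤ N ∧ a N = 1024 :=
  val_of G (t := 16) (n := 245) (st_1_5 G) (by norm_num) (by decide +kernel)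

theorem pow_11 (G : Good a) : ∃ N, 1 ≤ N ∧ a N = 2048 :=
  val_of G (t := 19) (n := 829) (st_11_5 G) (by norm_num) (by decide +kernel)

theorem pow_12 (G : Good a) : ∃ N, 1 ≤ N ∧ a N = 4096 :=
  val_of G (t := 21) (n := 853) (st_11_7 G) (by norm_num) (by decide +kernel)

theorem pow_13 (G : Good a) : ∃ N, 1 ≤ N ∧ a N = 8192 :=
  val_of G (t := 31) (n := 961) (st_11_3 G) (by norm_num) (by decide +kernel)

theorem pow_14 (G : Good a) : ∃ N, 1 ≤ N ∧ a N = 16384 :=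
  val_of G (t := 28) (n := 11759) (st_7_3 G) (by norm_num) (by decide +kernel)

theorem pow_15 (G : Good a) : ∃ N, 1 ≤ N ∧ a N = 32768 :=
  val_of G (t := 29) (n := 7873) (St.root G) (by norm_num) (by decide +kernel)

theorem pow_16 (G : Good a) : ∃ N, 1 ≤ N ∧ a N = 65536 :=
  val_of G (t := 31) (n := 12181) (st_23_3 G) (by norm_num) (by decide +kernel)

theorem pow_17 (G : Good a) : ∃ N, 1 ≤ N ∧ a N = 131072 :=
  val_of G (t := 31) (n := 14749) (st_1_5 G) (by norm_num) (by decide +kernel)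

end Pool.Agent.SeqDil
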