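import Pool.Agent.SeqDil.Seg

namespace Pool.Agent.SeqDil

theorem s_M47_d1 : segC 878575 249726
    [8, 21, 40, 67, 110, 201, 270, 37, 260, 31, 128, 225]
    [49, 13, 55, 75, 23, 11, 55, 43, 27, 59, 107, 11]
    [41] = true := by decide +kernel

theorem s_M47_d2 : segC 249726 81749
    [13, 55, 75, 23, 11, 55, 43, 27, 59, 107, 11]
    [5, 42, 57, 10, 3, 54, 13, 10, 61, 64, 21]
    [8] = true := by decide +kernel

theorem s_M47_d3 : segC 81749 2
    [42, 57, 10, 3, 54, 13, 10, 61, 64, 21]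
    [1, 15, 19, 5, 1, 19, 3, 1, 1, 1]
    [41] = true := by decide +kernel

theorem s_S19_7_0 : segC 6021677 2851142
    [45, 90, 135, 270, 405, 810, 1215, 2430, 3645, 7290, 10935, 21870, 32805]
    [15, 1, 15, 27, 49, 61, 19, 55, 7, 49, 39, 27, 13]
    [1, 29] = true := by decide +kernel

theorem s_S19_7_1 : segC 2851142 1450538
    [15, 1, 15, 27, 49, 61, 19, 55, 7, 49, 39, 27, 13]
    [16, 13, 16, 9, 12, 3, 4, 7, 10, 1, 8, 7, 4]
    [14, 15] = true := by decide +kernel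

theorem s_S19_7_2 : segC 1450538 897681
    [16, 13, 16, 9, 12, 3, 4, 7, 10, 1, 8, 7, 4]
    [1, 4, 5, 8, 15, 26, 31, 8, 35, 52, 7, 46, 23]
    [9, 6] = true := by decide +kernel

theorem s_S19_7_3 : segC 897681 454896
    [1, 4, 5, 8, 15, 26, 31, 8, 35, 52, 7, 46, 23]
    [5, 7, 13, 21, 39, 63, 113, 197, 311, 607, 13, 439, 679]
    [5, 1] = true := by decide +kernel

theorem s_S19_7_4 : segC 454896 193871
    [5, 7, 13, 21, 39, 63, 113, 197, 311, 607, 13, 439, 679]
    [1, 2, 3, 6, 7, 2, 7, 10, 1, 10, 1, 6, 7]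
    [4] = true := by decide +kernel

theorem s_S19_7_d1 : segC 193871 90488
    [2, 3, 6, 7, 2, 7, 10, 1, 10, 1, 6, 7]
    [7, 1, 1, 7, 1, 1, 5, 3, 5, 1, 1, 5]
    [5] = true := by decide +kernel

theorem s_S19_7_d2 : segC 90488 22717
    [1, 1, 7, 1, 1, 5, 3, 5, 1, 1, 5]
    [7, 14, 15, 10, 25, 42, 45, 8, 49, 84, 135]
    [6] = true := by decide +kernel

theorem s_S19_7_d4 : segC 22717 8816
    [15, 10, 25, 42, 45, 8, 49, 84, 135]
    [14, 23, 24, 7, 22, 3, 12, 1, 2]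
    [1] = true := by decide +kernel

theorem s_S19_7_d6 : segC 8816 4184
    [24, 7, 22, 3, 12, 1, 2]
    [11, 9, 9, 9, 15, 17, 1]
    [13] = true := by decide +kernel

theorem s_S19_7_d7 : segC 4184 1580
    [9, 9, 9, 15, 17, 1]
    [19, 38, 57, 100, 177, 298]
    [10] = true := by decide +kernel

theorem s_S19_7_d8 : segC 1580 84
    [38, 57, 100, 177, 298]
    [37, 19, 25, 27, 3]
    [1] = true := by decide +kernel

theorem s_S19_7_d10 : segC 84 7
    [25, 27, 3]
    [7, 2, 3]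
    [18] = true := by decide +kernel

theorem s_S19_7_d11 : segC 7 2
    [2, 3]
    [1, 1]
    [1] = true := by decide +kernel

end Pool.Agent.SeqDil
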