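import Pool.Agent.SeqDil.SegD7

namespace Pool.Agent.SeqDil

theorem s_M61_15 : segC 67230151 64976998
    [67, 18, 61, 24, 33, 66, 81, 32, 67, 98, 119, 64, 183]
    [19, 33, 41, 79, 111, 7, 115, 3, 119, 123, 203, 217, 73]
    [37, 11] = true := by decide +kernel

theorem s_M61_16 : segC 64976998 61506370
    [19, 33, 41, 79, 111, 7, 115, 3, 119, 123, 203, 217, 73]
    [8, 69, 2, 11, 94, 35, 64, 1, 36, 31, 54, 101, 170]
    [52, 63] = true := by decide +kernel

theorem s_M61_17 : segC 61506370 47700565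
    [8, 69, 2, 11, 94, 35, 64, 1, 36, 31, 54, 101, 170]
    [249, 462, 741, 1340, 2137, 3978, 5155, 740, 5493, 8964, 17821, 23736, 7267]
    [89, 152] = true := by decide +kernel

theorem s_M61_18 : segC 47700565 31106372
    [249, 462, 741, 1340, 2137, 3978, 5155, 740, 5493, 8964, 17821, 23736, 7267]
    [97, 27, 163, 115, 193, 355, 485, 57, 453, 45, 247, 385, 629]
    [63, 89] = true := by decide +kernel

theorem s_M61_19 : segC 31106372 26175730
    [97, 27, 163, 115, 193, 355, 485, 57, 453, 45, 247, 385, 629]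
    [8, 1, 56, 57, 42, 91, 102, 37, 66, 7, 114, 127, 242]
    [26, 63] = true := by decide +kernel

theorem s_M61_20 : segC 26175730 19953163
    [8, 1, 56, 57, 42, 91, 102, 37, 66, 7, 114, 127, 242]
    [67, 62, 119, 122, 57, 120, 191, 12, 133, 106, 211, 242, 59]
    [61, 2] = true := by decide +kernel

end Pool.Agent.SeqDil
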