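import Pool.Agent.SeqDil.SegD8

namespace Pool.Agent.SeqDil

theorem s_M61_21 : segC 19953163 8444566
    [67, 62, 119, 122, 57, 120, 191, 12, 133, 106, 211, 242, 59]
    [65, 149, 241, 399, 697, 1241, 2037, 3687, 6107, 10779, 18589, 31397, 54333]
    [87, 89] = true := by decide +kernel

theorem s_M61_22 : segC 8444566 899092
    [65, 149, 241, 399, 697, 1241, 2037, 3687, 6107, 10779, 18589, 31397, 54333]
    [150, 21, 26, 125, 12, 9, 206, 13, 16, 339, 10, 147, 176]
    [2, 87] = true := by decide +kernel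

theorem s_M61_d2 : segC 899092 272694
    [26, 125, 12, 9, 206, 13, 16, 339, 10, 147, 176]
    [111, 151, 17, 171, 201, 117, 91, 95, 5, 33, 21]
    [85] = true := by decide +kernel

theorem s_M61_d3 : segC 272694 1018
    [151, 17, 171, 201, 117, 91, 95, 5, 33, 21]
    [45, 78, 65, 10, 11, 6, 11, 6, 3, 6]
    [106] = true := by decide +kernel

theorem s_M61_d6 : segC 1018 2
    [10, 11, 6, 11, 6, 3, 6]
    [5, 1, 1, 5, 1, 1, 1]
    [5] = true := by decide +kernel

theorem s_S37_3_0 : segC 26720490 11823795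
    [234, 351, 702, 1053, 2106, 3159, 6318, 9477, 18954, 28431, 56862, 85293, 170586]
    [117, 132, 87, 132, 27, 90, 45, 24, 15, 24, 27, 18, 9]
    [15, 102] = true := by decide +kernel

theorem s_S37_3_1 : segC 11823795 9301776
    [117, 132, 87, 132, 27, 90, 45, 24, 15, 24, 27, 18, 9]
    [15, 39, 63, 69, 9, 81, 117, 21, 21, 45, 33, 57, 3]
    [63, 39] = true := by decide +kernel

theorem s_S37_3_2 : segC 9301776 7258560
    [15, 39, 63, 69, 9, 81, 117, 21, 21, 45, 33, 57, 3]
    [24, 15, 24, 45, 60, 117, 180, 345, 474, 75, 420, 579, 138]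
    [24, 15] = true := by decide +kernel

end Pool.Agent.SeqDil
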