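import Pool.Agent.SeqDil.SegD9

namespace Pool.Agent.SeqDil

theorem s_S37_3_3 : segC 7258560 3343161
    [24, 15, 24, 45, 60, 117, 180, 345, 474, 75, 420, 579, 138]
    [9, 54, 9, 6, 9, 12, 3, 12, 15, 30, 45, 90, 135]
    [39, 54] = true := by decide +kernel

theorem s_S37_3_4 : segC 3343161 372472
    [9, 54, 9, 6, 9, 12, 3, 12, 15, 30, 45, 90, 135]
    [63, 3, 63, 17, 5, 21, 1, 27, 23, 1, 43, 17, 3]
    [11, 43] = true := by decide +kernel

theorem s_S37_3_d2 : segC 372472 43903
    [63, 17, 5, 21, 1, 27, 23, 1, 43, 17, 3]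
    [35, 10, 33, 18, 33, 46, 83, 144, 239, 434, 583]
    [28] = true := by decide +kernel

theorem s_S37_3_d4 : segC 43903 6590
    [33, 18, 33, 46, 83, 144, 239, 434, 583]
    [2, 47, 2, 9, 54, 3, 36, 39, 2]
    [31] = true := by decide +kernel

theorem s_S37_3_d6 : segC 6590 672
    [2, 9, 54, 3, 36, 39, 2]
    [43, 7, 13, 21, 37, 59, 7]
    [41] = true := by decide +kernel

theorem s_S37_3_d8 : segC 672 199
    [13, 21, 37, 59, 7]
    [7, 8, 1, 14, 1]
    [6] = true := by decide +kernel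

theorem s_S37_3_d9 : segC 199 78
    [8, 1, 14, 1]
    [7, 9, 13, 1]
    [1] = true := by decide +kernel

theorem s_S37_3_d10 : segC 78 19
    [9, 13, 1]
    [3, 4, 7]
    [6] = true := by decide +kernel

theorem s_S37_3_d11 : segC 19 6
    [4, 7]
    [3, 3]
    [1] = true := by decide +kernel

theorem s_S37_3_d12 : segC 6 3
    [3]
    [1]
    [2] = true := by decide +kernel

theorem s_S41_7_0 : segC 29643835 23883896
    [81, 162, 243, 486, 729, 1458, 2187, 4374, 6561, 13122, 19683, 39366, 59049]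
    [27, 37, 47, 51, 53, 87, 165, 257, 495, 665, 69, 719, 1261]
    [37, 17] = true := by decide +kernel

theorem s_S41_7_1 : segC 23883896 19981742
    [27, 37, 47, 51, 53, 87, 165, 257, 495, 665, 69, 719, 1261]
    [10, 81, 10, 55, 70, 11, 80, 95, 14, 127, 130, 153, 86]
    [64, 81] = true := by decide +kernel

theorem s_S41_7_2 : segC 19981742 15314081
    [10, 81, 10, 55, 70, 11, 80, 95, 14, 127, 130, 153, 86]
    [39, 26, 39, 32, 43, 54, 3, 68, 57, 108, 183, 296, 545]
    [55, 26] = true := by decide +kernel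

end Pool.Agent.SeqDil
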