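import Pool.Agent.SeqDil.SegD11

namespace Pool.Agent.SeqDil

theorem s_M67_0 : segC 233411984 167305695
    [1026, 1539, 3078, 4617, 9234, 13851, 27702, 41553, 83106, 124659, 249318, 373977, 747954]
    [513, 544, 451, 544, 327, 324, 429, 118, 57, 98, 151, 260, 459]
    [31, 482] = true := by decide +kernel

theorem s_M67_1 : segC 167305695 155769308
    [513, 544, 451, 544, 327, 324, 429, 118, 57, 98, 151, 260, 459]
    [31, 171, 249, 77, 125, 231, 393, 719, 1179, 2131, 2639, 847, 2499]
    [311, 171] = true := by decide +kernel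

theorem s_M67_2 : segC 155769308 148623074
    [31, 171, 249, 77, 125, 231, 393, 719, 1179, 2131, 2639, 847, 2499]
    [140, 31, 16, 29, 50, 61, 26, 1, 44, 15, 8, 7, 6]
    [140, 31] = true := by decide +kernel

theorem s_M67_3 : segC 148623074 126668393
    [140, 31, 16, 29, 50, 61, 26, 1, 44, 15, 8, 7, 6]
    [109, 202, 389, 634, 129, 496, 293, 22, 49, 36, 15, 34, 5]
    [171, 202] = true := by decide +kernel

theorem s_M67_4 : segC 126668393 111803028
    [109, 202, 389, 634, 129, 496, 293, 22, 49, 36, 15, 34, 5]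
    [145, 67, 187, 365, 441, 7, 479, 815, 1457, 2429, 2853, 1061, 1899]
    [83, 119] = true := by decide +kernel

theorem s_M67_5 : segC 111803028 105446648
    [145, 67, 187, 365, 441, 7, 479, 815, 1457, 2429, 2853, 1061, 1899]
    [26, 41, 68, 81, 38, 1, 4, 5, 14, 3, 4, 7, 8]
    [88, 31] = true := by decide +kernel

end Pool.Agent.SeqDil
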