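import Pool.Agent.SeqDil.SegD12

namespace Pool.Agent.SeqDil

theorem s_M67_6 : segC 105446648 97116799
    [26, 41, 68, 81, 38, 1, 4, 5, 14, 3, 4, 7, 8]
    [171, 274, 305, 94, 385, 594, 1117, 1748, 3387, 4644, 625, 4452, 7219]
    [57, 88] = true := by decide +kernel

theorem s_M67_7 : segC 97116799 90923408
    [171, 274, 305, 94, 385, 594, 1117, 1748, 3387, 4644, 625, 4452, 7219]
    [83, 129, 11, 93, 79, 9, 3, 89, 17, 5, 129, 25, 3]
    [31, 57] = true := by decide +kernel

theorem s_M67_8 : segC 90923408 87458984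
    [83, 129, 11, 93, 79, 9, 3, 89, 17, 5, 129, 25, 3]
    [26, 41, 6, 33, 10, 27, 44, 7, 20, 43, 82, 85, 48]
    [26, 31] = true := by decide +kernel

theorem s_M67_9 : segC 87458984 84726119
    [26, 41, 6, 33, 10, 27, 44, 7, 20, 43, 82, 85, 48]
    [47, 88, 109, 24, 117, 12, 11, 114, 225, 278, 103, 66, 77]
    [5, 26] = true := by decide +kernel

theorem s_M67_10 : segC 84726119 80956456
    [47, 88, 109, 24, 117, 12, 11, 114, 225, 278, 103, 66, 77]
    [73, 25, 53, 13, 15, 39, 29, 11, 19, 27, 47, 79, 137]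
    [31, 57] = true := by decide +kernel

theorem s_M67_11 : segC 80956456 78885438
    [73, 25, 53, 13, 15, 39, 29, 11, 19, 27, 47, 79, 137]
    [16, 19, 38, 61, 108, 133, 38, 137, 8, 47, 44, 17, 8]
    [36, 21] = true := by decide +kernel

end Pool.Agent.SeqDil
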