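import Pool.Agent.SeqDil.SegD13

namespace Pool.Agent.SeqDil

theorem s_M67_12 : segC 78885438 71399313
    [16, 19, 38, 61, 108, 133, 38, 137, 8, 47, 44, 17, 8]
    [151, 232, 11, 4, 371, 156, 7, 116, 43, 28, 3, 24, 3]
    [57, 78] = true := by decide +kernel

theorem s_M67_13 : segC 71399313 58762742
    [151, 232, 11, 4, 371, 156, 7, 116, 43, 28, 3, 24, 3]
    [229, 23, 229, 393, 743, 1227, 2061, 3699, 5859, 10871, 17925, 28819, 53709]
    [93, 171] = true := by decide +kernel

theorem s_M67_14 : segC 58762742 48181196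
    [229, 23, 229, 393, 743, 1227, 2061, 3699, 5859, 10871, 17925, 28819, 53709]
    [58, 111, 2, 23, 28, 3, 26, 9, 8, 25, 38, 39, 10]
    [88, 83] = true := by decide +kernel

theorem s_M67_15 : segC 48181196 40288699
    [58, 111, 2, 23, 28, 3, 26, 9, 8, 25, 38, 39, 10]
    [131, 262, 347, 96, 285, 12, 411, 94, 75, 384, 219, 140, 159]
    [5, 78] = true := by decide +kernel

theorem s_M67_16 : segC 40288699 33662296
    [131, 262, 347, 96, 285, 12, 411, 94, 75, 384, 219, 140, 159]
    [53, 7, 7, 47, 19, 33, 39, 7, 39, 1, 27, 29, 9]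
    [7, 71] = true := by decide +kernel

theorem s_M67_17 : segC 33662296 29552408
    [53, 7, 7, 47, 19, 33, 39, 7, 39, 1, 27, 29, 9]
    [100, 101, 76, 37, 58, 97, 176, 275, 2, 5, 434, 285, 320]
    [12, 59] = true := by decide +kernel

end Pool.Agent.SeqDil
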