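import Pool.Agent.SeqDil.SegD14

namespace Pool.Agent.SeqDil

theorem s_M67_18 : segC 29552408 16620925
    [100, 101, 76, 37, 58, 97, 176, 275, 2, 5, 434, 285, 320]
    [159, 300, 575, 630, 331, 880, 1721, 3364, 5093, 9034, 14837, 26908, 44725]
    [81, 140] = true := by decide +kernel

theorem s_M67_19 : segC 16620925 7484560
    [159, 300, 575, 630, 331, 880, 1721, 3364, 5093, 9034, 14837, 26908, 44725]
    [19, 75, 21, 25, 13, 33, 3, 5, 45, 49, 27, 53, 5]
    [93, 47] = true := by decide +kernel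

theorem s_M67_20 : segC 7484560 1026736
    [19, 75, 21, 25, 13, 33, 3, 5, 45, 49, 27, 53, 5]
    [166, 25, 118, 123, 20, 115, 40, 23, 102, 35, 28, 33, 38]
    [50, 97] = true := by decide +kernel

theorem s_M67_d2 : segC 1026736 464068
    [118, 123, 20, 115, 40, 23, 102, 35, 28, 33, 38]
    [75, 5, 63, 21, 37, 39, 69, 7, 63, 103, 193]
    [43] = true := by decide +kernel

theorem s_M67_d3 : segC 464068 74172
    [5, 63, 21, 37, 39, 69, 7, 63, 103, 193]
    [73, 58, 89, 178, 221, 46, 211, 264, 477, 796]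
    [68] = true := by decide +kernel

theorem s_M67_d4 : segC 74172 2
    [58, 89, 178, 221, 46, 211, 264, 477, 796]
    [51, 31, 7, 11, 3, 3, 1, 1, 1]
    [7] = true := by decide +kernel

theorem s_S17_3_0 : segC 1912591 442664
    [27, 54, 81, 162, 243, 486, 729, 1458, 2187, 4374, 6561, 13122, 19683]
    [14, 27, 40, 1, 40, 1, 34, 21, 30, 59, 80, 15, 68]
    [13] = true := by decide +kernel

theorem s_S17_3_d1 : segC 442664 99201
    [27, 40, 1, 40, 1, 34, 21, 30, 59, 80, 15, 68]
    [22, 13, 6, 1, 4, 3, 2, 5, 8, 1, 6, 5]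
    [5] = true := by decide +kernel

theorem s_S17_3_d3 : segC 99201 49092
    [6, 1, 4, 3, 2, 5, 8, 1, 6, 5]
    [15, 25, 43, 77, 97, 15, 87, 1, 125, 23]
    [9] = true := by decide +kernel

theorem s_S17_3_d4 : segC 49092 13979
    [25, 43, 77, 97, 15, 87, 1, 125, 23]
    [21, 18, 31, 4, 11, 22, 3, 12, 13]
    [4] = true := by decide +kernel

theorem s_S17_3_d5 : segC 13979 2264
    [18, 31, 4, 11, 22, 3, 12, 13]
    [7, 13, 15, 29, 55, 73, 17, 87]
    [11] = true := by decide +kernel

theorem s_S17_3_d7 : segC 2264 514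
    [15, 29, 55, 73, 17, 87]
    [5, 14, 7, 6, 9, 18]
    [10] = true := by decide +kernel

theorem s_S17_3_d8 : segC 514 210
    [14, 7, 6, 9, 18]
    [11, 15, 3, 3, 7]
    [3] = true := by decide +kernel

theorem s_S17_3_d9 : segC 210 76
    [15, 3, 3, 7]
    [13, 14, 1, 14]
    [2] = true := by decide +kernel

theorem s_S17_3_d10 : segC 76 12
    [14, 1, 14]
    [5, 5, 5]
    [9] = true := by decide +kernel

theorem s_S17_3_d11 : segC 12 4
    [5, 5]
    [1, 2]
    [4] = true := by decide +kernel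

theorem s_S17_3_d12 : segC 4 2
    [2]
    [1]
    [1] = true := by decide +kernel

theorem s_M71_0 : segC 288244780 187479011
    [1458, 2187, 4374, 6561, 13122, 19683, 39366, 59049, 118098, 177147, 354294, 531441,
      1062882]
    [729, 746, 695, 746, 627, 1018, 1877, 3102, 5607, 9274, 16279, 28804, 34679]
    [17, 712] = true := by decide +kernel

theorem s_M71_1 : segC 187479011 166727300
    [729, 746, 695, 746, 627, 1018, 1877, 3102, 5607, 9274, 16279, 28804, 34679]
    [17, 243, 435, 797, 989, 363, 813, 1113, 2079, 3219, 6141, 9849, 17707]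
    [469, 243] = true := by decide +kernel

end Pool.Agent.SeqDil
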