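import Pool.Agent.SeqDil.SegD15

namespace Pool.Agent.SeqDil

theorem s_M71_2 : segC 166727300 151354050
    [17, 243, 435, 797, 989, 363, 813, 1113, 2079, 3219, 6141, 9849, 17707]
    [226, 17, 158, 255, 484, 657, 1284, 2113, 2366, 759, 1884, 2779, 876]
    [226, 17] = true := by decide +kernel

theorem s_M71_3 : segC 151354050 119946863
    [226, 17, 158, 255, 484, 657, 1284, 2113, 2366, 759, 1884, 2779, 876]
    [209, 260, 141, 12, 123, 184, 359, 492, 89, 398, 507, 90, 449]
    [243, 260] = true := by decide +kernel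

theorem s_M71_4 : segC 119946863 107218520
    [209, 260, 141, 12, 123, 184, 359, 492, 89, 398, 507, 90, 449]
    [179, 345, 529, 19, 491, 85, 235, 17, 49, 51, 7, 43, 43]
    [145, 115] = true := by decide +kernel

theorem s_M71_5 : segC 107218520 98266788
    [179, 345, 529, 19, 491, 85, 235, 17, 49, 51, 7, 43, 43]
    [64, 85, 124, 5, 96, 61, 6, 1, 90, 25, 4, 115, 50]
    [98, 17] = true := by decide +kernel

theorem s_M71_6 : segC 98266788 93691259
    [64, 85, 124, 5, 96, 61, 6, 1, 90, 25, 4, 115, 50]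
    [47, 4, 31, 8, 3, 4, 1, 6, 5, 4, 7, 8, 1]
    [81, 98] = true := by decide +kernel

theorem s_M71_7 : segC 93691259 88399270
    [47, 4, 31, 8, 3, 4, 1, 6, 5, 4, 7, 8, 1]
    [111, 21, 95, 177, 335, 437, 109, 383, 87, 191, 219, 157, 353]
    [17, 81] = true := by decide +kernel

end Pool.Agent.SeqDil
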