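import Pool.Agent.SeqDil.SegD16

namespace Pool.Agent.SeqDil

theorem s_M71_8 : segC 88399270 84831804
    [111, 21, 95, 177, 335, 437, 109, 383, 87, 191, 219, 157, 353]
    [30, 51, 56, 23, 66, 83, 44, 99, 16, 29, 126, 55, 50]
    [64, 17] = true := by decide +kernel

theorem s_M71_9 : segC 84831804 77748419
    [30, 51, 56, 23, 66, 83, 44, 99, 16, 29, 126, 55, 50]
    [13, 106, 167, 274, 499, 668, 73, 628, 1037, 1102, 2155, 4204, 4639]
    [81, 98] = true := by decide +kernel

theorem s_M71_10 : segC 77748419 72124498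
    [13, 106, 167, 274, 499, 668, 73, 628, 1037, 1102, 2155, 4204, 4639]
    [111, 29, 9, 103, 13, 19, 111, 15, 33, 103, 133, 217, 25]
    [17, 81] = true := by decide +kernel

theorem s_M71_11 : segC 72124498 67291078
    [111, 29, 9, 103, 13, 19, 111, 15, 33, 103, 133, 217, 25]
    [30, 59, 116, 153, 288, 459, 870, 1209, 2376, 3883, 7076, 9159, 2038]
    [64, 17] = true := by decide +kernel

theorem s_M71_12 : segC 67291078 61029461
    [30, 59, 116, 153, 288, 459, 870, 1209, 2376, 3883, 7076, 9159, 2038]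
    [13, 114, 133, 90, 67, 56, 65, 8, 71, 6, 25, 18, 25]
    [81, 98] = true := by decide +kernel

theorem s_M71_13 : segC 61029461 36516692
    [13, 114, 133, 90, 67, 56, 65, 8, 71, 6, 25, 18, 25]
    [401, 745, 1007, 83, 1063, 183, 173, 981, 1881, 2105, 999, 1223, 2083]
    [145, 243] = true := by decide +kernel

end Pool.Agent.SeqDil
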