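import Pool.Agent.SeqDil.Seg

namespace Pool.Agent.SeqDil

theorem s_M53_0 : segC 20917737 16773434
    [126, 189, 378, 567, 1134, 1701, 3402, 5103, 10206, 15309, 30618, 45927]
    [19, 21, 23, 9, 15, 29, 35, 5, 37, 63, 111, 193]
    [19, 44, 23, 21] = true := by decide +kernel

theorem s_M53_1 : segC 16773434 14574270
    [19, 21, 23, 9, 15, 29, 35, 5, 37, 63, 111, 193]
    [55, 6, 55, 84, 15, 62, 53, 4, 15, 26, 51, 68]
    [2, 19, 21, 40] = true := by decide +kernel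

theorem s_M53_2 : segC 14574270 11851657
    [55, 6, 55, 84, 15, 62, 53, 4, 15, 26, 51, 68]
    [8, 63, 18, 3, 24, 47, 56, 19, 8, 51, 8, 1]
    [33, 7, 54, 61] = true := by decide +kernel

theorem s_M53_3 : segC 11851657 9303254
    [8, 63, 18, 3, 24, 47, 56, 19, 8, 51, 8, 1]
    [29, 9, 11, 3, 9, 3, 1, 5, 1, 1, 1, 1]
    [35, 26, 19, 7] = true := by decide +kernel

theorem s_M53_4 : segC 9303254 5927590
    [29, 9, 11, 3, 9, 3, 1, 5, 1, 1, 1, 1]
    [3, 74, 113, 30, 5, 142, 19, 26, 43, 44, 1, 70]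
    [26, 33, 45, 78] = true := by decide +kernel

theorem s_M53_5 : segC 5927590 3515557
    [3, 74, 113, 30, 5, 142, 19, 26, 43, 44, 1, 70]
    [12, 5, 4, 7, 10, 19, 30, 57, 92, 151, 276, 455]
    [9, 69, 36, 33] = true := by decide +kernel

end Pool.Agent.SeqDil
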