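import Pool.Agent.SeqDil.SegD17

namespace Pool.Agent.SeqDil

theorem s_M71_14 : segC 36516692 15268756
    [401, 745, 1007, 83, 1063, 183, 173, 981, 1881, 2105, 999, 1223, 2083]
    [158, 41, 76, 99, 4, 103, 176, 5, 124, 127, 46, 149, 224]
    [98, 145] = true := by decide +kernel

theorem s_M71_15 : segC 15268756 8883873
    [158, 41, 76, 99, 4, 103, 176, 5, 124, 127, 46, 149, 224]
    [13, 88, 107, 196, 317, 578, 949, 1732, 2817, 5080, 8605, 14706, 25351]
    [47, 98] = true := by decide +kernel

theorem s_M71_16 : segC 8883873 3846256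
    [13, 88, 107, 196, 317, 578, 949, 1732, 2817, 5080, 8605, 14706, 25351]
    [111, 173, 7, 21, 153, 9, 39, 121, 189, 43, 93, 141, 33]
    [37, 61] = true := by decide +kernel

theorem s_M71_17 : segC 3846256 1220015
    [111, 173, 7, 21, 153, 9, 39, 121, 189, 43, 93, 141, 33]
    [101, 62, 17, 78, 89, 12, 93, 4, 53, 54, 89, 16, 9]
    [10] = true := by decide +kernel

theorem s_M71_d1 : segC 1220015 199182
    [62, 17, 78, 89, 12, 93, 4, 53, 54, 89, 16, 9]
    [11, 57, 27, 49, 63, 25, 25, 47, 53, 23, 69, 87]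
    [51] = true := by decide +kernel

theorem s_M71_d3 : segC 199182 40876
    [27, 49, 63, 25, 25, 47, 53, 23, 69, 87]
    [77, 22, 13, 56, 105, 118, 49, 78, 69, 68]
    [50] = true := by decide +kernel

theorem s_M71_d4 : segC 40876 2
    [22, 13, 56, 105, 118, 49, 78, 69, 68]
    [15, 21, 7, 15, 13, 3, 1, 1, 1]
    [7] = true := by decide +kernel

theorem s_M73_0 : segC 27190360 16201987
    [198, 297, 594, 891, 1782, 2673, 5346, 8019, 16038, 24057, 48114, 72171, 144342]
    [99, 124, 49, 124, 149, 78, 145, 26, 101, 150, 7, 144, 247]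
    [25, 74] = true := by decide +kernel

theorem s_M73_1 : segC 16201987 12052008
    [99, 124, 49, 124, 149, 78, 145, 26, 101, 150, 7, 144, 247]
    [25, 33, 41, 67, 121, 213, 367, 617, 1121, 1435, 23, 1197, 549]
    [41, 33] = true := by decide +kernel

end Pool.Agent.SeqDil
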