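import Pool.Agent.SeqDil.SegD18

namespace Pool.Agent.SeqDil

theorem s_M73_2 : segC 12052008 9701490
    [25, 33, 41, 67, 121, 213, 367, 617, 1121, 1435, 23, 1197, 549]
    [42, 75, 126, 145, 64, 205, 312, 531, 880, 1563, 2640, 4639, 7616]
    [8, 25] = true := by decide +kernel

theorem s_M73_3 : segC 9701490 5940973
    [42, 75, 126, 145, 64, 205, 312, 531, 880, 1563, 2640, 4639, 7616]
    [67, 24, 67, 78, 83, 62, 27, 14, 51, 22, 23, 44, 85]
    [33, 58] = true := by decide +kernel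

theorem s_M73_4 : segC 5940973 3123128
    [67, 24, 67, 78, 83, 62, 27, 14, 51, 22, 23, 44, 85]
    [9, 31, 9, 13, 21, 3, 19, 9, 1, 13, 15, 1, 15]
    [47, 11] = true := by decide +kernel

theorem s_M73_d1 : segC 3123128 929062
    [31, 9, 13, 21, 3, 19, 9, 1, 13, 15, 1, 15]
    [111, 200, 315, 604, 831, 98, 847, 1292, 1327, 2620, 2827, 50]
    [80] = true := by decide +kernel

theorem s_M73_d2 : segC 929062 20952
    [200, 315, 604, 831, 98, 847, 1292, 1327, 2620, 2827, 50]
    [111, 115, 63, 53, 7, 33, 51, 99, 165, 1, 117]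
    [89] = true := by decide +kernel

theorem s_M73_d5 : segC 20952 4428
    [53, 7, 33, 51, 99, 165, 1, 117]
    [31, 60, 69, 20, 63, 10, 15, 20]
    [22] = true := by decide +kernel

theorem s_M73_d6 : segC 4428 2
    [60, 69, 20, 63, 10, 15, 20]
    [19, 9, 5, 3, 1, 1, 1]
    [41] = true := by decide +kernel

theorem s_S19_5_0 : segC 1680511 609244
    [9, 18, 27, 54, 81, 162, 243, 486, 729, 1458, 2187, 4374, 6561]
    [3, 5, 7, 5, 7, 5, 7, 13, 21, 1, 19, 29, 9]
    [13, 19] = true := by decide +kernel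

theorem s_S19_5_d1 : segC 609244 204806
    [5, 7, 5, 7, 5, 7, 13, 21, 1, 19, 29, 9]
    [21, 2, 21, 2, 13, 10, 1, 14, 15, 30, 49, 90]
    [16] = true := by decide +kernel

theorem s_S19_5_d2 : segC 204806 81172
    [2, 21, 2, 13, 10, 1, 14, 15, 30, 49, 90]
    [21, 23, 17, 7, 25, 3, 21, 19, 5, 13, 11]
    [19] = true := by decide +kernel

theorem s_S19_5_d3 : segC 81172 24062
    [23, 17, 7, 25, 3, 21, 19, 5, 13, 11]
    [21, 36, 5, 2, 49, 22, 39, 40, 23, 62]
    [2] = true := by decide +kernel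

theorem s_S19_5_d4 : segC 24062 252
    [36, 5, 2, 49, 22, 39, 40, 23, 62]
    [17, 7, 21, 5, 3, 3, 1, 1, 1]
    [19] = true := by decide +kernel

theorem s_S19_5_d8 : segC 252 143
    [3, 3, 1, 1, 1]
    [1, 2, 3, 6, 9]
    [2] = true := by decide +kernel

theorem s_S19_5_d9 : segC 143 38
    [2, 3, 6, 9]
    [5, 1, 3, 5]
    [3] = true := by decide +kernel

theorem s_S19_5_d10 : segC 38 7
    [1, 3, 5]
    [5, 2, 1]
    [4] = true := by decide +kernel

theorem s_S19_5_d11 : segC 7 2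
    [2, 1]
    [1, 1]
    [1] = true := by decide +kernel

theorem c_S23_13 : chk 115850 (win 19 5 (8 + 4) (2 ^ 4 * 104)) = true := by decide +kernel

end Pool.Agent.SeqDil
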