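import Pool.Agent.SeqDil.SegD19

namespace Pool.Agent.SeqDil

theorem s_M79_0 : segC 41057744 27703681
    [234, 351, 702, 1053, 2106, 3159, 6318, 9477, 18954, 28431, 56862, 85293, 170586]
    [117, 140, 71, 140, 259, 450, 757, 1332, 2173, 4026, 5493, 94, 6245]
    [23, 94] = true := by decide +kernel

theorem s_M79_1 : segC 27703681 22826088
    [117, 140, 71, 140, 259, 450, 757, 1332, 2173, 4026, 5493, 94, 6245]
    [23, 39, 55, 99, 183, 287, 553, 871, 1581, 2741, 3225, 1231, 2925]
    [55, 39] = true := by decide +kernel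

theorem s_M79_2 : segC 22826088 21009172
    [23, 39, 55, 99, 183, 287, 553, 871, 1581, 2741, 3225, 1231, 2925]
    [30, 9, 2, 25, 8, 5, 24, 23, 46, 61, 122, 175, 12]
    [16, 23] = true := by decide +kernel

theorem s_M79_3 : segC 21009172 16979105
    [30, 9, 2, 25, 8, 5, 24, 23, 46, 61, 122, 175, 12]
    [7, 48, 61, 66, 53, 2, 41, 26, 49, 56, 9, 52, 25]
    [39, 62] = true := by decide +kernel

theorem s_M79_4 : segC 16979105 13673386
    [7, 48, 61, 66, 53, 2, 41, 26, 49, 56, 9, 52, 25]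
    [63, 37, 35, 11, 57, 5, 19, 19, 7, 19, 7, 11, 11]
    [3, 59] = true := by decide +kernel

theorem s_M79_5 : segC 13673386 11563186
    [63, 37, 35, 11, 57, 5, 19, 19, 7, 19, 7, 11, 11]
    [4, 1, 28, 37, 2, 31, 12, 13, 6, 5, 12, 21, 22]
    [36, 23] = true := by decide +kernel

end Pool.Agent.SeqDil
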