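import Pool.Agent.SeqDil.SegD20

namespace Pool.Agent.SeqDil

theorem s_M79_6 : segC 11563186 10183295
    [4, 1, 28, 37, 2, 31, 12, 13, 6, 5, 12, 21, 22]
    [7, 14, 25, 30, 11, 28, 3, 4, 27, 2, 7, 14, 17]
    [13, 10] = true := by decide +kernel

theorem s_M79_7 : segC 10183295 7875888
    [7, 14, 25, 30, 11, 28, 3, 4, 27, 2, 7, 14, 17]
    [63, 103, 115, 41, 91, 3, 151, 171, 325, 587, 983, 1673, 2911]
    [23, 33] = true := by decide +kernel

theorem s_M79_8 : segC 7875888 3814926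
    [63, 103, 115, 41, 91, 3, 151, 171, 325, 587, 983, 1673, 2911]
    [96, 13, 10, 71, 14, 1, 26, 27, 8, 33, 38, 3, 36]
    [36, 69] = true := by decide +kernel

theorem s_M79_9 : segC 3814926 255563
    [96, 13, 10, 71, 14, 1, 26, 27, 8, 33, 38, 3, 36]
    [27, 52, 59, 12, 49, 88, 9, 62, 55, 16, 67, 94, 19]
    [59, 10] = true := by decide +kernel

theorem s_M79_d3 : segC 255563 46778
    [12, 49, 88, 9, 62, 55, 16, 67, 94, 19]
    [61, 37, 39, 41, 13, 37, 5, 19, 29, 7]
    [49] = true := by decide +kernel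

theorem s_M79_d4 : segC 46778 24305
    [37, 39, 41, 13, 37, 5, 19, 29, 7]
    [27, 2, 27, 30, 5, 26, 49, 90, 109]
    [10] = true := by decide +kernel

theorem s_M79_d5 : segC 24305 2
    [2, 27, 30, 5, 26, 49, 90, 109]
    [53, 25, 31, 3, 3, 1, 1, 1]
    [51] = true := by decide +kernel

theorem s_S13_5_0 : segC 15082766 3122333
    [162, 243, 486, 729, 1458, 2187, 4374, 6561, 13122, 19683, 39366, 59049, 118098]
    [81, 82, 79, 82, 75, 98, 149, 18, 137, 214, 7, 154, 131]
    [1, 80] = true := by decide +kernel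

end Pool.Agent.SeqDil
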