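import Pool.Agent.SeqDil.SegD21

namespace Pool.Agent.SeqDil

theorem s_S13_5_1 : segC 3122333 901676
    [81, 82, 79, 82, 75, 98, 149, 18, 137, 214, 7, 154, 131]
    [1, 27, 51, 85, 99, 37, 63, 17, 93, 1, 107, 19, 35]
    [53, 27] = true := by decide +kernel

theorem s_S13_5_2 : segC 901676 915
    [1, 27, 51, 85, 99, 37, 63, 17, 93, 1, 107, 19, 35]
    [27, 28, 23, 36, 3, 14, 3, 6, 9, 16, 27, 50, 79]
    [26] = true := by decide +kernel

theorem s_S13_5_d7 : segC 915 256
    [6, 9, 16, 27, 50, 79]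
    [5, 3, 5, 1, 3, 3]
    [1] = true := by decide +kernel

theorem s_S13_5_d8 : segC 256 143
    [3, 5, 1, 3, 3]
    [1, 2, 3, 6, 9]
    [2] = true := by decide +kernel

theorem s_S13_5_d9 : segC 143 38
    [2, 3, 6, 9]
    [5, 1, 3, 5]
    [3] = true := by decide +kernel

theorem s_S13_5_d10 : segC 38 7
    [1, 3, 5]
    [5, 2, 1]
    [4] = true := by decide +kernel

theorem s_S13_5_d11 : segC 7 2
    [2, 1]
    [1, 1]
    [1] = true := by decide +kernel

theorem s_S27_17_0 : segC 147850776 90921475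
    [810, 1215, 2430, 3645, 7290, 10935, 21870, 32805, 65610, 98415, 196830, 295245, 590490]
    [405, 418, 379, 418, 327, 626, 19, 408, 685, 702, 495, 376, 63]
    [13, 392] = true := by decide +kernel

theorem s_S27_17_1 : segC 90921475 75989572
    [405, 418, 379, 418, 327, 626, 19, 408, 685, 702, 495, 376, 63]
    [13, 135, 231, 457, 605, 121, 505, 153, 123, 19, 29, 71, 105]
    [257, 135] = true := by decide +kernel

theorem s_S27_17_2 : segC 75989572 68034212
    [13, 135, 231, 457, 605, 121, 505, 153, 123, 19, 29, 71, 105]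
    [122, 13, 70, 55, 12, 61, 78, 33, 20, 5, 2, 9, 16]
    [122, 13] = true := by decide +kernel

theorem s_S27_17_3 : segC 68034212 50109039
    [122, 13, 70, 55, 12, 61, 78, 33, 20, 5, 2, 9, 16]
    [109, 148, 57, 76, 151, 248, 441, 552, 103, 618, 37, 220, 265]
    [135, 148] = true := by decide +kernel

end Pool.Agent.SeqDil
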