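import Pool.Agent.SeqDil.SegD22

namespace Pool.Agent.SeqDil

theorem s_S27_17_4 : segC 50109039 45851966
    [109, 148, 57, 76, 151, 248, 441, 552, 103, 618, 37, 220, 265]
    [103, 7, 127, 155, 11, 141, 37, 69, 111, 1, 3, 167, 111]
    [77, 71] = true := by decide +kernel

theorem s_S27_17_5 : segC 45851966 43196404
    [103, 7, 127, 155, 11, 141, 37, 69, 111, 1, 3, 167, 111]
    [32, 39, 2, 45, 68, 9, 14, 57, 80, 15, 72, 117, 130]
    [58, 13] = true := by decide +kernel

theorem s_S27_17_6 : segC 43196404 38007199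
    [32, 39, 2, 45, 68, 9, 14, 57, 80, 15, 72, 117, 130]
    [19, 46, 67, 126, 213, 252, 67, 280, 395, 60, 311, 212, 101]
    [45, 58] = true := by decide +kernel

theorem s_S27_17_7 : segC 38007199 34804936
    [19, 46, 67, 126, 213, 252, 67, 280, 395, 60, 311, 212, 101]
    [51, 21, 45, 5, 53, 35, 65, 79, 155, 241, 5, 237, 411]
    [13, 45] = true := by decide +kernel

theorem s_S27_17_8 : segC 34804936 32811080
    [51, 21, 45, 5, 53, 35, 65, 79, 155, 241, 5, 237, 411]
    [6, 15, 26, 33, 6, 35, 58, 107, 168, 3, 108, 91, 10]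
    [32, 13] = true := by decide +kernel

theorem s_S27_17_9 : segC 32811080 25905235
    [6, 15, 26, 33, 6, 35, 58, 107, 168, 3, 108, 91, 10]
    [109, 176, 329, 524, 961, 1612, 2793, 4742, 8367, 13934, 24937, 41462, 73589]
    [45, 58] = true := by decide +kernel

end Pool.Agent.SeqDil
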