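import Pool.Agent.SeqDil.SegD23

namespace Pool.Agent.SeqDil

theorem s_S27_17_10 : segC 25905235 18948100
    [109, 176, 329, 524, 961, 1612, 2793, 4742, 8367, 13934, 24937, 41462, 73589]
    [51, 73, 79, 59, 131, 207, 35, 85, 149, 1, 27, 111, 41]
    [13, 45] = true := by decide +kernel

theorem s_S27_17_11 : segC 18948100 17857870
    [51, 73, 79, 59, 131, 207, 35, 85, 149, 1, 27, 111, 41]
    [6, 3, 4, 1, 4, 1, 2, 3, 6, 7, 2, 7, 10]
    [32, 13] = true := by decide +kernel

theorem s_S27_17_12 : segC 17857870 10318275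
    [6, 3, 4, 1, 4, 1, 2, 3, 6, 7, 2, 7, 10]
    [109, 150, 11, 160, 7, 80, 13, 16, 83, 80, 5, 20, 39]
    [45, 58] = true := by decide +kernel

theorem s_S27_17_13 : segC 10318275 710522
    [109, 150, 11, 160, 7, 80, 13, 16, 83, 80, 5, 20, 39]
    [167, 9, 141, 59, 37, 127, 251, 465, 581, 165, 513, 99, 121]
    [77, 135] = true := by decide +kernel

theorem s_S27_17_d2 : segC 710522 177817
    [141, 59, 37, 127, 251, 465, 581, 165, 513, 99, 121]
    [83, 84, 95, 152, 167, 12, 211, 178, 255, 74, 37]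
    [58] = true := by decide +kernel

theorem s_S27_17_d3 : segC 177817 10998
    [84, 95, 152, 167, 12, 211, 178, 255, 74, 37]
    [17, 11, 29, 3, 51, 45, 51, 37, 83, 53]
    [67] = true := by decide +kernel

theorem s_S27_17_d6 : segC 10998 2183
    [3, 51, 45, 51, 37, 83, 53]
    [19, 16, 29, 54, 59, 36, 57]
    [16] = true := by decide +kernel

theorem s_S27_17_d7 : segC 2183 368
    [16, 29, 54, 59, 36, 57]
    [3, 13, 9, 17, 1, 7]
    [13] = true := by decide +kernel

theorem s_S27_17_d8 : segC 368 61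
    [13, 9, 17, 1, 7]
    [7, 10, 11, 14, 1]
    [6] = true := by decide +kernel

theorem s_S27_17_d9 : segC 61 2
    [10, 11, 14, 1]
    [1, 1, 1, 1]
    [9] = true := by decide +kernel

theorem c_M83 : chk 514628 (win 27 17 (7 + 5) (2 ^ 5 * 121)) = true := by decide +kernel

theorem s_M89_0 : segC 119548934 80354053
    [594, 891, 1782, 2673, 5346, 8019, 16038, 24057, 48114, 72171, 144342, 216513, 433026]
    [297, 316, 259, 316, 183, 216, 175, 90, 191, 78, 173, 128, 81]
    [19, 278] = true := by decide +kernel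

end Pool.Agent.SeqDil
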