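import Pool.Agent.SeqDil.SegD25

namespace Pool.Agent.SeqDil

theorem s_M89_7 : segC 41240707 35620950
    [99, 166, 285, 342, 109, 244, 445, 510, 149, 656, 1157, 1164, 803]
    [47, 81, 5, 85, 169, 201, 25, 173, 31, 153, 115, 35, 79]
    [19, 33] = true := by decide +kernel

theorem s_M89_8 : segC 35620950 32933938
    [47, 81, 5, 85, 169, 201, 25, 173, 31, 153, 115, 35, 79]
    [14, 1, 8, 5, 4, 5, 10, 17, 30, 37, 10, 37, 48]
    [14, 19] = true := by decide +kernel

theorem s_M89_9 : segC 32933938 31726105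
    [14, 1, 8, 5, 4, 5, 10, 17, 30, 37, 10, 37, 48]
    [23, 24, 15, 38, 47, 12, 47, 8, 1, 44, 5, 8, 9]
    [5, 14] = true := by decide +kernel

theorem s_M89_10 : segC 31726105 28618952
    [23, 24, 15, 38, 47, 12, 47, 8, 1, 44, 5, 8, 9]
    [37, 71, 131, 11, 87, 85, 11, 101, 45, 17, 45, 39, 7]
    [19, 33] = true := by decide +kernel

theorem s_M89_11 : segC 28618952 26040214
    [37, 71, 131, 11, 87, 85, 11, 101, 45, 17, 45, 39, 7]
    [4, 21, 4, 1, 6, 7, 2, 3, 4, 1, 4, 5, 10]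
    [24, 9] = true := by decide +kernel

theorem s_M89_12 : segC 26040214 21035493
    [4, 21, 4, 1, 6, 7, 2, 3, 4, 1, 4, 5, 10]
    [79, 138, 237, 384, 711, 1160, 2051, 3610, 6011, 10590, 17963, 31088, 51629]
    [33, 42] = true := by decide +kernel

end Pool.Agent.SeqDil
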