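import Pool.Agent.SeqDil.SegD26

namespace Pool.Agent.SeqDil

theorem s_M89_13 : segC 21035493 9967100
    [79, 138, 237, 384, 711, 1160, 2051, 3610, 6011, 10590, 17963, 31088, 51629]
    [121, 37, 117, 11, 65, 13, 87, 85, 25, 107, 109, 13, 103]
    [57, 99] = true := by decide +kernel

theorem s_M89_14 : segC 9967100 5559044
    [121, 37, 117, 11, 65, 13, 87, 85, 25, 107, 109, 13, 103]
    [22, 45, 18, 23, 36, 71, 98, 11, 92, 19, 60, 71, 18]
    [52, 47] = true := by decide +kernel

theorem s_M89_15 : segC 5559044 1724863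
    [22, 45, 18, 23, 36, 71, 98, 11, 92, 19, 60, 71, 18]
    [59, 6, 55, 90, 179, 248, 27, 250, 411, 798, 1087, 130, 1059]
    [5, 42] = true := by decide +kernel

theorem s_M89_16 : segC 1724863 193548
    [59, 6, 55, 90, 179, 248, 27, 250, 411, 798, 1087, 130, 1059]
    [56, 59, 46, 25, 70, 127, 138, 13, 144, 11, 134, 17, 6]
    [3] = true := by decide +kernel

theorem s_M89_d3 : segC 193548 9785
    [25, 70, 127, 138, 13, 144, 11, 134, 17, 6]
    [64, 95, 26, 35, 66, 21, 12, 13, 4, 15]
    [39] = true := by decide +kernel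

theorem s_M89_d5 : segC 9785 2
    [26, 35, 66, 21, 12, 13, 4, 15]
    [19, 9, 3, 9, 5, 1, 1, 1]
    [7] = true := by decide +kernel

theorem s_S29_5_0 : segC 15570736 6911213
    [126, 189, 378, 567, 1134, 1701, 3402, 5103, 10206, 15309, 30618, 45927, 91854]
    [63, 64, 61, 64, 57, 80, 87, 96, 155, 284, 383, 34, 361]
    [1, 62] = true := by decide +kernel

theorem s_S29_5_1 : segC 6911213 5120618
    [63, 64, 61, 64, 57, 80, 87, 96, 155, 284, 383, 34, 361]
    [1, 21, 39, 67, 113, 197, 325, 591, 973, 1729, 2961, 5051, 8803]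
    [41, 21] = true := by decide +kernel

end Pool.Agent.SeqDil
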