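import Pool.Agent.SeqDil.SegD0

namespace Pool.Agent.SeqDil

theorem s_M53_6 : segC 3515557 1280068
    [12, 5, 4, 7, 10, 19, 30, 57, 92, 151, 276, 455]
    [57, 27, 59, 19, 35, 21, 43, 61, 75, 9, 79, 85]
    [7, 26, 29, 55] = true := by decide +kernel

theorem s_M53_7 : segC 1280068 66965
    [57, 27, 59, 19, 35, 21, 43, 61, 75, 9, 79, 85]
    [2, 25, 6, 17, 26, 27, 54, 99, 132, 15, 108, 25]
    [2, 53] = true := by decide +kernel

theorem s_M53_d2 : segC 66965 2
    [6, 17, 26, 27, 54, 99, 132, 15, 108, 25]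
    [33, 11, 31, 3, 3, 3, 3, 1, 1, 1]
    [27] = true := by decide +kernel

theorem c_S15_13 : chk 154567 (win 5 3 (10 + 3) (2 ^ 3 * 644)) = true := by decide +kernel

theorem s_S5_11_0 : segC 16292069 8985110
    [117, 234, 351, 702, 1053, 2106, 3159, 6318, 9477, 18954, 28431, 56862, 85293]
    [39, 15, 39, 63, 69, 9, 81, 117, 21, 21, 45, 33, 57]
    [15, 63] = true := by decide +kernel

theorem s_S5_11_1 : segC 8985110 6436130
    [39, 15, 39, 63, 69, 9, 81, 117, 21, 21, 45, 33, 57]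
    [54, 9, 54, 9, 6, 9, 12, 3, 12, 15, 30, 45, 90]
    [24, 39] = true := by decide +kernel

theorem s_S5_11_2 : segC 6436130 3977065
    [54, 9, 54, 9, 6, 9, 12, 3, 12, 15, 30, 45, 90]
    [15, 20, 31, 50, 99, 132, 43, 12, 113, 100, 25, 26, 143]
    [11, 28] = true := by decide +kernel

end Pool.Agent.SeqDil
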