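import Pool.Agent.SeqDil.SegD27

namespace Pool.Agent.SeqDil

theorem s_S29_5_2 : segC 5120618 3260896
    [1, 21, 39, 67, 113, 197, 325, 591, 973, 1729, 2961, 5051, 8803]
    [20, 1, 16, 17, 2, 27, 30, 19, 6, 3, 14, 11, 4]
    [20, 1] = true := by decide +kernel

theorem s_S29_5_3 : segC 3260896 87113
    [20, 1, 16, 17, 2, 27, 30, 19, 6, 3, 14, 11, 4]
    [19, 22, 15, 8, 13, 14, 17, 10, 5, 14, 3, 8, 1]
    [21, 22] = true := by decide +kernel

theorem s_S29_5_d2 : segC 87113 15904
    [15, 8, 13, 14, 17, 10, 5, 14, 3, 8, 1]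
    [2, 19, 22, 3, 22, 9, 14, 19, 38, 61, 68]
    [13] = true := by decide +kernel

theorem s_S29_5_d4 : segC 15904 914
    [22, 3, 22, 9, 14, 19, 38, 61, 68]
    [13, 25, 39, 3, 7, 41, 53, 11, 49]
    [9] = true := by decide +kernel

theorem s_S29_5_d8 : segC 914 71
    [7, 41, 53, 11, 49]
    [17, 14, 15, 18, 1]
    [10] = true := by decide +kernel

theorem s_S29_5_d9 : segC 71 2
    [14, 15, 18, 1]
    [1, 1, 1, 1]
    [13] = true := by decide +kernel

theorem s_S39_7_0 : segC 289549653 201720986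
    [1215, 2430, 3645, 7290, 10935, 21870, 32805, 65610, 98415, 196830, 295245, 590490, 885735]
    [405, 29, 405, 723, 1331, 1649, 415, 1607, 2117, 3955, 6187, 11805, 16207]
    [29, 781] = true := by decide +kernel

theorem s_S39_7_1 : segC 201720986 168487766
    [405, 29, 405, 723, 1331, 1649, 415, 1607, 2117, 3955, 6187, 11805, 16207]
    [434, 347, 434, 231, 30, 105, 176, 179, 108, 203, 30, 125, 84]
    [376, 405] = true := by decide +kernel

theorem s_S39_7_2 : segC 168487766 148769997
    [434, 347, 434, 231, 30, 105, 176, 179, 108, 203, 30, 125, 84]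
    [29, 106, 145, 164, 13, 202, 45, 28, 203, 114, 7, 22, 71]
    [241, 164] = true := by decide +kernel

end Pool.Agent.SeqDil
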