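import Pool.Agent.SeqDil.SegD28

namespace Pool.Agent.SeqDil

theorem s_S39_7_3 : segC 148769997 142672802
    [29, 106, 145, 164, 13, 202, 45, 28, 203, 114, 7, 22, 71]
    [135, 183, 39, 9, 101, 111, 171, 49, 117, 109, 211, 229, 165]
    [135, 29] = true := by decide +kernel

theorem s_S39_7_4 : segC 142672802 133112394
    [135, 183, 39, 9, 101, 111, 171, 49, 117, 109, 211, 229, 165]
    [164, 19, 184, 269, 80, 35, 244, 339, 584, 959, 1746, 2865, 5210]
    [106, 135] = true := by decide +kernel

theorem s_S39_7_5 : segC 133112394 127269371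
    [164, 19, 184, 269, 80, 35, 244, 339, 584, 959, 1746, 2865, 5210]
    [29, 48, 11, 64, 61, 104, 193, 262, 7, 270, 79, 98, 189]
    [29, 106] = true := by decide +kernel

theorem s_S39_7_6 : segC 127269371 100438060
    [29, 48, 11, 64, 61, 104, 193, 262, 7, 270, 79, 98, 189]
    [405, 665, 1197, 2047, 3499, 6067, 10477, 17441, 30569, 50399, 91567, 122343, 17471]
    [135, 241] = true := by decide +kernel

theorem s_S39_7_7 : segC 100438060 77299194
    [405, 665, 1197, 2047, 3499, 6067, 10477, 17441, 30569, 50399, 91567, 122343, 17471]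
    [164, 19, 108, 83, 36, 71, 106, 15, 84, 109, 18, 129, 128]
    [164, 77] = true := by decide +kernel

theorem s_S39_7_8 : segC 77299194 71261259
    [164, 19, 108, 83, 36, 71, 106, 15, 84, 109, 18, 129, 128]
    [87, 80, 31, 86, 15, 98, 15, 12, 141, 92, 141, 8, 97]
    [61, 16] = true := by decide +kernel

end Pool.Agent.SeqDil
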