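import Pool.Agent.SeqDil.SegD29

namespace Pool.Agent.SeqDil

theorem s_S39_7_9 : segC 71261259 53261006
    [87, 80, 31, 86, 15, 98, 15, 12, 141, 92, 141, 8, 97]
    [71, 183, 239, 47, 223, 15, 251, 281, 181, 339, 23, 271, 329]
    [103, 119] = true := by decide +kernel

theorem s_S39_7_10 : segC 53261006 37489910
    [71, 183, 239, 47, 223, 15, 251, 281, 181, 339, 23, 271, 329]
    [100, 109, 210, 211, 20, 265, 338, 185, 90, 279, 102, 9, 118]
    [74, 45] = true := by decide +kernel

theorem s_S39_7_11 : segC 37489910 33943437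
    [100, 109, 210, 211, 20, 265, 338, 185, 90, 279, 102, 9, 118]
    [55, 80, 5, 80, 3, 6, 83, 6, 37, 78, 151, 154, 119]
    [29, 16] = true := by decide +kernel

theorem s_S39_7_12 : segC 33943437 30301428
    [55, 80, 5, 80, 3, 6, 83, 6, 37, 78, 151, 154, 119]
    [71, 15, 61, 5, 69, 73, 63, 81, 3, 67, 97, 173, 225]
    [45, 61] = true := by decide +kernel

theorem s_S39_7_13 : segC 30301428 18241634
    [71, 15, 61, 5, 69, 73, 63, 81, 3, 67, 97, 173, 225]
    [10, 89, 92, 171, 212, 23, 218, 225, 24, 181, 242, 117, 54]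
    [74, 135] = true := by decide +kernel

theorem s_S39_7_14 : segC 18241634 10682453
    [10, 89, 92, 171, 212, 23, 218, 225, 24, 181, 242, 117, 54]
    [145, 272, 381, 10, 421, 644, 59, 476, 355, 4, 61, 222, 337]
    [29, 106] = true := by decide +kernel

end Pool.Agent.SeqDil
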