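import Pool.Agent.SeqDil.SegD30

namespace Pool.Agent.SeqDil

theorem s_S39_7_15 : segC 10682453 5084226
    [145, 272, 381, 10, 421, 644, 59, 476, 355, 4, 61, 222, 337]
    [39, 27, 21, 37, 73, 139, 193, 383, 625, 1139, 1427, 243, 1621]
    [45, 61] = true := by decide +kernel

theorem s_S39_7_16 : segC 5084226 1629332
    [39, 27, 21, 37, 73, 139, 193, 383, 625, 1139, 1427, 243, 1621]
    [68, 11, 50, 47, 6, 7, 4, 1, 2, 3, 4, 1, 4]
    [16, 45] = true := by decide +kernel

theorem s_S39_7_17 : segC 1629332 631540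
    [68, 11, 50, 47, 6, 7, 4, 1, 2, 3, 4, 1, 4]
    [39, 1, 21, 13, 5, 3, 1, 3, 1, 1, 1, 1, 1]
    [29] = true := by decide +kernel

theorem s_S39_7_d1 : segC 631540 310286
    [1, 21, 13, 5, 3, 1, 3, 1, 1, 1, 1, 1]
    [17, 22, 29, 4, 31, 56, 73, 2, 61, 102, 105, 48]
    [16] = true := by decide +kernel

theorem s_S39_7_d2 : segC 310286 83178
    [22, 29, 4, 31, 56, 73, 2, 61, 102, 105, 48]
    [45, 51, 15, 53, 1, 25, 17, 13, 25, 1, 23]
    [23] = true := by decide +kernel

theorem s_S39_7_d3 : segC 83178 2590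
    [51, 15, 53, 1, 25, 17, 13, 25, 1, 23]
    [11, 44, 13, 4, 1, 10, 5, 4, 5, 4]
    [40] = true := by decide +kernel

theorem s_S39_7_d6 : segC 2590 576
    [4, 1, 10, 5, 4, 5, 4]
    [9, 15, 17, 9, 9, 5, 9]
    [5] = true := by decide +kernel

theorem s_S39_7_d7 : segC 576 88
    [15, 17, 9, 9, 5, 9]
    [7, 2, 1, 2, 1, 2]
    [8] = true := by decide +kernel

theorem s_S39_7_d8 : segC 88 2
    [2, 1, 2, 1, 2]
    [1, 1, 1, 1, 1]
    [1] = true := by decide +kernel

theorem s_M97_0 : segC 68007214 60782557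
    [126, 189, 378, 567, 1134, 1701, 3402, 5103, 10206, 15309, 30618, 45927, 91854]
    [63, 102, 15, 72, 75, 18, 63, 24, 51, 72, 3, 78, 81]
    [39, 24] = true := by decide +kernel

theorem s_M97_1 : segC 60782557 57597688
    [63, 102, 15, 72, 75, 18, 63, 24, 51, 72, 3, 78, 81]
    [39, 57, 111, 177, 327, 441, 39, 471, 51, 201, 111, 81, 153]
    [3, 21] = true := by decide +kernel

theorem s_M97_2 : segC 57597688 52608232
    [39, 57, 111, 177, 327, 441, 39, 471, 51, 201, 111, 81, 153]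
    [18, 81, 96, 45, 24, 39, 60, 87, 162, 267, 480, 807, 1392]
    [60, 81] = true := by decide +kernel

end Pool.Agent.SeqDil
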