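import Pool.Agent.SeqDil.SegD31

namespace Pool.Agent.SeqDil

theorem s_M97_3 : segC 52608232 46057483
    [18, 81, 96, 45, 24, 39, 60, 87, 162, 267, 480, 807, 1392]
    [63, 18, 15, 12, 9, 18, 21, 6, 27, 54, 63, 6, 69]
    [63, 18] = true := by decide +kernel

theorem s_M97_4 : segC 46057483 41043338
    [63, 18, 15, 12, 9, 18, 21, 6, 27, 54, 63, 6, 69]
    [81, 51, 37, 45, 47, 11, 55, 77, 149, 207, 25, 199, 331]
    [53, 71] = true := by decide +kernel

theorem s_M97_5 : segC 41043338 37460006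
    [81, 51, 37, 45, 47, 11, 55, 77, 149, 207, 25, 199, 331]
    [10, 41, 68, 77, 24, 79, 10, 15, 34, 5, 16, 27, 4]
    [10, 61] = true := by decide +kernel

theorem s_M97_6 : segC 37460006 35099257
    [10, 41, 68, 77, 24, 79, 10, 15, 34, 5, 16, 27, 4]
    [57, 28, 1, 4, 31, 4, 27, 30, 1, 38, 57, 110, 149]
    [7, 54] = true := by decide +kernel

theorem s_M97_7 : segC 35099257 32547546
    [57, 28, 1, 4, 31, 4, 27, 30, 1, 38, 57, 110, 149]
    [3, 25, 49, 1, 45, 47, 1, 75, 13, 15, 25, 47, 73]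
    [3, 51] = true := by decide +kernel

theorem s_M97_8 : segC 32547546 29728072
    [3, 25, 49, 1, 45, 47, 1, 75, 13, 15, 25, 47, 73]
    [44, 61, 8, 63, 70, 53, 64, 9, 34, 47, 58, 33, 4]
    [46, 5] = true := by decide +kernel

end Pool.Agent.SeqDil
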