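import Pool.Agent.SeqDil.SegD32

namespace Pool.Agent.SeqDil

theorem s_M97_9 : segC 29728072 25008987
    [44, 61, 8, 63, 70, 53, 64, 9, 34, 47, 58, 33, 4]
    [39, 12, 63, 14, 31, 50, 9, 36, 33, 8, 27, 44, 47]
    [49, 54] = true := by decide +kernel

theorem s_M97_10 : segC 25008987 18237490
    [39, 12, 63, 14, 31, 50, 9, 36, 33, 8, 27, 44, 47]
    [91, 65, 9, 29, 3, 3, 45, 21, 1, 15, 21, 39, 63]
    [53, 1] = true := by decide +kernel

theorem s_M97_11 : segC 18237490 2398462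
    [91, 65, 9, 29, 3, 3, 45, 21, 1, 15, 21, 39, 63]
    [90, 167, 8, 115, 152, 301, 472, 23, 80, 381, 62, 113, 96]
    [102, 103] = true := by decide +kernel

theorem s_M97_12 : segC 2398462 2
    [90, 167, 8, 115, 152, 301, 472, 23, 80, 381, 62, 113, 96]
    [83, 77, 1, 23, 37, 23, 3, 1, 13, 5, 1, 1, 1]
    [7] = true := by decide +kernel

end Pool.Agent.SeqDil
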