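import Pool.Agent.SeqDil.SegD1

namespace Pool.Agent.SeqDil

theorem s_S5_11_3 : segC 3977065 2697864
    [15, 20, 31, 50, 99, 132, 43, 12, 113, 100, 25, 26, 143]
    [17, 3, 19, 33, 41, 13, 35, 53, 63, 117, 221, 13, 115]
    [13, 15] = true := by decide +kernel

theorem s_S5_11_4 : segC 2697864 1013925
    [17, 3, 19, 33, 41, 13, 35, 53, 63, 117, 221, 13, 115]
    [45, 76, 137, 172, 45, 168, 219, 234, 145, 284, 309, 164, 351]
    [28] = true := by decide +kernel

theorem s_S5_11_d1 : segC 1013925 338262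
    [76, 137, 172, 45, 168, 219, 234, 145, 284, 309, 164, 351]
    [33, 61, 63, 31, 55, 3, 83, 89, 173, 333, 3, 261]
    [43] = true := by decide +kernel

theorem s_S5_11_d2 : segC 338262 10799
    [61, 63, 31, 55, 3, 83, 89, 173, 333, 3, 261]
    [59, 2, 29, 54, 1, 32, 61, 120, 133, 38, 143]
    [2] = true := by decide +kernel

theorem s_S5_11_d6 : segC 10799 2856
    [1, 32, 61, 120, 133, 38, 143]
    [32, 33, 28, 61, 100, 173, 304]
    [31] = true := by decide +kernel

theorem s_S5_11_d7 : segC 2856 345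
    [33, 28, 61, 100, 173, 304]
    [10, 15, 8, 11, 4, 9]
    [23] = true := by decide +kernel

theorem s_S5_11_d8 : segC 345 14
    [15, 8, 11, 4, 9]
    [6, 11, 2, 3, 2]
    [9] = true := by decide +kernel

theorem s_S5_11_d10 : segC 14 2
    [2, 3, 2]
    [1, 1, 1]
    [1] = true := by decide +kernel

theorem s_S25_11_0 : segC 4780492 640569
    [66, 99, 198, 297, 594, 891, 1782, 2673, 5346, 8019, 16038, 24057, 48114]
    [33, 38, 23, 38, 3, 34, 49, 92, 143, 278, 395, 26, 385]
    [5, 28] = true := by decide +kernel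

theorem s_S25_11_1 : segC 640569 211186
    [33, 38, 23, 38, 3, 34, 49, 92, 143, 278, 395, 26, 385]
    [16, 5, 6, 3, 2, 3, 6, 9, 18, 25, 48, 79, 88]
    [17] = true := by decide +kernel

theorem s_S25_11_d2 : segC 211186 97952
    [6, 3, 2, 3, 6, 9, 18, 25, 48, 79, 88]
    [17, 31, 41, 5, 39, 43, 85, 141, 9, 117, 165]
    [11] = true := by decide +kernel

theorem s_S25_11_d3 : segC 97952 22022
    [31, 41, 5, 39, 43, 85, 141, 9, 117, 165]
    [15, 10, 21, 38, 61, 114, 147, 290, 413, 28]
    [16] = true := by decide +kernel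

theorem s_S25_11_d4 : segC 22022 4372
    [10, 21, 38, 61, 114, 147, 290, 413, 28]
    [9, 11, 19, 33, 53, 97, 163, 283, 479]
    [1] = true := by decide +kernel

theorem s_S25_11_d7 : segC 4372 802
    [33, 53, 97, 163, 283, 479]
    [19, 20, 5, 2, 5, 10]
    [14] = true := by decide +kernel

theorem s_S25_11_d8 : segC 802 204
    [20, 5, 2, 5, 10]
    [15, 25, 27, 11, 29]
    [5] = true := by decide +kernel

theorem s_S25_11_d9 : segC 204 14
    [25, 27, 11, 29]
    [11, 2, 3, 4]
    [14] = true := by decide +kernel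

theorem s_S25_11_d10 : segC 14 2
    [2, 3, 4]
    [1, 1, 1]
    [1] = true := by decide +kernel

theorem s_M59_0 : segC 100290816 63452227
    [594, 891, 1782, 2673, 5346, 8019, 16038, 24057, 48114, 72171, 144342, 216513, 433026]
    [297, 322, 247, 322, 147, 28, 117, 130, 169, 322, 455, 30, 453]
    [25, 272] = true := by decide +kernel

theorem s_M59_1 : segC 63452227 56668930
    [297, 322, 247, 322, 147, 28, 117, 130, 169, 322, 455, 30, 453]
    [25, 99, 123, 3, 117, 205, 409, 579, 1029, 1615, 3099, 4853, 9233]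
    [173, 99] = true := by decide +kernel

end Pool.Agent.SeqDil
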