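import Pool.Agent.SeqDil.SegD2

namespace Pool.Agent.SeqDil

theorem s_M59_2 : segC 56668930 49885856
    [25, 99, 123, 3, 117, 205, 409, 579, 1029, 1615, 3099, 4853, 9233]
    [74, 25, 24, 27, 42, 83, 134, 241, 314, 47, 328, 63, 64]
    [74, 25] = true := by decide +kernel

theorem s_M59_3 : segC 49885856 40021743
    [74, 25, 24, 27, 42, 83, 134, 241, 314, 47, 328, 63, 64]
    [49, 124, 149, 78, 145, 26, 101, 150, 7, 144, 247, 412, 477]
    [99, 124] = true := by decide +kernel

theorem s_M59_4 : segC 40021743 34265280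
    [49, 124, 149, 78, 145, 26, 101, 150, 7, 144, 247, 412, 477]
    [91, 67, 9, 17, 5, 19, 37, 1, 19, 37, 57, 95, 183]
    [41, 83] = true := by decide +kernel

theorem s_M59_5 : segC 34265280 31733104
    [91, 67, 9, 17, 5, 19, 37, 1, 19, 37, 57, 95, 183]
    [8, 9, 8, 9, 2, 1, 8, 9, 10, 1, 10, 3, 4]
    [58, 25] = true := by decide +kernel

theorem s_M59_6 : segC 31733104 24893983
    [8, 9, 8, 9, 2, 1, 8, 9, 10, 1, 10, 3, 4]
    [99, 158, 297, 474, 881, 1418, 2591, 4250, 7683, 12616, 22975, 28748, 4789]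
    [33, 58] = true := by decide +kernel

theorem s_M59_7 : segC 24893983 17850824
    [99, 158, 297, 474, 881, 1418, 2591, 4250, 7683, 12616, 22975, 28748, 4789]
    [41, 67, 121, 213, 367, 617, 1121, 1435, 23, 1197, 549, 547, 879]
    [25, 33] = true := by decide +kernel

end Pool.Agent.SeqDil
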