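import Pool.Agent.SeqDil.SegD3

namespace Pool.Agent.SeqDil

theorem s_M59_8 : segC 17850824 15330722
    [41, 67, 121, 213, 367, 617, 1121, 1435, 23, 1197, 549, 547, 879]
    [8, 9, 4, 11, 14, 27, 48, 59, 2, 51, 20, 23, 38]
    [8, 25] = true := by decide +kernel

theorem s_M59_9 : segC 15330722 13860797
    [8, 9, 4, 11, 14, 27, 48, 59, 2, 51, 20, 23, 38]
    [17, 26, 47, 62, 7, 68, 7, 10, 43, 4, 13, 28, 19]
    [17, 8] = true := by decide +kernel

theorem s_M59_10 : segC 13860797 11867322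
    [17, 26, 47, 62, 7, 68, 7, 10, 43, 4, 13, 28, 19]
    [9, 1, 33, 13, 7, 13, 25, 1, 13, 1, 13, 3, 5]
    [25, 33] = true := by decide +kernel

theorem s_M59_11 : segC 11867322 5120418
    [9, 1, 33, 13, 7, 13, 25, 1, 13, 1, 13, 3, 5]
    [126, 145, 64, 205, 312, 531, 880, 1563, 2640, 4639, 7616, 13991, 17400]
    [42, 75] = true := by decide +kernel

theorem s_M59_12 : segC 5120418 1355747
    [126, 145, 64, 205, 312, 531, 880, 1563, 2640, 4639, 7616, 13991, 17400]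
    [51, 10, 53, 8, 3, 4, 1, 4, 5, 2, 7, 10, 1]
    [33, 42] = true := by decide +kernel

theorem s_M59_13 : segC 1355747 2
    [51, 10, 53, 8, 3, 4, 1, 4, 5, 2, 7, 10, 1]
    [9, 1, 9, 11, 5, 11, 1, 1, 7, 3, 1, 1, 1]
    [9, 33] = true := by decide +kernel

end Pool.Agent.SeqDil
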