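import Pool.Agent.SeqDil.SegD4

namespace Pool.Agent.SeqDil

theorem c_S13_3 : chk 167539 (win 1 5 (12 + 1) (2 ^ 1 * 1607)) = true := by decide +kernel

theorem c_S43_3 : chk 655905 (win 13 3 (14 + 1) (2 ^ 1 * 4079)) = true := by decide +kernel

theorem s_M61_0 : segC 156455399 140315274
    [243, 486, 729, 1458, 2187, 4374, 6561, 13122, 19683, 39366, 59049, 118098, 177147]
    [81, 43, 81, 119, 177, 347, 571, 643, 273, 635, 653, 449, 1081]
    [43, 119] = true := by decide +kernel

theorem s_M61_1 : segC 140315274 133816940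
    [81, 43, 81, 119, 177, 347, 571, 643, 273, 635, 653, 449, 1081]
    [124, 5, 114, 203, 346, 31, 234, 281, 26, 311, 338, 359, 126]
    [38, 81] = true := by decide +kernel

theorem s_M61_2 : segC 133816940 128845035
    [124, 5, 114, 203, 346, 31, 234, 281, 26, 311, 338, 359, 126]
    [43, 16, 1, 40, 21, 32, 9, 24, 39, 40, 21, 36, 37]
    [11, 70] = true := by decide +kernel

end Pool.Agent.SeqDil
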