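import Pool.Agent.SeqDil.SegD5

namespace Pool.Agent.SeqDil

theorem s_M61_3 : segC 128845035 126375540
    [43, 16, 1, 40, 21, 32, 9, 24, 39, 40, 21, 36, 37]
    [59, 11, 49, 11, 3, 27, 29, 47, 7, 17, 11, 21, 41]
    [27, 43] = true := by decide +kernel

theorem s_M61_4 : segC 126375540 117826288
    [59, 11, 49, 11, 3, 27, 29, 47, 7, 17, 11, 21, 41]
    [16, 81, 70, 5, 80, 89, 68, 51, 50, 19, 34, 23, 2]
    [70, 113] = true := by decide +kernel

theorem s_M61_5 : segC 117826288 108791249
    [16, 81, 70, 5, 80, 89, 68, 51, 50, 19, 34, 23, 2]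
    [97, 146, 151, 70, 177, 230, 41, 258, 33, 474, 507, 152, 575]
    [97, 16] = true := by decide +kernel

theorem s_M61_6 : segC 108791249 104279952
    [97, 146, 151, 70, 177, 230, 41, 258, 33, 474, 507, 152, 575]
    [113, 33, 101, 141, 45, 163, 199, 11, 167, 79, 51, 87, 49]
    [81, 97] = true := by decide +kernel

theorem s_M61_7 : segC 104279952 100137898
    [113, 33, 101, 141, 45, 163, 199, 11, 167, 79, 51, 87, 49]
    [16, 17, 66, 21, 22, 27, 18, 11, 16, 19, 38, 57, 114]
    [16, 81] = true := by decide +kernel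

theorem s_M61_8 : segC 100137898 95030373
    [16, 17, 66, 21, 22, 27, 18, 11, 16, 19, 38, 57, 114]
    [57, 78, 139, 10, 19, 124, 9, 86, 151, 2, 153, 190, 65]
    [61, 20] = true := by decide +kernel

end Pool.Agent.SeqDil
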