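import Pool.Agent.SeqDil.SegD6

namespace Pool.Agent.SeqDil

theorem s_M61_9 : segC 95030373 90701894
    [57, 78, 139, 10, 19, 124, 9, 86, 151, 2, 153, 190, 65]
    [37, 1, 81, 39, 67, 81, 153, 215, 7, 223, 379, 713, 905]
    [77, 97] = true := by decide +kernel

theorem s_M61_10 : segC 90701894 84152558
    [37, 1, 81, 39, 67, 81, 153, 215, 7, 223, 379, 713, 905]
    [94, 175, 284, 523, 842, 1553, 2516, 4593, 7594, 13331, 23598, 37295, 71108]
    [20, 77] = true := by decide +kernel

theorem s_M61_11 : segC 84152558 76500301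
    [94, 175, 284, 523, 842, 1553, 2516, 4593, 7594, 13331, 23598, 37295, 71108]
    [17, 44, 11, 12, 29, 20, 5, 26, 3, 48, 33, 24, 27]
    [57, 20] = true := by decide +kernel

theorem s_M61_12 : segC 76500301 75031132
    [17, 44, 11, 12, 29, 20, 5, 26, 3, 48, 33, 24, 27]
    [19, 35, 45, 11, 5, 21, 17, 5, 19, 5, 3, 19, 17]
    [9, 11] = true := by decide +kernel

theorem s_M61_13 : segC 75031132 71934018
    [19, 35, 45, 11, 5, 21, 17, 5, 19, 5, 3, 19, 17]
    [8, 67, 2, 23, 44, 9, 8, 25, 14, 23, 2, 23, 24]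
    [48, 59] = true := by decide +kernel

theorem s_M61_14 : segC 71934018 67230151
    [8, 67, 2, 23, 44, 9, 8, 25, 14, 23, 2, 23, 24]
    [67, 18, 61, 24, 33, 66, 81, 32, 67, 98, 119, 64, 183]
    [11, 48] = true := by decide +kernel

end Pool.Agent.SeqDil
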