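import Pool.Agent.SeqDil.SegD0
import Pool.Agent.SeqDil.SegD1
import Pool.Agent.SeqDil.SegD2
import Pool.Agent.SeqDil.SegD3
import Pool.Agent.SeqDil.SegD4
import Pool.Agent.SeqDil.SegD5
import Pool.Agent.SeqDil.SegD6
import Pool.Agent.SeqDil.SegD7
import Pool.Agent.SeqDil.SegD8
import Pool.Agent.SeqDil.SegD9
import Pool.Agent.SeqDil.SegD10
import Pool.Agent.SeqDil.SegD11
import Pool.Agent.SeqDil.SegD12
import Pool.Agent.SeqDil.SegD13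
import Pool.Agent.SeqDil.SegD14
import Pool.Agent.SeqDil.SegD15
import Pool.Agent.SeqDil.SegD16
import Pool.Agent.SeqDil.SegD17
import Pool.Agent.SeqDil.SegD18
import Pool.Agent.SeqDil.SegD19
import Pool.Agent.SeqDil.SegD20
import Pool.Agent.SeqDil.SegD21
import Pool.Agent.SeqDil.SegD22
import Pool.Agent.SeqDil.SegD23
import Pool.Agent.SeqDil.SegD24
import Pool.Agent.SeqDil.SegD25
import Pool.Agent.SeqDil.SegD26
import Pool.Agent.SeqDil.SegD27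
import Pool.Agent.SeqDil.SegD28
import Pool.Agent.SeqDil.SegD29
import Pool.Agent.SeqDil.SegD30
import Pool.Agent.SeqDil.SegD31
import Pool.Agent.SeqDil.SegD32
import Pool.Agent.SeqDil.SegD33
import Pool.Agent.SeqDil.SegD34
import Pool.Agent.SeqDil.SegD35

namespace Pool.Agent.SeqDil

variable {a : ℕ → ℕ}

theorem e_1_1 (G : Good a) : SE a 1 1 := ⟨_, St.root G, by norm_num⟩

theorem e_1_5 (G : Good a) : SE a 1 5 := ⟨_, st_1_5 G, by norm_num⟩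

theorem e_5_3 (G : Good a) : SE a 5 3 := ⟨_, st_5_3 G, by norm_num⟩

theorem e_7_5 (G : Good a) : SE a 7 5 := ⟨_, st_7_5 G, by norm_num⟩

theorem e_7_3 (G : Good a) : SE a 7 3 := ⟨_, st_7_3 G, by norm_num⟩

theorem e_1_7 (G : Good a) : SE a 1 7 := ⟨_, st_1_7 G, by norm_num⟩

theorem e_3_11 (G : Good a) : SE a 3 11 := ⟨_, st_3_11 G, by norm_num⟩

theorem e_11_3 (G : Good a) : SE a 11 3 := ⟨_, st_11_3 G, by norm_num⟩

theorem e_9_5 (G : Good a) : SE a 9 5 := ⟨_, st_9_5 G, by norm_num⟩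

theorem e_11_7 (G : Good a) : SE a 11 7 := ⟨_, st_11_7 G, by norm_num⟩

theorem e_11_5 (G : Good a) : SE a 11 5 := ⟨_, st_11_5 G, by norm_num⟩

theorem e_23_3 (G : Good a) : SE a 23 3 := ⟨_, st_23_3 G, by norm_num⟩

theorem e_5_7 (G : Good a) : SE a 5 7 := by
  obtain ⟨D, hS, hD⟩ := e_9_5 G
  exact ⟨_, state_of G (K := 9) (k := 3) (o := 205) (A := 86800) (J := 7) (w := 6) (v := 5) hS (by norm_num) (by norm_num) c_S5_7 (by omega)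
    (by decide +kernel) (by norm_num) (by decide +kernel) (by decide +kernel)
    (fun l h1 h2 => by interval_cases l <;> decide +kernel), by omega⟩

theorem x_S19_3 : bq (xsl 7 3 13) [42, 63, 126, 189, 378, 567, 1134, 1701, 3402, 5103, 10206, 15309, 30618] = true := by decide +kernel

theorem b_S19_3 : bq (win 5 7 3 (2 + 2))
    ([5, 16] ++ ([9, 7])) = true := by decide +kernel

theorem e_19_3 (G : Good a) : SE a 19 3 := by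
  obtain ⟨D, hS, hD⟩ := e_5_7 G
  have p0 := sstart G (K := 3) (k := 13) (o := 2) hS x_S19_3 b_S19_3
  obtain ⟨p1, q1⟩ := sstep G (C := 2 ^ 0 * (2 ^ 16 * D + 18239)) (k := 13) (n := 2) s_S19_3_0 p0 rfl rfl
  have d1 := desc G (y := 12) rfl p1
  have p2 := tk2 d1
  have d2 := desc G (y := 17) rfl p2
  have p3 := tk2 d2
  have d3 := desc G (y := 2) rfl p3
  obtain ⟨p4, q4⟩ := sstep G (C := 2 ^ 0 * (2 ^ 16 * D + 18239)) (k := 10) (n := 1) s_S19_3_d3 d3 rfl rfl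
  have d4 := desc G (y := 15) rfl p4
  obtain ⟨p5, q5⟩ := sstep G (C := 2 ^ 0 * (2 ^ 16 * D + 18239)) (k := 9) (n := 1) s_S19_3_d4 d4 rfl rfl
  have d5 := desc G (y := 10) rfl p5
  obtain ⟨p6, q6⟩ := sstep G (C := 2 ^ 0 * (2 ^ 16 * D + 18239)) (k := 8) (n := 1) s_S19_3_d5 d5 rfl rfl
  have d6 := desc G (y := 15) rfl p6
  have p7 := tk2 d6
  have d7 := desc G (y := 19) rfl p7
  have p8 := tk2 d7
  have d8 := desc G (y := 7) rfl p8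
  obtain ⟨p9, q9⟩ := sstep G (C := 2 ^ 0 * (2 ^ 16 * D + 18239)) (k := 5) (n := 1) s_S19_3_d8 d8 rfl rfl
  have d9 := desc G (y := 10) rfl p9
  obtain ⟨p10, q10⟩ := sstep G (C := 2 ^ 0 * (2 ^ 16 * D + 18239)) (k := 4) (n := 1) s_S19_3_d9 d9 rfl rfl
  have d10 := desc G (y := 5) rfl p10
  obtain ⟨p11, q11⟩ := sstep G (C := 2 ^ 0 * (2 ^ 16 * D + 18239)) (k := 3) (n := 1) s_S19_3_d10 d10 rfl rfl
  have d11 := desc G (y := 2) rfl p11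
  obtain ⟨p12, q12⟩ := sstep G (C := 2 ^ 0 * (2 ^ 16 * D + 18239)) (k := 2) (n := 1) s_S19_3_d11 d11 rfl rfl
  have d12 := desc G (y := 1) rfl p12
  obtain ⟨p13, q13⟩ := sstep G (C := 2 ^ 0 * (2 ^ 16 * D + 18239)) (k := 1) (n := 1) s_S19_3_d12 d12 rfl rfl
  have d13 := desc G (y := 2) rfl p13
  obtain ⟨p14, q14⟩ := step0 (C := 2 ^ 0 * (2 ^ 16 * D + 18239)) (B := 3) (B' := 2) rfl (by norm_num) d13
  have e : 2 * (2 * (2 * (2 * (2 * (2 * (2 * (2 * (2 * (2 * (2 * (2 * (2 * (2 ^ 3 * D + 2))) + 1) + 1) + 1))) + 1) + 1) + 1) + 1) + 1) + 1 = 2 ^ 16 * D + 18239 := by ring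
  rw [e] at p14
  exact ⟨_, fin_state G (K := 16) (k := 0) (o := 18239) (A := 2793342) (J := 9) hS (by norm_num) (by omega)
    (by decide +kernel) (by norm_num) rfl rfl p14
    (fun h => QT.eq (by ring) (q1 (QT.eq (by ring) (q4 (QT.eq (by ring) (q5 (QT.eq (by ring) (q6 (QT.eq (by ring) (q9 (QT.eq (by ring) (q10 (QT.eq (by ring) (q11 (QT.eq (by ring) (q12 (QT.eq (by ring) (q13 (QT.eq (by ring) (q14 (QT.eq (by ring) h))))))))))))))))))))), by omega⟩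

theorem x_S19_11 : bq (xsl 3 5 10) [54, 81, 162, 243, 486, 729, 1458, 2187, 4374, 6561] = true := by decide +kernel

theorem b_S19_11 : bq (win 19 3 5 (30 + 2))
    ([19, 8, 37, 45, 28, 17, 9, 8, 25, 33, 34, 67, 3, 64, 31, 33] ++ ([22, 11, 9, 2, 25, 27, 34, 61, 3, 58, 31, 27, 22, 5] ++ ([9, 14]))) = true := by decide +kernel

theorem e_19_11 (G : Good a) : SE a 19 11 := by
  obtain ⟨D, hS, hD⟩ := e_19_3 G
  have p0 := sstart G (K := 5) (k := 10) (o := 30) hS x_S19_11 b_S19_11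
  obtain ⟨p1, q1⟩ := sstep G (C := 2 ^ 4 * (2 ^ 11 * D + 1972)) (k := 10) (n := 16) s_S19_11_0 p0 rfl rfl
  obtain ⟨p2, q2⟩ := sstep G (C := 2 ^ 4 * (2 ^ 11 * D + 1972)) (k := 10) (n := 14) s_S19_11_1 p1 rfl rfl
  have d1 := desc G (y := 7) rfl p2
  obtain ⟨p3, q3⟩ := sstep G (C := 2 ^ 4 * (2 ^ 11 * D + 1972)) (k := 9) (n := 1) s_S19_11_d1 d1 rfl rfl
  have d2 := desc G (y := 9) rfl p3
  obtain ⟨p4, q4⟩ := sstep G (C := 2 ^ 4 * (2 ^ 11 * D + 1972)) (k := 8) (n := 1) s_S19_11_d2 d2 rfl rfl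
  have d3 := desc G (y := 15) rfl p4
  have p5 := tk2 d3
  have d4 := desc G (y := 10) rfl p5
  obtain ⟨p6, q6⟩ := sstep G (C := 2 ^ 4 * (2 ^ 11 * D + 1972)) (k := 6) (n := 1) s_S19_11_d4 d4 rfl rfl
  have d5 := desc G (y := 17) rfl p6
  have p7 := tk2 d5
  have d6 := desc G (y := 19) rfl p7
  have p8 := tk2 d6
  have e : 2 * (2 * (2 * (2 * (2 * (2 * (2 ^ 5 * D + 16 + 14) + 1) + 1)) + 1)) = 2 ^ 11 * D + 1972 := by ring
  rw [e] at p8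
  exact ⟨_, fin_state G (K := 11) (k := 4) (o := 1972) (A := 3636605) (J := 8) hS (by norm_num) (by omega)
    (by decide +kernel) (by norm_num) rfl rfl p8
    (fun h => QT.eq (by ring) (q1 (QT.eq (by ring) (q2 (QT.eq (by ring) (q3 (QT.eq (by ring) (q4 (QT.eq (by ring) (q6 (QT.eq (by ring) h))))))))))), by omega⟩

theorem x_M47 : bq (xsl 11 3 13) [66, 99, 198, 297, 594, 891, 1782, 2673, 5346, 8019, 16038, 24057, 48114] = true := by decide +kernel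

theorem b_M47 : bq (win 19 11 3 (5 + 2))
    ([19, 14] ++ ([3, 11] ++ ([30] ++ ([41, 33])))) = true := by decide +kernel

theorem mu_47 (G : Good a) : ∃ c, Law a c 47 := by
  obtain ⟨D, hS, hD⟩ := e_19_11 G
  have p0 := sstart G (K := 3) (k := 13) (o := 5) hS x_M47 b_M47
  obtain ⟨p1, q1⟩ := sstep G (C := 2 ^ 10 * (2 ^ 6 * D + 47)) (k := 13) (n := 2) s_M47_0 p0 rfl rfl
  obtain ⟨p2, q2⟩ := sstep G (C := 2 ^ 10 * (2 ^ 6 * D + 47)) (k := 13) (n := 2) s_M47_1 p1 rfl rfl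
  obtain ⟨p3, q3⟩ := sstep G (C := 2 ^ 10 * (2 ^ 6 * D + 47)) (k := 13) (n := 1) s_M47_2 p2 rfl rfl
  have d1 := desc G (y := 8) rfl p3
  obtain ⟨p4, q4⟩ := sstep G (C := 2 ^ 10 * (2 ^ 6 * D + 47)) (k := 12) (n := 1) s_M47_d1 d1 rfl rfl
  have d2 := desc G (y := 41) rfl p4
  obtain ⟨p5, q5⟩ := sstep G (C := 2 ^ 10 * (2 ^ 6 * D + 47)) (k := 11) (n := 1) s_M47_d2 d2 rfl rfl
  have d3 := desc G (y := 46) rfl p5
  obtain ⟨p6, q6⟩ := sstep G (C := 2 ^ 10 * (2 ^ 6 * D + 47)) (k := 10) (n := 1) s_M47_d3 d3 rfl rfl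
  have e : 2 * (2 * (2 * (2 ^ 3 * D + 2 + 2 + 1) + 1) + 1) + 1 = 2 ^ 6 * D + 47 := by ring
  rw [e] at p6
  exact fin_mult G (K := 6) (k := 10) (o := 47) (A := 7721616) (J := 9) hS (by norm_num) (by omega)
    (by decide +kernel) (by norm_num) p6
    (fun h => QT.eq (by ring) (q1 (QT.eq (by ring) (q2 (QT.eq (by ring) (q3 (QT.eq (by ring) (q4 (QT.eq (by ring) (q5 (QT.eq (by ring) (q6 (QT.eq (by ring) h)))))))))))))

theorem x_S19_7 : bq (xsl 5 4 13) [45, 90, 135, 270, 405, 810, 1215, 2430, 3645, 7290, 10935, 21870, 32805] = true := by decide +kernel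

theorem b_S19_7 : bq (win 1 5 4 (9 + 2))
    ([1, 29] ++ ([14, 15] ++ ([9, 6] ++ ([5, 1] ++ ([4] ++ ([5, 1])))))) = true := by decide +kernel

theorem e_19_7 (G : Good a) : SE a 19 7 := by
  obtain ⟨D, hS, hD⟩ := e_1_5 G
  have p0 := sstart G (K := 4) (k := 13) (o := 9) hS x_S19_7 b_S19_7
  obtain ⟨p1, q1⟩ := sstep G (C := 2 ^ 2 * (2 ^ 15 * D + 20155)) (k := 13) (n := 2) s_S19_7_0 p0 rfl rfl
  obtain ⟨p2, q2⟩ := sstep G (C := 2 ^ 2 * (2 ^ 15 * D + 20155)) (k := 13) (n := 2) s_S19_7_1 p1 rfl rfl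
  obtain ⟨p3, q3⟩ := sstep G (C := 2 ^ 2 * (2 ^ 15 * D + 20155)) (k := 13) (n := 2) s_S19_7_2 p2 rfl rfl
  obtain ⟨p4, q4⟩ := sstep G (C := 2 ^ 2 * (2 ^ 15 * D + 20155)) (k := 13) (n := 2) s_S19_7_3 p3 rfl rfl
  obtain ⟨p5, q5⟩ := sstep G (C := 2 ^ 2 * (2 ^ 15 * D + 20155)) (k := 13) (n := 1) s_S19_7_4 p4 rfl rfl
  have d1 := desc G (y := 6) rfl p5
  obtain ⟨p6, q6⟩ := sstep G (C := 2 ^ 2 * (2 ^ 15 * D + 20155)) (k := 12) (n := 1) s_S19_7_d1 d1 rfl rfl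
  have d2 := desc G (y := 1) rfl p6
  obtain ⟨p7, q7⟩ := sstep G (C := 2 ^ 2 * (2 ^ 15 * D + 20155)) (k := 11) (n := 1) s_S19_7_d2 d2 rfl rfl
  have d3 := desc G (y := 6) rfl p7
  have p8 := tk2 d3
  have d4 := desc G (y := 13) rfl p8
  obtain ⟨p9, q9⟩ := sstep G (C := 2 ^ 2 * (2 ^ 15 * D + 20155)) (k := 9) (n := 1) s_S19_7_d4 d4 rfl rfl
  have d5 := desc G (y := 1) rfl p9
  have p10 := tk2 d5
  have d6 := desc G (y := 10) rfl p10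
  obtain ⟨p11, q11⟩ := sstep G (C := 2 ^ 2 * (2 ^ 15 * D + 20155)) (k := 7) (n := 1) s_S19_7_d6 d6 rfl rfl
  have d7 := desc G (y := 1) rfl p11
  obtain ⟨p12, q12⟩ := sstep G (C := 2 ^ 2 * (2 ^ 15 * D + 20155)) (k := 6) (n := 1) s_S19_7_d7 d7 rfl rfl
  have d8 := desc G (y := 18) rfl p12
  obtain ⟨p13, q13⟩ := sstep G (C := 2 ^ 2 * (2 ^ 15 * D + 20155)) (k := 5) (n := 1) s_S19_7_d8 d8 rfl rfl
  have d9 := desc G (y := 19) rfl p13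
  have p14 := tk2 d9
  have d10 := desc G (y := 1) rfl p14
  obtain ⟨p15, q15⟩ := sstep G (C := 2 ^ 2 * (2 ^ 15 * D + 20155)) (k := 3) (n := 1) s_S19_7_d10 d10 rfl rfl
  have d11 := desc G (y := 6) rfl p15
  obtain ⟨p16, q16⟩ := sstep G (C := 2 ^ 2 * (2 ^ 15 * D + 20155)) (k := 2) (n := 1) s_S19_7_d11 d11 rfl rfl
  have e : 2 * (2 * (2 * (2 * (2 * (2 * (2 * (2 * (2 * (2 * (2 * (2 ^ 4 * D + 2 + 2 + 2 + 2 + 1) + 1) + 1)) + 1)) + 1) + 1) + 1)) + 1) + 1 = 2 ^ 15 * D + 20155 := by ring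
  rw [e] at p16
  exact ⟨_, fin_state G (K := 15) (k := 2) (o := 20155) (A := 6021677) (J := 8) hS (by norm_num) (by omega)
    (by decide +kernel) (by norm_num) rfl rfl p16
    (fun h => QT.eq (by ring) (q1 (QT.eq (by ring) (q2 (QT.eq (by ring) (q3 (QT.eq (by ring) (q4 (QT.eq (by ring) (q5 (QT.eq (by ring) (q6 (QT.eq (by ring) (q7 (QT.eq (by ring) (q9 (QT.eq (by ring) (q11 (QT.eq (by ring) (q12 (QT.eq (by ring) (q13 (QT.eq (by ring) (q15 (QT.eq (by ring) (q16 (QT.eq (by ring) h))))))))))))))))))))))))))), by omega⟩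

theorem x_M53 : bq (xsl 7 5 12) [126, 189, 378, 567, 1134, 1701, 3402, 5103, 10206, 15309, 30618, 45927] = true := by decide +kernel

theorem b_M53 : bq (win 19 7 5 (30 + 2))
    ([19, 44, 23, 21] ++ ([2, 19, 21, 40] ++ ([33, 7, 54, 61] ++ ([35, 26, 19, 7] ++ ([26, 33, 45, 78] ++ ([9, 69, 36, 33] ++ ([7, 26, 29, 55] ++ ([2, 53] ++ ([27, 26]))))))))) = true := by decide +kernel

theorem mu_53 (G : Good a) : ∃ c, Law a c 53 := by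
  obtain ⟨D, hS, hD⟩ := e_19_7 G
  have p0 := sstart G (K := 5) (k := 12) (o := 30) hS x_M53 b_M53
  obtain ⟨p1, q1⟩ := sstep G (C := 2 ^ 10 * (2 ^ 7 * D + 121)) (k := 12) (n := 4) s_M53_0 p0 rfl rfl
  obtain ⟨p2, q2⟩ := sstep G (C := 2 ^ 10 * (2 ^ 7 * D + 121)) (k := 12) (n := 4) s_M53_1 p1 rfl rfl
  obtain ⟨p3, q3⟩ := sstep G (C := 2 ^ 10 * (2 ^ 7 * D + 121)) (k := 12) (n := 4) s_M53_2 p2 rfl rfl
  obtain ⟨p4, q4⟩ := sstep G (C := 2 ^ 10 * (2 ^ 7 * D + 121)) (k := 12) (n := 4) s_M53_3 p3 rfl rfl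
  obtain ⟨p5, q5⟩ := sstep G (C := 2 ^ 10 * (2 ^ 7 * D + 121)) (k := 12) (n := 4) s_M53_4 p4 rfl rfl
  obtain ⟨p6, q6⟩ := sstep G (C := 2 ^ 10 * (2 ^ 7 * D + 121)) (k := 12) (n := 4) s_M53_5 p5 rfl rfl
  obtain ⟨p7, q7⟩ := sstep G (C := 2 ^ 10 * (2 ^ 7 * D + 121)) (k := 12) (n := 4) s_M53_6 p6 rfl rfl
  obtain ⟨p8, q8⟩ := sstep G (C := 2 ^ 10 * (2 ^ 7 * D + 121)) (k := 12) (n := 2) s_M53_7 p7 rfl rfl
  have d1 := desc G (y := 29) rfl p8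
  have p9 := tk2 d1
  have d2 := desc G (y := 52) rfl p9
  obtain ⟨p10, q10⟩ := sstep G (C := 2 ^ 10 * (2 ^ 7 * D + 121)) (k := 10) (n := 1) s_M53_d2 d2 rfl rfl
  have e : 2 * (2 * (2 ^ 5 * D + 4 + 4 + 4 + 4 + 4 + 4 + 4 + 2)) + 1 = 2 ^ 7 * D + 121 := by ring
  rw [e] at p10
  exact fin_mult G (K := 7) (k := 10) (o := 121) (A := 20917737) (J := 9) hS (by norm_num) (by omega)
    (by decide +kernel) (by norm_num) p10
    (fun h => QT.eq (by ring) (q1 (QT.eq (by ring) (q2 (QT.eq (by ring) (q3 (QT.eq (by ring) (q4 (QT.eq (by ring) (q5 (QT.eq (by ring) (q6 (QT.eq (by ring) (q7 (QT.eq (by ring) (q8 (QT.eq (by ring) (q10 (QT.eq (by ring) h)))))))))))))))))))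

theorem e_15_13 (G : Good a) : SE a 15 13 := by
  obtain ⟨D, hS, hD⟩ := e_5_3 G
  exact ⟨_, state_of G (K := 10) (k := 3) (o := 644) (A := 154567) (J := 6) (w := 12) (v := 15) hS (by norm_num) (by norm_num) c_S15_13 (by omega)
    (by decide +kernel) (by norm_num) (by decide +kernel) (by decide +kernel)
    (fun l h1 h2 => by interval_cases l <;> decide +kernel), by omega⟩

theorem x_S5_11 : bq (xsl 13 4 13) [117, 234, 351, 702, 1053, 2106, 3159, 6318, 9477, 18954, 28431, 56862, 85293] = true := by decide +kernel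

theorem b_S5_11 : bq (win 15 13 4 (9 + 2))
    ([15, 63] ++ ([24, 39] ++ ([11, 28] ++ ([13, 15] ++ ([28] ++ ([43, 41])))))) = true := by decide +kernel

theorem e_5_11 (G : Good a) : SE a 5 11 := by
  obtain ⟨D, hS, hD⟩ := e_15_13 G
  have p0 := sstart G (K := 4) (k := 13) (o := 9) hS x_S5_11 b_S5_11
  obtain ⟨p1, q1⟩ := sstep G (C := 2 ^ 3 * (2 ^ 14 * D + 10013)) (k := 13) (n := 2) s_S5_11_0 p0 rfl rfl
  obtain ⟨p2, q2⟩ := sstep G (C := 2 ^ 3 * (2 ^ 14 * D + 10013)) (k := 13) (n := 2) s_S5_11_1 p1 rfl rfl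
  obtain ⟨p3, q3⟩ := sstep G (C := 2 ^ 3 * (2 ^ 14 * D + 10013)) (k := 13) (n := 2) s_S5_11_2 p2 rfl rfl
  obtain ⟨p4, q4⟩ := sstep G (C := 2 ^ 3 * (2 ^ 14 * D + 10013)) (k := 13) (n := 2) s_S5_11_3 p3 rfl rfl
  obtain ⟨p5, q5⟩ := sstep G (C := 2 ^ 3 * (2 ^ 14 * D + 10013)) (k := 13) (n := 1) s_S5_11_4 p4 rfl rfl
  have d1 := desc G (y := 2) rfl p5
  obtain ⟨p6, q6⟩ := sstep G (C := 2 ^ 3 * (2 ^ 14 * D + 10013)) (k := 12) (n := 1) s_S5_11_d1 d1 rfl rfl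
  have d2 := desc G (y := 31) rfl p6
  obtain ⟨p7, q7⟩ := sstep G (C := 2 ^ 3 * (2 ^ 14 * D + 10013)) (k := 11) (n := 1) s_S5_11_d2 d2 rfl rfl
  have d3 := desc G (y := 28) rfl p7
  have p8 := tk2 d3
  have d4 := desc G (y := 33) rfl p8
  have p9 := tk2 d4
  have d5 := desc G (y := 60) rfl p9
  have p10 := tk2 d5
  have d6 := desc G (y := 23) rfl p10
  obtain ⟨p11, q11⟩ := sstep G (C := 2 ^ 3 * (2 ^ 14 * D + 10013)) (k := 7) (n := 1) s_S5_11_d6 d6 rfl rfl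
  have d7 := desc G (y := 9) rfl p11
  obtain ⟨p12, q12⟩ := sstep G (C := 2 ^ 3 * (2 ^ 14 * D + 10013)) (k := 6) (n := 1) s_S5_11_d7 d7 rfl rfl
  have d8 := desc G (y := 1) rfl p12
  obtain ⟨p13, q13⟩ := sstep G (C := 2 ^ 3 * (2 ^ 14 * D + 10013)) (k := 5) (n := 1) s_S5_11_d8 d8 rfl rfl
  have d9 := desc G (y := 5) rfl p13
  have p14 := tk2 d9
  have d10 := desc G (y := 10) rfl p14
  obtain ⟨p15, q15⟩ := sstep G (C := 2 ^ 3 * (2 ^ 14 * D + 10013)) (k := 3) (n := 1) s_S5_11_d10 d10 rfl rfl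
  have e : 2 * (2 * (2 * (2 * (2 * (2 * (2 * (2 * (2 * (2 * (2 ^ 4 * D + 2 + 2 + 2 + 2 + 1) + 1) + 1)))) + 1) + 1) + 1)) + 1 = 2 ^ 14 * D + 10013 := by ring
  rw [e] at p15
  exact ⟨_, fin_state G (K := 14) (k := 3) (o := 10013) (A := 16292069) (J := 9) hS (by norm_num) (by omega)
    (by decide +kernel) (by norm_num) rfl rfl p15
    (fun h => QT.eq (by ring) (q1 (QT.eq (by ring) (q2 (QT.eq (by ring) (q3 (QT.eq (by ring) (q4 (QT.eq (by ring) (q5 (QT.eq (by ring) (q6 (QT.eq (by ring) (q7 (QT.eq (by ring) (q11 (QT.eq (by ring) (q12 (QT.eq (by ring) (q13 (QT.eq (by ring) (q15 (QT.eq (by ring) h))))))))))))))))))))))), by omega⟩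

theorem x_S25_11 : bq (xsl 11 3 13) [66, 99, 198, 297, 594, 891, 1782, 2673, 5346, 8019, 16038, 24057, 48114] = true := by decide +kernel

theorem b_S25_11 : bq (win 5 11 3 (3 + 2))
    ([5, 28] ++ ([17] ++ ([11, 6]))) = true := by decide +kernel

theorem e_25_11 (G : Good a) : SE a 25 11 := by
  obtain ⟨D, hS, hD⟩ := e_5_11 G
  have p0 := sstart G (K := 3) (k := 13) (o := 3) hS x_S25_11 b_S25_11
  obtain ⟨p1, q1⟩ := sstep G (C := 2 ^ 3 * (2 ^ 13 * D + 3535)) (k := 13) (n := 2) s_S25_11_0 p0 rfl rfl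
  obtain ⟨p2, q2⟩ := sstep G (C := 2 ^ 3 * (2 ^ 13 * D + 3535)) (k := 13) (n := 1) s_S25_11_1 p1 rfl rfl
  have d1 := desc G (y := 5) rfl p2
  have p3 := tk2 d1
  have d2 := desc G (y := 16) rfl p3
  obtain ⟨p4, q4⟩ := sstep G (C := 2 ^ 3 * (2 ^ 13 * D + 3535)) (k := 11) (n := 1) s_S25_11_d2 d2 rfl rfl
  have d3 := desc G (y := 1) rfl p4
  obtain ⟨p5, q5⟩ := sstep G (C := 2 ^ 3 * (2 ^ 13 * D + 3535)) (k := 10) (n := 1) s_S25_11_d3 d3 rfl rfl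
  have d4 := desc G (y := 14) rfl p5
  obtain ⟨p6, q6⟩ := sstep G (C := 2 ^ 3 * (2 ^ 13 * D + 3535)) (k := 9) (n := 1) s_S25_11_d4 d4 rfl rfl
  have d5 := desc G (y := 23) rfl p6
  have p7 := tk2 d5
  have d6 := desc G (y := 25) rfl p7
  have p8 := tk2 d6
  have d7 := desc G (y := 5) rfl p8
  obtain ⟨p9, q9⟩ := sstep G (C := 2 ^ 3 * (2 ^ 13 * D + 3535)) (k := 6) (n := 1) s_S25_11_d7 d7 rfl rfl
  have d8 := desc G (y := 14) rfl p9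
  obtain ⟨p10, q10⟩ := sstep G (C := 2 ^ 3 * (2 ^ 13 * D + 3535)) (k := 5) (n := 1) s_S25_11_d8 d8 rfl rfl
  have d9 := desc G (y := 1) rfl p10
  obtain ⟨p11, q11⟩ := sstep G (C := 2 ^ 3 * (2 ^ 13 * D + 3535)) (k := 4) (n := 1) s_S25_11_d9 d9 rfl rfl
  have d10 := desc G (y := 10) rfl p11
  obtain ⟨p12, q12⟩ := sstep G (C := 2 ^ 3 * (2 ^ 13 * D + 3535)) (k := 3) (n := 1) s_S25_11_d10 d10 rfl rfl
  have e : 2 * (2 * (2 * (2 * (2 * (2 * (2 * (2 * (2 * (2 * (2 ^ 3 * D + 2 + 1)) + 1) + 1) + 1))) + 1) + 1) + 1) + 1 = 2 ^ 13 * D + 3535 := by ring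
  rw [e] at p12
  exact ⟨_, fin_state G (K := 13) (k := 3) (o := 3535) (A := 4780492) (J := 9) hS (by norm_num) (by omega)
    (by decide +kernel) (by norm_num) rfl rfl p12
    (fun h => QT.eq (by ring) (q1 (QT.eq (by ring) (q2 (QT.eq (by ring) (q4 (QT.eq (by ring) (q5 (QT.eq (by ring) (q6 (QT.eq (by ring) (q9 (QT.eq (by ring) (q10 (QT.eq (by ring) (q11 (QT.eq (by ring) (q12 (QT.eq (by ring) h))))))))))))))))))), by omega⟩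

theorem x_M59 : bq (xsl 11 7 13) [594, 891, 1782, 2673, 5346, 8019, 16038, 24057, 48114, 72171, 144342, 216513, 433026] = true := by decide +kernel

theorem b_M59 : bq (win 25 11 7 (28 + 2))
    ([25, 272] ++ ([173, 99] ++ ([74, 25] ++ ([99, 124] ++ ([41, 83] ++ ([58, 25] ++ ([33, 58] ++ ([25, 33] ++ ([8, 25] ++ ([17, 8] ++ ([25, 33] ++ ([42, 75] ++ ([33, 42] ++ ([9, 33] ++ ([58, 91]))))))))))))))) = true := by decide +kernel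

theorem mu_59 (G : Good a) : ∃ c, Law a c 59 := by
  obtain ⟨D, hS, hD⟩ := e_25_11 G
  have p0 := sstart G (K := 7) (k := 13) (o := 28) hS x_M59 b_M59
  obtain ⟨p1, q1⟩ := sstep G (C := 2 ^ 13 * (2 ^ 7 * D + 28)) (k := 13) (n := 2) s_M59_0 p0 rfl rfl
  obtain ⟨p2, q2⟩ := sstep G (C := 2 ^ 13 * (2 ^ 7 * D + 28)) (k := 13) (n := 2) s_M59_1 p1 rfl rfl
  obtain ⟨p3, q3⟩ := sstep G (C := 2 ^ 13 * (2 ^ 7 * D + 28)) (k := 13) (n := 2) s_M59_2 p2 rfl rfl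
  obtain ⟨p4, q4⟩ := sstep G (C := 2 ^ 13 * (2 ^ 7 * D + 28)) (k := 13) (n := 2) s_M59_3 p3 rfl rfl
  obtain ⟨p5, q5⟩ := sstep G (C := 2 ^ 13 * (2 ^ 7 * D + 28)) (k := 13) (n := 2) s_M59_4 p4 rfl rfl
  obtain ⟨p6, q6⟩ := sstep G (C := 2 ^ 13 * (2 ^ 7 * D + 28)) (k := 13) (n := 2) s_M59_5 p5 rfl rfl
  obtain ⟨p7, q7⟩ := sstep G (C := 2 ^ 13 * (2 ^ 7 * D + 28)) (k := 13) (n := 2) s_M59_6 p6 rfl rfl
  obtain ⟨p8, q8⟩ := sstep G (C := 2 ^ 13 * (2 ^ 7 * D + 28)) (k := 13) (n := 2) s_M59_7 p7 rfl rfl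
  obtain ⟨p9, q9⟩ := sstep G (C := 2 ^ 13 * (2 ^ 7 * D + 28)) (k := 13) (n := 2) s_M59_8 p8 rfl rfl
  obtain ⟨p10, q10⟩ := sstep G (C := 2 ^ 13 * (2 ^ 7 * D + 28)) (k := 13) (n := 2) s_M59_9 p9 rfl rfl
  obtain ⟨p11, q11⟩ := sstep G (C := 2 ^ 13 * (2 ^ 7 * D + 28)) (k := 13) (n := 2) s_M59_10 p10 rfl rfl
  obtain ⟨p12, q12⟩ := sstep G (C := 2 ^ 13 * (2 ^ 7 * D + 28)) (k := 13) (n := 2) s_M59_11 p11 rfl rfl
  obtain ⟨p13, q13⟩ := sstep G (C := 2 ^ 13 * (2 ^ 7 * D + 28)) (k := 13) (n := 2) s_M59_12 p12 rfl rfl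
  obtain ⟨p14, q14⟩ := sstep G (C := 2 ^ 13 * (2 ^ 7 * D + 28)) (k := 13) (n := 2) s_M59_13 p13 rfl rfl
  have e : 2 ^ 7 * D + 2 + 2 + 2 + 2 + 2 + 2 + 2 + 2 + 2 + 2 + 2 + 2 + 2 + 2 = 2 ^ 7 * D + 28 := by ring
  rw [e] at p14
  exact fin_mult G (K := 7) (k := 13) (o := 28) (A := 100290816) (J := 10) hS (by norm_num) (by omega)
    (by decide +kernel) (by norm_num) p14
    (fun h => QT.eq (by ring) (q1 (QT.eq (by ring) (q2 (QT.eq (by ring) (q3 (QT.eq (by ring) (q4 (QT.eq (by ring) (q5 (QT.eq (by ring) (q6 (QT.eq (by ring) (q7 (QT.eq (by ring) (q8 (QT.eq (by ring) (q9 (QT.eq (by ring) (q10 (QT.eq (by ring) (q11 (QT.eq (by ring) (q12 (QT.eq (by ring) (q13 (QT.eq (by ring) (q14 (QT.eq (by ring) h)))))))))))))))))))))))))))))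

theorem e_13_3 (G : Good a) : SE a 13 3 := by
  obtain ⟨D, hS, hD⟩ := e_1_5 G
  exact ⟨_, state_of G (K := 12) (k := 1) (o := 1607) (A := 167539) (J := 7) (w := 2) (v := 13) hS (by norm_num) (by norm_num) c_S13_3 (by omega)
    (by decide +kernel) (by norm_num) (by decide +kernel) (by decide +kernel)
    (fun l h1 h2 => by interval_cases l <;> decide +kernel), by omega⟩

theorem e_43_3 (G : Good a) : SE a 43 3 := by
  obtain ⟨D, hS, hD⟩ := e_13_3 G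
  exact ⟨_, state_of G (K := 14) (k := 1) (o := 4079) (A := 655905) (J := 8) (w := 2) (v := 43) hS (by norm_num) (by norm_num) c_S43_3 (by omega)
    (by decide +kernel) (by norm_num) (by decide +kernel) (by decide +kernel)
    (fun l h1 h2 => by interval_cases l <;> decide +kernel), by omega⟩

theorem x_M61 : bq (xsl 3 8 13) [243, 486, 729, 1458, 2187, 4374, 6561, 13122, 19683, 39366, 59049, 118098, 177147] = true := by decide +kernel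

theorem b_M61 : bq (win 43 3 8 (46 + 2))
    ([43, 119] ++ ([38, 81] ++ ([11, 70] ++ ([27, 43] ++ ([70, 113] ++ ([97, 16] ++ ([81, 97] ++ ([16, 81] ++ ([61, 20] ++ ([77, 97] ++ ([20, 77] ++ ([57, 20] ++ ([9, 11] ++ ([48, 59] ++ ([11, 48] ++ ([37, 11] ++ ([52, 63] ++ ([89, 152] ++ ([63, 89] ++ ([26, 63] ++ ([61, 2] ++ ([87, 89] ++ ([2, 87] ++ ([85, 2])))))))))))))))))))))))) = true := by decide +kernel

theorem mu_61 (G : Good a) : ∃ c, Law a c 61 := by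
  obtain ⟨D, hS, hD⟩ := e_43_3 G
  have p0 := sstart G (K := 8) (k := 13) (o := 46) hS x_M61 b_M61
  obtain ⟨p1, q1⟩ := sstep G (C := 2 ^ 7 * (2 ^ 14 * D + 2969)) (k := 13) (n := 2) s_M61_0 p0 rfl rfl
  obtain ⟨p2, q2⟩ := sstep G (C := 2 ^ 7 * (2 ^ 14 * D + 2969)) (k := 13) (n := 2) s_M61_1 p1 rfl rfl
  obtain ⟨p3, q3⟩ := sstep G (C := 2 ^ 7 * (2 ^ 14 * D + 2969)) (k := 13) (n := 2) s_M61_2 p2 rfl rfl
  obtain ⟨p4, q4⟩ := sstep G (C := 2 ^ 7 * (2 ^ 14 * D + 2969)) (k := 13) (n := 2) s_M61_3 p3 rfl rfl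
  obtain ⟨p5, q5⟩ := sstep G (C := 2 ^ 7 * (2 ^ 14 * D + 2969)) (k := 13) (n := 2) s_M61_4 p4 rfl rfl
  obtain ⟨p6, q6⟩ := sstep G (C := 2 ^ 7 * (2 ^ 14 * D + 2969)) (k := 13) (n := 2) s_M61_5 p5 rfl rfl
  obtain ⟨p7, q7⟩ := sstep G (C := 2 ^ 7 * (2 ^ 14 * D + 2969)) (k := 13) (n := 2) s_M61_6 p6 rfl rfl
  obtain ⟨p8, q8⟩ := sstep G (C := 2 ^ 7 * (2 ^ 14 * D + 2969)) (k := 13) (n := 2) s_M61_7 p7 rfl rfl
  obtain ⟨p9, q9⟩ := sstep G (C := 2 ^ 7 * (2 ^ 14 * D + 2969)) (k := 13) (n := 2) s_M61_8 p8 rfl rfl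
  obtain ⟨p10, q10⟩ := sstep G (C := 2 ^ 7 * (2 ^ 14 * D + 2969)) (k := 13) (n := 2) s_M61_9 p9 rfl rfl
  obtain ⟨p11, q11⟩ := sstep G (C := 2 ^ 7 * (2 ^ 14 * D + 2969)) (k := 13) (n := 2) s_M61_10 p10 rfl rfl
  obtain ⟨p12, q12⟩ := sstep G (C := 2 ^ 7 * (2 ^ 14 * D + 2969)) (k := 13) (n := 2) s_M61_11 p11 rfl rfl
  obtain ⟨p13, q13⟩ := sstep G (C := 2 ^ 7 * (2 ^ 14 * D + 2969)) (k := 13) (n := 2) s_M61_12 p12 rfl rfl
  obtain ⟨p14, q14⟩ := sstep G (C := 2 ^ 7 * (2 ^ 14 * D + 2969)) (k := 13) (n := 2) s_M61_13 p13 rfl rfl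
  obtain ⟨p15, q15⟩ := sstep G (C := 2 ^ 7 * (2 ^ 14 * D + 2969)) (k := 13) (n := 2) s_M61_14 p14 rfl rfl
  obtain ⟨p16, q16⟩ := sstep G (C := 2 ^ 7 * (2 ^ 14 * D + 2969)) (k := 13) (n := 2) s_M61_15 p15 rfl rfl
  obtain ⟨p17, q17⟩ := sstep G (C := 2 ^ 7 * (2 ^ 14 * D + 2969)) (k := 13) (n := 2) s_M61_16 p16 rfl rfl
  obtain ⟨p18, q18⟩ := sstep G (C := 2 ^ 7 * (2 ^ 14 * D + 2969)) (k := 13) (n := 2) s_M61_17 p17 rfl rfl
  obtain ⟨p19, q19⟩ := sstep G (C := 2 ^ 7 * (2 ^ 14 * D + 2969)) (k := 13) (n := 2) s_M61_18 p18 rfl rfl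
  obtain ⟨p20, q20⟩ := sstep G (C := 2 ^ 7 * (2 ^ 14 * D + 2969)) (k := 13) (n := 2) s_M61_19 p19 rfl rfl
  obtain ⟨p21, q21⟩ := sstep G (C := 2 ^ 7 * (2 ^ 14 * D + 2969)) (k := 13) (n := 2) s_M61_20 p20 rfl rfl
  obtain ⟨p22, q22⟩ := sstep G (C := 2 ^ 7 * (2 ^ 14 * D + 2969)) (k := 13) (n := 2) s_M61_21 p21 rfl rfl
  obtain ⟨p23, q23⟩ := sstep G (C := 2 ^ 7 * (2 ^ 14 * D + 2969)) (k := 13) (n := 2) s_M61_22 p22 rfl rfl
  have d1 := desc G (y := 65) rfl p23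
  have p24 := tk2 d1
  have d2 := desc G (y := 106) rfl p24
  obtain ⟨p25, q25⟩ := sstep G (C := 2 ^ 7 * (2 ^ 14 * D + 2969)) (k := 11) (n := 1) s_M61_d2 d2 rfl rfl
  have d3 := desc G (y := 5) rfl p25
  obtain ⟨p26, q26⟩ := sstep G (C := 2 ^ 7 * (2 ^ 14 * D + 2969)) (k := 10) (n := 1) s_M61_d3 d3 rfl rfl
  have d4 := desc G (y := 40) rfl p26
  have p27 := tk2 d4
  have d5 := desc G (y := 73) rfl p27
  have p28 := tk2 d5
  have d6 := desc G (y := 60) rfl p28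
  obtain ⟨p29, q29⟩ := sstep G (C := 2 ^ 7 * (2 ^ 14 * D + 2969)) (k := 7) (n := 1) s_M61_d6 d6 rfl rfl
  have e : 2 * (2 * (2 * (2 * (2 * (2 * (2 ^ 8 * D + 2 + 2 + 2 + 2 + 2 + 2 + 2 + 2 + 2 + 2 + 2 + 2 + 2 + 2 + 2 + 2 + 2 + 2 + 2 + 2 + 2 + 2 + 2)) + 1) + 1))) + 1 = 2 ^ 14 * D + 2969 := by ring
  rw [e] at p29
  exact fin_mult G (K := 14) (k := 7) (o := 2969) (A := 156455399) (J := 10) hS (by norm_num) (by omega)
    (by decide +kernel) (by norm_num) p29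
    (fun h => QT.eq (by ring) (q1 (QT.eq (by ring) (q2 (QT.eq (by ring) (q3 (QT.eq (by ring) (q4 (QT.eq (by ring) (q5 (QT.eq (by ring) (q6 (QT.eq (by ring) (q7 (QT.eq (by ring) (q8 (QT.eq (by ring) (q9 (QT.eq (by ring) (q10 (QT.eq (by ring) (q11 (QT.eq (by ring) (q12 (QT.eq (by ring) (q13 (QT.eq (by ring) (q14 (QT.eq (by ring) (q15 (QT.eq (by ring) (q16 (QT.eq (by ring) (q17 (QT.eq (by ring) (q18 (QT.eq (by ring) (q19 (QT.eq (by ring) (q20 (QT.eq (by ring) (q21 (QT.eq (by ring) (q22 (QT.eq (by ring) (q23 (QT.eq (by ring) (q25 (QT.eq (by ring) (q26 (QT.eq (by ring) (q29 (QT.eq (by ring) h)))))))))))))))))))))))))))))))))))))))))))))))))))))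

theorem x_S37_3 : bq (xsl 13 5 13) [234, 351, 702, 1053, 2106, 3159, 6318, 9477, 18954, 28431, 56862, 85293, 170586] = true := by decide +kernel

theorem b_S37_3 : bq (win 15 13 5 (10 + 2))
    ([15, 102] ++ ([63, 39] ++ ([24, 15] ++ ([39, 54] ++ ([11, 43] ++ ([28, 15])))))) = true := by decide +kernel

theorem e_37_3 (G : Good a) : SE a 37 3 := by
  obtain ⟨D, hS, hD⟩ := e_15_13 G
  have p0 := sstart G (K := 5) (k := 13) (o := 10) hS x_S37_3 b_S37_3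
  obtain ⟨p1, q1⟩ := sstep G (C := 2 ^ 0 * (2 ^ 18 * D + 84671)) (k := 13) (n := 2) s_S37_3_0 p0 rfl rfl
  obtain ⟨p2, q2⟩ := sstep G (C := 2 ^ 0 * (2 ^ 18 * D + 84671)) (k := 13) (n := 2) s_S37_3_1 p1 rfl rfl
  obtain ⟨p3, q3⟩ := sstep G (C := 2 ^ 0 * (2 ^ 18 * D + 84671)) (k := 13) (n := 2) s_S37_3_2 p2 rfl rfl
  obtain ⟨p4, q4⟩ := sstep G (C := 2 ^ 0 * (2 ^ 18 * D + 84671)) (k := 13) (n := 2) s_S37_3_3 p3 rfl rfl
  obtain ⟨p5, q5⟩ := sstep G (C := 2 ^ 0 * (2 ^ 18 * D + 84671)) (k := 13) (n := 2) s_S37_3_4 p4 rfl rfl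
  have d1 := desc G (y := 35) rfl p5
  have p6 := tk2 d1
  have d2 := desc G (y := 31) rfl p6
  obtain ⟨p7, q7⟩ := sstep G (C := 2 ^ 0 * (2 ^ 18 * D + 84671)) (k := 11) (n := 1) s_S37_3_d2 d2 rfl rfl
  have d3 := desc G (y := 4) rfl p7
  have p8 := tk2 d3
  have d4 := desc G (y := 41) rfl p8
  obtain ⟨p9, q9⟩ := sstep G (C := 2 ^ 0 * (2 ^ 18 * D + 84671)) (k := 9) (n := 1) s_S37_3_d4 d4 rfl rfl
  have d5 := desc G (y := 43) rfl p9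
  have p10 := tk2 d5
  have d6 := desc G (y := 6) rfl p10
  obtain ⟨p11, q11⟩ := sstep G (C := 2 ^ 0 * (2 ^ 18 * D + 84671)) (k := 7) (n := 1) s_S37_3_d6 d6 rfl rfl
  have d7 := desc G (y := 37) rfl p11
  have p12 := tk2 d7
  have d8 := desc G (y := 1) rfl p12
  obtain ⟨p13, q13⟩ := sstep G (C := 2 ^ 0 * (2 ^ 18 * D + 84671)) (k := 5) (n := 1) s_S37_3_d8 d8 rfl rfl
  have d9 := desc G (y := 6) rfl p13
  obtain ⟨p14, q14⟩ := sstep G (C := 2 ^ 0 * (2 ^ 18 * D + 84671)) (k := 4) (n := 1) s_S37_3_d9 d9 rfl rfl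
  have d10 := desc G (y := 1) rfl p14
  obtain ⟨p15, q15⟩ := sstep G (C := 2 ^ 0 * (2 ^ 18 * D + 84671)) (k := 3) (n := 1) s_S37_3_d10 d10 rfl rfl
  have d11 := desc G (y := 2) rfl p15
  obtain ⟨p16, q16⟩ := sstep G (C := 2 ^ 0 * (2 ^ 18 * D + 84671)) (k := 2) (n := 1) s_S37_3_d11 d11 rfl rfl
  have d12 := desc G (y := 1) rfl p16
  obtain ⟨p17, q17⟩ := sstep G (C := 2 ^ 0 * (2 ^ 18 * D + 84671)) (k := 1) (n := 1) s_S37_3_d12 d12 rfl rfl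
  have d13 := desc G (y := 2) rfl p17
  obtain ⟨p18, q18⟩ := step0 (C := 2 ^ 0 * (2 ^ 18 * D + 84671)) (B := 3) (B' := 2) rfl (by norm_num) d13
  have e : 2 * (2 * (2 * (2 * (2 * (2 * (2 * (2 * (2 * (2 * (2 * (2 * (2 * (2 ^ 5 * D + 2 + 2 + 2 + 2 + 2)) + 1)) + 1)) + 1)) + 1) + 1) + 1) + 1) + 1) + 1 = 2 ^ 18 * D + 84671 := by ring
  rw [e] at p18
  exact ⟨_, fin_state G (K := 18) (k := 0) (o := 84671) (A := 26720490) (J := 10) hS (by norm_num) (by omega)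
    (by decide +kernel) (by norm_num) rfl rfl p18
    (fun h => QT.eq (by ring) (q1 (QT.eq (by ring) (q2 (QT.eq (by ring) (q3 (QT.eq (by ring) (q4 (QT.eq (by ring) (q5 (QT.eq (by ring) (q7 (QT.eq (by ring) (q9 (QT.eq (by ring) (q11 (QT.eq (by ring) (q13 (QT.eq (by ring) (q14 (QT.eq (by ring) (q15 (QT.eq (by ring) (q16 (QT.eq (by ring) (q17 (QT.eq (by ring) (q18 (QT.eq (by ring) h))))))))))))))))))))))))))))), by omega⟩

theorem x_S41_7 : bq (xsl 3 6 13) [81, 162, 243, 486, 729, 1458, 2187, 4374, 6561, 13122, 19683, 39366, 59049] = true := by decide +kernel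

theorem b_S41_7 : bq (win 37 3 6 (11 + 2))
    ([37, 17] ++ ([64, 81] ++ ([55, 26] ++ ([9, 17] ++ ([46, 63] ++ ([55] ++ ([8, 9]))))))) = true := by decide +kernel

theorem e_41_7 (G : Good a) : SE a 41 7 := by
  obtain ⟨D, hS, hD⟩ := e_37_3 G
  have p0 := sstart G (K := 6) (k := 13) (o := 11) hS x_S41_7 b_S41_7
  obtain ⟨p1, q1⟩ := sstep G (C := 2 ^ 3 * (2 ^ 16 * D + 11327)) (k := 13) (n := 2) s_S41_7_0 p0 rfl rfl
  obtain ⟨p2, q2⟩ := sstep G (C := 2 ^ 3 * (2 ^ 16 * D + 11327)) (k := 13) (n := 2) s_S41_7_1 p1 rfl rfl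
  obtain ⟨p3, q3⟩ := sstep G (C := 2 ^ 3 * (2 ^ 16 * D + 11327)) (k := 13) (n := 2) s_S41_7_2 p2 rfl rfl
  obtain ⟨p4, q4⟩ := sstep G (C := 2 ^ 3 * (2 ^ 16 * D + 11327)) (k := 13) (n := 2) s_S41_7_3 p3 rfl rfl
  obtain ⟨p5, q5⟩ := sstep G (C := 2 ^ 3 * (2 ^ 16 * D + 11327)) (k := 13) (n := 2) s_S41_7_4 p4 rfl rfl
  obtain ⟨p6, q6⟩ := sstep G (C := 2 ^ 3 * (2 ^ 16 * D + 11327)) (k := 13) (n := 1) s_S41_7_5 p5 rfl rfl
  have d1 := desc G (y := 59) rfl p6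
  have p7 := tk2 d1
  have d2 := desc G (y := 59) rfl p7
  have p8 := tk2 d2
  have d3 := desc G (y := 35) rfl p8
  have p9 := tk2 d3
  have d4 := desc G (y := 41) rfl p9
  have p10 := tk2 d4
  have d5 := desc G (y := 27) rfl p10
  obtain ⟨p11, q11⟩ := sstep G (C := 2 ^ 3 * (2 ^ 16 * D + 11327)) (k := 8) (n := 1) s_S41_7_d5 d5 rfl rfl
  have d6 := desc G (y := 12) rfl p11
  obtain ⟨p12, q12⟩ := sstep G (C := 2 ^ 3 * (2 ^ 16 * D + 11327)) (k := 7) (n := 1) s_S41_7_d6 d6 rfl rfl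
  have d7 := desc G (y := 1) rfl p12
  obtain ⟨p13, q13⟩ := sstep G (C := 2 ^ 3 * (2 ^ 16 * D + 11327)) (k := 6) (n := 1) s_S41_7_d7 d7 rfl rfl
  have d8 := desc G (y := 8) rfl p13
  obtain ⟨p14, q14⟩ := sstep G (C := 2 ^ 3 * (2 ^ 16 * D + 11327)) (k := 5) (n := 1) s_S41_7_d8 d8 rfl rfl
  have d9 := desc G (y := 3) rfl p14
  obtain ⟨p15, q15⟩ := sstep G (C := 2 ^ 3 * (2 ^ 16 * D + 11327)) (k := 4) (n := 1) s_S41_7_d9 d9 rfl rfl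
  have d10 := desc G (y := 6) rfl p15
  obtain ⟨p16, q16⟩ := sstep G (C := 2 ^ 3 * (2 ^ 16 * D + 11327)) (k := 3) (n := 1) s_S41_7_d10 d10 rfl rfl
  have e : 2 * (2 * (2 * (2 * (2 * (2 * (2 * (2 * (2 * (2 * (2 ^ 6 * D + 2 + 2 + 2 + 2 + 2 + 1))))) + 1) + 1) + 1) + 1) + 1) + 1 = 2 ^ 16 * D + 11327 := by ring
  rw [e] at p16
  exact ⟨_, fin_state G (K := 16) (k := 3) (o := 11327) (A := 29643835) (J := 10) hS (by norm_num) (by omega)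
    (by decide +kernel) (by norm_num) rfl rfl p16
    (fun h => QT.eq (by ring) (q1 (QT.eq (by ring) (q2 (QT.eq (by ring) (q3 (QT.eq (by ring) (q4 (QT.eq (by ring) (q5 (QT.eq (by ring) (q6 (QT.eq (by ring) (q11 (QT.eq (by ring) (q12 (QT.eq (by ring) (q13 (QT.eq (by ring) (q14 (QT.eq (by ring) (q15 (QT.eq (by ring) (q16 (QT.eq (by ring) h))))))))))))))))))))))))), by omega⟩

theorem x_S31_19 : bq (xsl 7 4 13) [63, 126, 189, 378, 567, 1134, 1701, 3402, 5103, 10206, 15309, 30618, 45927] = true := by decide +kernel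

theorem b_S31_19 : bq (win 41 7 4 (5 + 2))
    ([41, 1] ++ ([62, 63] ++ ([55] ++ ([8, 7])))) = true := by decide +kernel

theorem e_31_19 (G : Good a) : SE a 31 19 := by
  obtain ⟨D, hS, hD⟩ := e_41_7 G
  have p0 := sstart G (K := 4) (k := 13) (o := 5) hS x_S31_19 b_S31_19
  obtain ⟨p1, q1⟩ := sstep G (C := 2 ^ 4 * (2 ^ 13 * D + 2932)) (k := 13) (n := 2) s_S31_19_0 p0 rfl rfl
  obtain ⟨p2, q2⟩ := sstep G (C := 2 ^ 4 * (2 ^ 13 * D + 2932)) (k := 13) (n := 2) s_S31_19_1 p1 rfl rfl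
  obtain ⟨p3, q3⟩ := sstep G (C := 2 ^ 4 * (2 ^ 13 * D + 2932)) (k := 13) (n := 1) s_S31_19_2 p2 rfl rfl
  have d1 := desc G (y := 67) rfl p3
  obtain ⟨p4, q4⟩ := sstep G (C := 2 ^ 4 * (2 ^ 13 * D + 2932)) (k := 12) (n := 1) s_S31_19_d1 d1 rfl rfl
  have d2 := desc G (y := 8) rfl p4
  have p5 := tk2 d2
  have d3 := desc G (y := 59) rfl p5
  obtain ⟨p6, q6⟩ := sstep G (C := 2 ^ 4 * (2 ^ 13 * D + 2932)) (k := 10) (n := 1) s_S31_19_d3 d3 rfl rfl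
  have d4 := desc G (y := 31) rfl p6
  obtain ⟨p7, q7⟩ := sstep G (C := 2 ^ 4 * (2 ^ 13 * D + 2932)) (k := 9) (n := 1) s_S31_19_d4 d4 rfl rfl
  have d5 := desc G (y := 3) rfl p7
  obtain ⟨p8, q8⟩ := sstep G (C := 2 ^ 4 * (2 ^ 13 * D + 2932)) (k := 8) (n := 1) s_S31_19_d5 d5 rfl rfl
  have d6 := desc G (y := 25) rfl p8
  have p9 := tk2 d6
  have d7 := desc G (y := 18) rfl p9
  obtain ⟨p10, q10⟩ := sstep G (C := 2 ^ 4 * (2 ^ 13 * D + 2932)) (k := 6) (n := 1) s_S31_19_d7 d7 rfl rfl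
  have d8 := desc G (y := 33) rfl p10
  have p11 := tk2 d8
  have d9 := desc G (y := 31) rfl p11
  have p12 := tk2 d9
  have e : 2 * (2 * (2 * (2 * (2 * (2 * (2 * (2 * (2 * (2 ^ 4 * D + 2 + 2 + 1) + 1)) + 1) + 1) + 1)) + 1)) = 2 ^ 13 * D + 2932 := by ring
  rw [e] at p12
  exact ⟨_, fin_state G (K := 13) (k := 4) (o := 2932) (A := 13628389) (J := 10) hS (by norm_num) (by omega)
    (by decide +kernel) (by norm_num) rfl rfl p12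
    (fun h => QT.eq (by ring) (q1 (QT.eq (by ring) (q2 (QT.eq (by ring) (q3 (QT.eq (by ring) (q4 (QT.eq (by ring) (q6 (QT.eq (by ring) (q7 (QT.eq (by ring) (q8 (QT.eq (by ring) (q10 (QT.eq (by ring) h))))))))))))))))), by omega⟩

theorem x_M67 : bq (xsl 19 7 13) [1026, 1539, 3078, 4617, 9234, 13851, 27702, 41553, 83106, 124659, 249318, 373977, 747954] = true := by decide +kernel

theorem b_M67 : bq (win 31 19 7 (42 + 2))
    ([31, 482] ++ ([311, 171] ++ ([140, 31] ++ ([171, 202] ++ ([83, 119] ++ ([88, 31] ++ ([57, 88] ++ ([31, 57] ++ ([26, 31] ++ ([5, 26] ++ ([31, 57] ++ ([36, 21] ++ ([57, 78] ++ ([93, 171] ++ ([88, 83] ++ ([5, 78] ++ ([7, 71] ++ ([12, 59] ++ ([81, 140] ++ ([93, 47] ++ ([50, 97] ++ ([43, 54])))))))))))))))))))))) = true := by decide +kernel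

theorem mu_67 (G : Good a) : ∃ c, Law a c 67 := by
  obtain ⟨D, hS, hD⟩ := e_31_19 G
  have p0 := sstart G (K := 7) (k := 13) (o := 42) hS x_M67 b_M67
  obtain ⟨p1, q1⟩ := sstep G (C := 2 ^ 9 * (2 ^ 11 * D + 679)) (k := 13) (n := 2) s_M67_0 p0 rfl rfl
  obtain ⟨p2, q2⟩ := sstep G (C := 2 ^ 9 * (2 ^ 11 * D + 679)) (k := 13) (n := 2) s_M67_1 p1 rfl rfl
  obtain ⟨p3, q3⟩ := sstep G (C := 2 ^ 9 * (2 ^ 11 * D + 679)) (k := 13) (n := 2) s_M67_2 p2 rfl rfl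
  obtain ⟨p4, q4⟩ := sstep G (C := 2 ^ 9 * (2 ^ 11 * D + 679)) (k := 13) (n := 2) s_M67_3 p3 rfl rfl
  obtain ⟨p5, q5⟩ := sstep G (C := 2 ^ 9 * (2 ^ 11 * D + 679)) (k := 13) (n := 2) s_M67_4 p4 rfl rfl
  obtain ⟨p6, q6⟩ := sstep G (C := 2 ^ 9 * (2 ^ 11 * D + 679)) (k := 13) (n := 2) s_M67_5 p5 rfl rfl
  obtain ⟨p7, q7⟩ := sstep G (C := 2 ^ 9 * (2 ^ 11 * D + 679)) (k := 13) (n := 2) s_M67_6 p6 rfl rfl
  obtain ⟨p8, q8⟩ := sstep G (C := 2 ^ 9 * (2 ^ 11 * D + 679)) (k := 13) (n := 2) s_M67_7 p7 rfl rfl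
  obtain ⟨p9, q9⟩ := sstep G (C := 2 ^ 9 * (2 ^ 11 * D + 679)) (k := 13) (n := 2) s_M67_8 p8 rfl rfl
  obtain ⟨p10, q10⟩ := sstep G (C := 2 ^ 9 * (2 ^ 11 * D + 679)) (k := 13) (n := 2) s_M67_9 p9 rfl rfl
  obtain ⟨p11, q11⟩ := sstep G (C := 2 ^ 9 * (2 ^ 11 * D + 679)) (k := 13) (n := 2) s_M67_10 p10 rfl rfl
  obtain ⟨p12, q12⟩ := sstep G (C := 2 ^ 9 * (2 ^ 11 * D + 679)) (k := 13) (n := 2) s_M67_11 p11 rfl rfl
  obtain ⟨p13, q13⟩ := sstep G (C := 2 ^ 9 * (2 ^ 11 * D + 679)) (k := 13) (n := 2) s_M67_12 p12 rfl rfl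
  obtain ⟨p14, q14⟩ := sstep G (C := 2 ^ 9 * (2 ^ 11 * D + 679)) (k := 13) (n := 2) s_M67_13 p13 rfl rfl
  obtain ⟨p15, q15⟩ := sstep G (C := 2 ^ 9 * (2 ^ 11 * D + 679)) (k := 13) (n := 2) s_M67_14 p14 rfl rfl
  obtain ⟨p16, q16⟩ := sstep G (C := 2 ^ 9 * (2 ^ 11 * D + 679)) (k := 13) (n := 2) s_M67_15 p15 rfl rfl
  obtain ⟨p17, q17⟩ := sstep G (C := 2 ^ 9 * (2 ^ 11 * D + 679)) (k := 13) (n := 2) s_M67_16 p16 rfl rfl
  obtain ⟨p18, q18⟩ := sstep G (C := 2 ^ 9 * (2 ^ 11 * D + 679)) (k := 13) (n := 2) s_M67_17 p17 rfl rfl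
  obtain ⟨p19, q19⟩ := sstep G (C := 2 ^ 9 * (2 ^ 11 * D + 679)) (k := 13) (n := 2) s_M67_18 p18 rfl rfl
  obtain ⟨p20, q20⟩ := sstep G (C := 2 ^ 9 * (2 ^ 11 * D + 679)) (k := 13) (n := 2) s_M67_19 p19 rfl rfl
  obtain ⟨p21, q21⟩ := sstep G (C := 2 ^ 9 * (2 ^ 11 * D + 679)) (k := 13) (n := 2) s_M67_20 p20 rfl rfl
  have d1 := desc G (y := 123) rfl p21
  have p22 := tk2 d1
  have d2 := desc G (y := 68) rfl p22
  obtain ⟨p23, q23⟩ := sstep G (C := 2 ^ 9 * (2 ^ 11 * D + 679)) (k := 11) (n := 1) s_M67_d2 d2 rfl rfl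
  have d3 := desc G (y := 7) rfl p23
  obtain ⟨p24, q24⟩ := sstep G (C := 2 ^ 9 * (2 ^ 11 * D + 679)) (k := 10) (n := 1) s_M67_d3 d3 rfl rfl
  have d4 := desc G (y := 66) rfl p24
  obtain ⟨p25, q25⟩ := sstep G (C := 2 ^ 9 * (2 ^ 11 * D + 679)) (k := 9) (n := 1) s_M67_d4 d4 rfl rfl
  have e : 2 * (2 * (2 * (2 * (2 ^ 7 * D + 2 + 2 + 2 + 2 + 2 + 2 + 2 + 2 + 2 + 2 + 2 + 2 + 2 + 2 + 2 + 2 + 2 + 2 + 2 + 2 + 2)) + 1) + 1) + 1 = 2 ^ 11 * D + 679 := by ring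
  rw [e] at p25
  exact fin_mult G (K := 11) (k := 9) (o := 679) (A := 233411984) (J := 11) hS (by norm_num) (by omega)
    (by decide +kernel) (by norm_num) p25
    (fun h => QT.eq (by ring) (q1 (QT.eq (by ring) (q2 (QT.eq (by ring) (q3 (QT.eq (by ring) (q4 (QT.eq (by ring) (q5 (QT.eq (by ring) (q6 (QT.eq (by ring) (q7 (QT.eq (by ring) (q8 (QT.eq (by ring) (q9 (QT.eq (by ring) (q10 (QT.eq (by ring) (q11 (QT.eq (by ring) (q12 (QT.eq (by ring) (q13 (QT.eq (by ring) (q14 (QT.eq (by ring) (q15 (QT.eq (by ring) (q16 (QT.eq (by ring) (q17 (QT.eq (by ring) (q18 (QT.eq (by ring) (q19 (QT.eq (by ring) (q20 (QT.eq (by ring) (q21 (QT.eq (by ring) (q23 (QT.eq (by ring) (q24 (QT.eq (by ring) (q25 (QT.eq (by ring) h)))))))))))))))))))))))))))))))))))))))))))))))))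

theorem x_S17_3 : bq (xsl 3 4 13) [27, 54, 81, 162, 243, 486, 729, 1458, 2187, 4374, 6561, 13122, 19683] = true := by decide +kernel

theorem b_S17_3 : bq (win 13 3 4 (1 + 2))
    ([13] ++ ([5, 22])) = true := by decide +kernel

theorem e_17_3 (G : Good a) : SE a 17 3 := by
  obtain ⟨D, hS, hD⟩ := e_13_3 G
  have p0 := sstart G (K := 4) (k := 13) (o := 1) hS x_S17_3 b_S17_3
  obtain ⟨p1, q1⟩ := sstep G (C := 2 ^ 1 * (2 ^ 16 * D + 7103)) (k := 13) (n := 1) s_S17_3_0 p0 rfl rfl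
  have d1 := desc G (y := 9) rfl p1
  obtain ⟨p2, q2⟩ := sstep G (C := 2 ^ 1 * (2 ^ 16 * D + 7103)) (k := 12) (n := 1) s_S17_3_d1 d1 rfl rfl
  have d2 := desc G (y := 13) rfl p2
  have p3 := tk2 d2
  have d3 := desc G (y := 4) rfl p3
  obtain ⟨p4, q4⟩ := sstep G (C := 2 ^ 1 * (2 ^ 16 * D + 7103)) (k := 10) (n := 1) s_S17_3_d3 d3 rfl rfl
  have d4 := desc G (y := 11) rfl p4
  obtain ⟨p5, q5⟩ := sstep G (C := 2 ^ 1 * (2 ^ 16 * D + 7103)) (k := 9) (n := 1) s_S17_3_d4 d4 rfl rfl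
  have d5 := desc G (y := 10) rfl p5
  obtain ⟨p6, q6⟩ := sstep G (C := 2 ^ 1 * (2 ^ 16 * D + 7103)) (k := 8) (n := 1) s_S17_3_d5 d5 rfl rfl
  have d6 := desc G (y := 17) rfl p6
  have p7 := tk2 d6
  have d7 := desc G (y := 3) rfl p7
  obtain ⟨p8, q8⟩ := sstep G (C := 2 ^ 1 * (2 ^ 16 * D + 7103)) (k := 6) (n := 1) s_S17_3_d7 d7 rfl rfl
  have d8 := desc G (y := 2) rfl p8
  obtain ⟨p9, q9⟩ := sstep G (C := 2 ^ 1 * (2 ^ 16 * D + 7103)) (k := 5) (n := 1) s_S17_3_d8 d8 rfl rfl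
  have d9 := desc G (y := 9) rfl p9
  obtain ⟨p10, q10⟩ := sstep G (C := 2 ^ 1 * (2 ^ 16 * D + 7103)) (k := 4) (n := 1) s_S17_3_d9 d9 rfl rfl
  have d10 := desc G (y := 4) rfl p10
  obtain ⟨p11, q11⟩ := sstep G (C := 2 ^ 1 * (2 ^ 16 * D + 7103)) (k := 3) (n := 1) s_S17_3_d10 d10 rfl rfl
  have d11 := desc G (y := 1) rfl p11
  obtain ⟨p12, q12⟩ := sstep G (C := 2 ^ 1 * (2 ^ 16 * D + 7103)) (k := 2) (n := 1) s_S17_3_d11 d11 rfl rfl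
  have d12 := desc G (y := 2) rfl p12
  obtain ⟨p13, q13⟩ := sstep G (C := 2 ^ 1 * (2 ^ 16 * D + 7103)) (k := 1) (n := 1) s_S17_3_d12 d12 rfl rfl
  have e : 2 * (2 * (2 * (2 * (2 * (2 * (2 * (2 * (2 * (2 * (2 * (2 * (2 ^ 4 * D + 1) + 1)) + 1) + 1) + 1)) + 1) + 1) + 1) + 1) + 1) + 1 = 2 ^ 16 * D + 7103 := by ring
  rw [e] at p13
  exact ⟨_, fin_state G (K := 16) (k := 1) (o := 7103) (A := 1912591) (J := 9) hS (by norm_num) (by omega)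
    (by decide +kernel) (by norm_num) rfl rfl p13
    (fun h => QT.eq (by ring) (q1 (QT.eq (by ring) (q2 (QT.eq (by ring) (q4 (QT.eq (by ring) (q5 (QT.eq (by ring) (q6 (QT.eq (by ring) (q8 (QT.eq (by ring) (q9 (QT.eq (by ring) (q10 (QT.eq (by ring) (q11 (QT.eq (by ring) (q12 (QT.eq (by ring) (q13 (QT.eq (by ring) h))))))))))))))))))))))), by omega⟩

theorem x_M71 : bq (xsl 3 11 13) [1458, 2187, 4374, 6561, 13122, 19683, 39366, 59049, 118098, 177147, 354294, 531441,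
      1062882] = true := by decide +kernel

theorem b_M71 : bq (win 17 3 11 (35 + 2))
    ([17, 712] ++ ([469, 243] ++ ([226, 17] ++ ([243, 260] ++ ([145, 115] ++ ([98, 17] ++ ([81, 98] ++ ([17, 81] ++ ([64, 17] ++ ([81, 98] ++ ([17, 81] ++ ([64, 17] ++ ([81, 98] ++ ([145, 243] ++ ([98, 145] ++ ([47, 98] ++ ([37, 61] ++ ([10] ++ ([51, 61]))))))))))))))))))) = true := by decide +kernel

theorem mu_71 (G : Good a) : ∃ c, Law a c 71 := by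
  obtain ⟨D, hS, hD⟩ := e_17_3 G
  have p0 := sstart G (K := 11) (k := 13) (o := 35) hS x_M71 b_M71
  obtain ⟨p1, q1⟩ := sstep G (C := 2 ^ 9 * (2 ^ 15 * D + 571)) (k := 13) (n := 2) s_M71_0 p0 rfl rfl
  obtain ⟨p2, q2⟩ := sstep G (C := 2 ^ 9 * (2 ^ 15 * D + 571)) (k := 13) (n := 2) s_M71_1 p1 rfl rfl
  obtain ⟨p3, q3⟩ := sstep G (C := 2 ^ 9 * (2 ^ 15 * D + 571)) (k := 13) (n := 2) s_M71_2 p2 rfl rfl
  obtain ⟨p4, q4⟩ := sstep G (C := 2 ^ 9 * (2 ^ 15 * D + 571)) (k := 13) (n := 2) s_M71_3 p3 rfl rfl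
  obtain ⟨p5, q5⟩ := sstep G (C := 2 ^ 9 * (2 ^ 15 * D + 571)) (k := 13) (n := 2) s_M71_4 p4 rfl rfl
  obtain ⟨p6, q6⟩ := sstep G (C := 2 ^ 9 * (2 ^ 15 * D + 571)) (k := 13) (n := 2) s_M71_5 p5 rfl rfl
  obtain ⟨p7, q7⟩ := sstep G (C := 2 ^ 9 * (2 ^ 15 * D + 571)) (k := 13) (n := 2) s_M71_6 p6 rfl rfl
  obtain ⟨p8, q8⟩ := sstep G (C := 2 ^ 9 * (2 ^ 15 * D + 571)) (k := 13) (n := 2) s_M71_7 p7 rfl rfl
  obtain ⟨p9, q9⟩ := sstep G (C := 2 ^ 9 * (2 ^ 15 * D + 571)) (k := 13) (n := 2) s_M71_8 p8 rfl rfl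
  obtain ⟨p10, q10⟩ := sstep G (C := 2 ^ 9 * (2 ^ 15 * D + 571)) (k := 13) (n := 2) s_M71_9 p9 rfl rfl
  obtain ⟨p11, q11⟩ := sstep G (C := 2 ^ 9 * (2 ^ 15 * D + 571)) (k := 13) (n := 2) s_M71_10 p10 rfl rfl
  obtain ⟨p12, q12⟩ := sstep G (C := 2 ^ 9 * (2 ^ 15 * D + 571)) (k := 13) (n := 2) s_M71_11 p11 rfl rfl
  obtain ⟨p13, q13⟩ := sstep G (C := 2 ^ 9 * (2 ^ 15 * D + 571)) (k := 13) (n := 2) s_M71_12 p12 rfl rfl
  obtain ⟨p14, q14⟩ := sstep G (C := 2 ^ 9 * (2 ^ 15 * D + 571)) (k := 13) (n := 2) s_M71_13 p13 rfl rfl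
  obtain ⟨p15, q15⟩ := sstep G (C := 2 ^ 9 * (2 ^ 15 * D + 571)) (k := 13) (n := 2) s_M71_14 p14 rfl rfl
  obtain ⟨p16, q16⟩ := sstep G (C := 2 ^ 9 * (2 ^ 15 * D + 571)) (k := 13) (n := 2) s_M71_15 p15 rfl rfl
  obtain ⟨p17, q17⟩ := sstep G (C := 2 ^ 9 * (2 ^ 15 * D + 571)) (k := 13) (n := 2) s_M71_16 p16 rfl rfl
  obtain ⟨p18, q18⟩ := sstep G (C := 2 ^ 9 * (2 ^ 15 * D + 571)) (k := 13) (n := 1) s_M71_17 p17 rfl rfl
  have d1 := desc G (y := 50) rfl p18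
  obtain ⟨p19, q19⟩ := sstep G (C := 2 ^ 9 * (2 ^ 15 * D + 571)) (k := 12) (n := 1) s_M71_d1 d1 rfl rfl
  have d2 := desc G (y := 61) rfl p19
  have p20 := tk2 d2
  have d3 := desc G (y := 7) rfl p20
  obtain ⟨p21, q21⟩ := sstep G (C := 2 ^ 9 * (2 ^ 15 * D + 571)) (k := 10) (n := 1) s_M71_d3 d3 rfl rfl
  have d4 := desc G (y := 70) rfl p21
  obtain ⟨p22, q22⟩ := sstep G (C := 2 ^ 9 * (2 ^ 15 * D + 571)) (k := 9) (n := 1) s_M71_d4 d4 rfl rfl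
  have e : 2 * (2 * (2 * (2 * (2 ^ 11 * D + 2 + 2 + 2 + 2 + 2 + 2 + 2 + 2 + 2 + 2 + 2 + 2 + 2 + 2 + 2 + 2 + 2 + 1) + 1)) + 1) + 1 = 2 ^ 15 * D + 571 := by ring
  rw [e] at p22
  exact fin_mult G (K := 15) (k := 9) (o := 571) (A := 288244780) (J := 11) hS (by norm_num) (by omega)
    (by decide +kernel) (by norm_num) p22
    (fun h => QT.eq (by ring) (q1 (QT.eq (by ring) (q2 (QT.eq (by ring) (q3 (QT.eq (by ring) (q4 (QT.eq (by ring) (q5 (QT.eq (by ring) (q6 (QT.eq (by ring) (q7 (QT.eq (by ring) (q8 (QT.eq (by ring) (q9 (QT.eq (by ring) (q10 (QT.eq (by ring) (q11 (QT.eq (by ring) (q12 (QT.eq (by ring) (q13 (QT.eq (by ring) (q14 (QT.eq (by ring) (q15 (QT.eq (by ring) (q16 (QT.eq (by ring) (q17 (QT.eq (by ring) (q18 (QT.eq (by ring) (q19 (QT.eq (by ring) (q21 (QT.eq (by ring) (q22 (QT.eq (by ring) h)))))))))))))))))))))))))))))))))))))))))))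

theorem x_M73 : bq (xsl 11 5 13) [198, 297, 594, 891, 1782, 2673, 5346, 8019, 16038, 24057, 48114, 72171, 144342] = true := by decide +kernel

theorem b_M73 : bq (win 25 11 5 (10 + 2))
    ([25, 74] ++ ([41, 33] ++ ([8, 25] ++ ([33, 58] ++ ([47, 11] ++ ([80, 91])))))) = true := by decide +kernel

theorem mu_73 (G : Good a) : ∃ c, Law a c 73 := by
  obtain ⟨D, hS, hD⟩ := e_25_11 G
  have p0 := sstart G (K := 5) (k := 13) (o := 10) hS x_M73 b_M73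
  obtain ⟨p1, q1⟩ := sstep G (C := 2 ^ 7 * (2 ^ 11 * D + 691)) (k := 13) (n := 2) s_M73_0 p0 rfl rfl
  obtain ⟨p2, q2⟩ := sstep G (C := 2 ^ 7 * (2 ^ 11 * D + 691)) (k := 13) (n := 2) s_M73_1 p1 rfl rfl
  obtain ⟨p3, q3⟩ := sstep G (C := 2 ^ 7 * (2 ^ 11 * D + 691)) (k := 13) (n := 2) s_M73_2 p2 rfl rfl
  obtain ⟨p4, q4⟩ := sstep G (C := 2 ^ 7 * (2 ^ 11 * D + 691)) (k := 13) (n := 2) s_M73_3 p3 rfl rfl
  obtain ⟨p5, q5⟩ := sstep G (C := 2 ^ 7 * (2 ^ 11 * D + 691)) (k := 13) (n := 2) s_M73_4 p4 rfl rfl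
  have d1 := desc G (y := 89) rfl p5
  obtain ⟨p6, q6⟩ := sstep G (C := 2 ^ 7 * (2 ^ 11 * D + 691)) (k := 12) (n := 1) s_M73_d1 d1 rfl rfl
  have d2 := desc G (y := 22) rfl p6
  obtain ⟨p7, q7⟩ := sstep G (C := 2 ^ 7 * (2 ^ 11 * D + 691)) (k := 11) (n := 1) s_M73_d2 d2 rfl rfl
  have d3 := desc G (y := 89) rfl p7
  have p8 := tk2 d3
  have d4 := desc G (y := 93) rfl p8
  have p9 := tk2 d4
  have d5 := desc G (y := 41) rfl p9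
  obtain ⟨p10, q10⟩ := sstep G (C := 2 ^ 7 * (2 ^ 11 * D + 691)) (k := 8) (n := 1) s_M73_d5 d5 rfl rfl
  have d6 := desc G (y := 72) rfl p10
  obtain ⟨p11, q11⟩ := sstep G (C := 2 ^ 7 * (2 ^ 11 * D + 691)) (k := 7) (n := 1) s_M73_d6 d6 rfl rfl
  have e : 2 * (2 * (2 * (2 * (2 * (2 * (2 ^ 5 * D + 2 + 2 + 2 + 2 + 2) + 1) + 1))) + 1) + 1 = 2 ^ 11 * D + 691 := by ring
  rw [e] at p11
  exact fin_mult G (K := 11) (k := 7) (o := 691) (A := 27190360) (J := 10) hS (by norm_num) (by omega)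
    (by decide +kernel) (by norm_num) p11
    (fun h => QT.eq (by ring) (q1 (QT.eq (by ring) (q2 (QT.eq (by ring) (q3 (QT.eq (by ring) (q4 (QT.eq (by ring) (q5 (QT.eq (by ring) (q6 (QT.eq (by ring) (q7 (QT.eq (by ring) (q10 (QT.eq (by ring) (q11 (QT.eq (by ring) h)))))))))))))))))))

theorem x_S19_5 : bq (xsl 3 2 13) [9, 18, 27, 54, 81, 162, 243, 486, 729, 1458, 2187, 4374, 6561] = true := by decide +kernel

theorem b_S19_5 : bq (win 13 3 2 (2 + 2))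
    ([13, 19] ++ ([16, 3])) = true := by decide +kernel

theorem e_19_5 (G : Good a) : SE a 19 5 := by
  obtain ⟨D, hS, hD⟩ := e_13_3 G
  have p0 := sstart G (K := 2) (k := 13) (o := 2) hS x_S19_5 b_S19_5
  obtain ⟨p1, q1⟩ := sstep G (C := 2 ^ 2 * (2 ^ 13 * D + 6031)) (k := 13) (n := 2) s_S19_5_0 p0 rfl rfl
  have d1 := desc G (y := 19) rfl p1
  obtain ⟨p2, q2⟩ := sstep G (C := 2 ^ 2 * (2 ^ 13 * D + 6031)) (k := 12) (n := 1) s_S19_5_d1 d1 rfl rfl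
  have d2 := desc G (y := 2) rfl p2
  obtain ⟨p3, q3⟩ := sstep G (C := 2 ^ 2 * (2 ^ 13 * D + 6031)) (k := 11) (n := 1) s_S19_5_d2 d2 rfl rfl
  have d3 := desc G (y := 19) rfl p3
  obtain ⟨p4, q4⟩ := sstep G (C := 2 ^ 2 * (2 ^ 13 * D + 6031)) (k := 10) (n := 1) s_S19_5_d3 d3 rfl rfl
  have d4 := desc G (y := 2) rfl p4
  obtain ⟨p5, q5⟩ := sstep G (C := 2 ^ 2 * (2 ^ 13 * D + 6031)) (k := 9) (n := 1) s_S19_5_d4 d4 rfl rfl
  have d5 := desc G (y := 15) rfl p5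
  have p6 := tk2 d5
  have d6 := desc G (y := 5) rfl p6
  have p7 := tk2 d6
  have d7 := desc G (y := 19) rfl p7
  have p8 := tk2 d7
  have d8 := desc G (y := 3) rfl p8
  obtain ⟨p9, q9⟩ := sstep G (C := 2 ^ 2 * (2 ^ 13 * D + 6031)) (k := 5) (n := 1) s_S19_5_d8 d8 rfl rfl
  have d9 := desc G (y := 4) rfl p9
  obtain ⟨p10, q10⟩ := sstep G (C := 2 ^ 2 * (2 ^ 13 * D + 6031)) (k := 4) (n := 1) s_S19_5_d9 d9 rfl rfl
  have d10 := desc G (y := 1) rfl p10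
  obtain ⟨p11, q11⟩ := sstep G (C := 2 ^ 2 * (2 ^ 13 * D + 6031)) (k := 3) (n := 1) s_S19_5_d10 d10 rfl rfl
  have d11 := desc G (y := 4) rfl p11
  obtain ⟨p12, q12⟩ := sstep G (C := 2 ^ 2 * (2 ^ 13 * D + 6031)) (k := 2) (n := 1) s_S19_5_d11 d11 rfl rfl
  have e : 2 * (2 * (2 * (2 * (2 * (2 * (2 * (2 * (2 * (2 * (2 * (2 ^ 2 * D + 2) + 1) + 1) + 1) + 1)))) + 1) + 1) + 1) + 1 = 2 ^ 13 * D + 6031 := by ring
  rw [e] at p12
  exact ⟨_, fin_state G (K := 13) (k := 2) (o := 6031) (A := 1680511) (J := 8) hS (by norm_num) (by omega)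
    (by decide +kernel) (by norm_num) rfl rfl p12
    (fun h => QT.eq (by ring) (q1 (QT.eq (by ring) (q2 (QT.eq (by ring) (q3 (QT.eq (by ring) (q4 (QT.eq (by ring) (q5 (QT.eq (by ring) (q9 (QT.eq (by ring) (q10 (QT.eq (by ring) (q11 (QT.eq (by ring) (q12 (QT.eq (by ring) h))))))))))))))))))), by omega⟩

theorem e_23_13 (G : Good a) : SE a 23 13 := by
  obtain ⟨D, hS, hD⟩ := e_19_5 G
  exact ⟨_, state_of G (K := 8) (k := 4) (o := 104) (A := 115850) (J := 8) (w := 12) (v := 23) hS (by norm_num) (by norm_num) c_S23_13 (by omega)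
    (by decide +kernel) (by norm_num) (by decide +kernel) (by decide +kernel)
    (fun l h1 h2 => by interval_cases l <;> decide +kernel), by omega⟩

theorem x_M79 : bq (xsl 13 5 13) [234, 351, 702, 1053, 2106, 3159, 6318, 9477, 18954, 28431, 56862, 85293, 170586] = true := by decide +kernel

theorem b_M79 : bq (win 23 13 5 (20 + 2))
    ([23, 94] ++ ([55, 39] ++ ([16, 23] ++ ([39, 62] ++ ([3, 59] ++ ([36, 23] ++ ([13, 10] ++ ([23, 33] ++ ([36, 69] ++ ([59, 10] ++ ([49, 59]))))))))))) = true := by decide +kernel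

theorem mu_79 (G : Good a) : ∃ c, Law a c 79 := by
  obtain ⟨D, hS, hD⟩ := e_23_13 G
  have p0 := sstart G (K := 5) (k := 13) (o := 20) hS x_M79 b_M79
  obtain ⟨p1, q1⟩ := sstep G (C := 2 ^ 8 * (2 ^ 10 * D + 647)) (k := 13) (n := 2) s_M79_0 p0 rfl rfl
  obtain ⟨p2, q2⟩ := sstep G (C := 2 ^ 8 * (2 ^ 10 * D + 647)) (k := 13) (n := 2) s_M79_1 p1 rfl rfl
  obtain ⟨p3, q3⟩ := sstep G (C := 2 ^ 8 * (2 ^ 10 * D + 647)) (k := 13) (n := 2) s_M79_2 p2 rfl rfl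
  obtain ⟨p4, q4⟩ := sstep G (C := 2 ^ 8 * (2 ^ 10 * D + 647)) (k := 13) (n := 2) s_M79_3 p3 rfl rfl
  obtain ⟨p5, q5⟩ := sstep G (C := 2 ^ 8 * (2 ^ 10 * D + 647)) (k := 13) (n := 2) s_M79_4 p4 rfl rfl
  obtain ⟨p6, q6⟩ := sstep G (C := 2 ^ 8 * (2 ^ 10 * D + 647)) (k := 13) (n := 2) s_M79_5 p5 rfl rfl
  obtain ⟨p7, q7⟩ := sstep G (C := 2 ^ 8 * (2 ^ 10 * D + 647)) (k := 13) (n := 2) s_M79_6 p6 rfl rfl
  obtain ⟨p8, q8⟩ := sstep G (C := 2 ^ 8 * (2 ^ 10 * D + 647)) (k := 13) (n := 2) s_M79_7 p7 rfl rfl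
  obtain ⟨p9, q9⟩ := sstep G (C := 2 ^ 8 * (2 ^ 10 * D + 647)) (k := 13) (n := 2) s_M79_8 p8 rfl rfl
  obtain ⟨p10, q10⟩ := sstep G (C := 2 ^ 8 * (2 ^ 10 * D + 647)) (k := 13) (n := 2) s_M79_9 p9 rfl rfl
  have d1 := desc G (y := 76) rfl p10
  have p11 := tk2 d1
  have d2 := desc G (y := 3) rfl p11
  have p12 := tk2 d2
  have d3 := desc G (y := 10) rfl p12
  obtain ⟨p13, q13⟩ := sstep G (C := 2 ^ 8 * (2 ^ 10 * D + 647)) (k := 10) (n := 1) s_M79_d3 d3 rfl rfl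
  have d4 := desc G (y := 51) rfl p13
  obtain ⟨p14, q14⟩ := sstep G (C := 2 ^ 8 * (2 ^ 10 * D + 647)) (k := 9) (n := 1) s_M79_d4 d4 rfl rfl
  have d5 := desc G (y := 78) rfl p14
  obtain ⟨p15, q15⟩ := sstep G (C := 2 ^ 8 * (2 ^ 10 * D + 647)) (k := 8) (n := 1) s_M79_d5 d5 rfl rfl
  have e : 2 * (2 * (2 * (2 * (2 * (2 ^ 5 * D + 2 + 2 + 2 + 2 + 2 + 2 + 2 + 2 + 2 + 2))) + 1) + 1) + 1 = 2 ^ 10 * D + 647 := by ring
  rw [e] at p15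
  exact fin_mult G (K := 10) (k := 8) (o := 647) (A := 41057744) (J := 9) hS (by norm_num) (by omega)
    (by decide +kernel) (by norm_num) p15
    (fun h => QT.eq (by ring) (q1 (QT.eq (by ring) (q2 (QT.eq (by ring) (q3 (QT.eq (by ring) (q4 (QT.eq (by ring) (q5 (QT.eq (by ring) (q6 (QT.eq (by ring) (q7 (QT.eq (by ring) (q8 (QT.eq (by ring) (q9 (QT.eq (by ring) (q10 (QT.eq (by ring) (q13 (QT.eq (by ring) (q14 (QT.eq (by ring) (q15 (QT.eq (by ring) h)))))))))))))))))))))))))))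

theorem x_S13_5 : bq (xsl 1 9 13) [162, 243, 486, 729, 1458, 2187, 4374, 6561, 13122, 19683, 39366, 59049, 118098] = true := by decide +kernel

theorem b_S13_5 : bq (win 1 1 9 (5 + 2))
    ([1, 80] ++ ([53, 27] ++ ([26] ++ ([1, 27])))) = true := by decide +kernel

theorem e_13_5 (G : Good a) : SE a 13 5 := by
  obtain ⟨D, hS, hD⟩ := e_1_1 G
  have p0 := sstart G (K := 9) (k := 13) (o := 5) hS x_S13_5 b_S13_5
  obtain ⟨p1, q1⟩ := sstep G (C := 2 ^ 2 * (2 ^ 20 * D + 10271)) (k := 13) (n := 2) s_S13_5_0 p0 rfl rfl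
  obtain ⟨p2, q2⟩ := sstep G (C := 2 ^ 2 * (2 ^ 20 * D + 10271)) (k := 13) (n := 2) s_S13_5_1 p1 rfl rfl
  obtain ⟨p3, q3⟩ := sstep G (C := 2 ^ 2 * (2 ^ 20 * D + 10271)) (k := 13) (n := 1) s_S13_5_2 p2 rfl rfl
  have d1 := desc G (y := 26) rfl p3
  have p4 := tk2 d1
  have d2 := desc G (y := 27) rfl p4
  have p5 := tk2 d2
  have d3 := desc G (y := 22) rfl p5
  have p6 := tk2 d3
  have d4 := desc G (y := 35) rfl p6
  have p7 := tk2 d4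
  have d5 := desc G (y := 2) rfl p7
  have p8 := tk2 d5
  have d6 := desc G (y := 13) rfl p8
  have p9 := tk2 d6
  have d7 := desc G (y := 2) rfl p9
  obtain ⟨p10, q10⟩ := sstep G (C := 2 ^ 2 * (2 ^ 20 * D + 10271)) (k := 6) (n := 1) s_S13_5_d7 d7 rfl rfl
  have d8 := desc G (y := 3) rfl p10
  obtain ⟨p11, q11⟩ := sstep G (C := 2 ^ 2 * (2 ^ 20 * D + 10271)) (k := 5) (n := 1) s_S13_5_d8 d8 rfl rfl
  have d9 := desc G (y := 4) rfl p11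
  obtain ⟨p12, q12⟩ := sstep G (C := 2 ^ 2 * (2 ^ 20 * D + 10271)) (k := 4) (n := 1) s_S13_5_d9 d9 rfl rfl
  have d10 := desc G (y := 1) rfl p12
  obtain ⟨p13, q13⟩ := sstep G (C := 2 ^ 2 * (2 ^ 20 * D + 10271)) (k := 3) (n := 1) s_S13_5_d10 d10 rfl rfl
  have d11 := desc G (y := 4) rfl p13
  obtain ⟨p14, q14⟩ := sstep G (C := 2 ^ 2 * (2 ^ 20 * D + 10271)) (k := 2) (n := 1) s_S13_5_d11 d11 rfl rfl
  have e : 2 * (2 * (2 * (2 * (2 * (2 * (2 * (2 * (2 * (2 * (2 * (2 ^ 9 * D + 2 + 2 + 1))))))) + 1) + 1) + 1) + 1) + 1 = 2 ^ 20 * D + 10271 := by ring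
  rw [e] at p14
  exact ⟨_, fin_state G (K := 20) (k := 2) (o := 10271) (A := 15082766) (J := 10) hS (by norm_num) (by omega)
    (by decide +kernel) (by norm_num) rfl rfl p14
    (fun h => QT.eq (by ring) (q1 (QT.eq (by ring) (q2 (QT.eq (by ring) (q3 (QT.eq (by ring) (q10 (QT.eq (by ring) (q11 (QT.eq (by ring) (q12 (QT.eq (by ring) (q13 (QT.eq (by ring) (q14 (QT.eq (by ring) h))))))))))))))))), by omega⟩

theorem x_S27_17 : bq (xsl 5 9 13) [810, 1215, 2430, 3645, 7290, 10935, 21870, 32805, 65610, 98415, 196830, 295245, 590490] = true := by decide +kernel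

theorem b_S27_17 : bq (win 13 5 9 (28 + 2))
    ([13, 392] ++ ([257, 135] ++ ([122, 13] ++ ([135, 148] ++ ([77, 71] ++ ([58, 13] ++ ([45, 58] ++ ([13, 45] ++ ([32, 13] ++ ([45, 58] ++ ([13, 45] ++ ([32, 13] ++ ([45, 58] ++ ([77, 135] ++ ([58, 77]))))))))))))))) = true := by decide +kernel

theorem e_27_17 (G : Good a) : SE a 27 17 := by
  obtain ⟨D, hS, hD⟩ := e_13_5 G
  have p0 := sstart G (K := 9) (k := 13) (o := 28) hS x_S27_17 b_S27_17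
  obtain ⟨p1, q1⟩ := sstep G (C := 2 ^ 4 * (2 ^ 18 * D + 14543)) (k := 13) (n := 2) s_S27_17_0 p0 rfl rfl
  obtain ⟨p2, q2⟩ := sstep G (C := 2 ^ 4 * (2 ^ 18 * D + 14543)) (k := 13) (n := 2) s_S27_17_1 p1 rfl rfl
  obtain ⟨p3, q3⟩ := sstep G (C := 2 ^ 4 * (2 ^ 18 * D + 14543)) (k := 13) (n := 2) s_S27_17_2 p2 rfl rfl
  obtain ⟨p4, q4⟩ := sstep G (C := 2 ^ 4 * (2 ^ 18 * D + 14543)) (k := 13) (n := 2) s_S27_17_3 p3 rfl rfl
  obtain ⟨p5, q5⟩ := sstep G (C := 2 ^ 4 * (2 ^ 18 * D + 14543)) (k := 13) (n := 2) s_S27_17_4 p4 rfl rfl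
  obtain ⟨p6, q6⟩ := sstep G (C := 2 ^ 4 * (2 ^ 18 * D + 14543)) (k := 13) (n := 2) s_S27_17_5 p5 rfl rfl
  obtain ⟨p7, q7⟩ := sstep G (C := 2 ^ 4 * (2 ^ 18 * D + 14543)) (k := 13) (n := 2) s_S27_17_6 p6 rfl rfl
  obtain ⟨p8, q8⟩ := sstep G (C := 2 ^ 4 * (2 ^ 18 * D + 14543)) (k := 13) (n := 2) s_S27_17_7 p7 rfl rfl
  obtain ⟨p9, q9⟩ := sstep G (C := 2 ^ 4 * (2 ^ 18 * D + 14543)) (k := 13) (n := 2) s_S27_17_8 p8 rfl rfl
  obtain ⟨p10, q10⟩ := sstep G (C := 2 ^ 4 * (2 ^ 18 * D + 14543)) (k := 13) (n := 2) s_S27_17_9 p9 rfl rfl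
  obtain ⟨p11, q11⟩ := sstep G (C := 2 ^ 4 * (2 ^ 18 * D + 14543)) (k := 13) (n := 2) s_S27_17_10 p10 rfl rfl
  obtain ⟨p12, q12⟩ := sstep G (C := 2 ^ 4 * (2 ^ 18 * D + 14543)) (k := 13) (n := 2) s_S27_17_11 p11 rfl rfl
  obtain ⟨p13, q13⟩ := sstep G (C := 2 ^ 4 * (2 ^ 18 * D + 14543)) (k := 13) (n := 2) s_S27_17_12 p12 rfl rfl
  obtain ⟨p14, q14⟩ := sstep G (C := 2 ^ 4 * (2 ^ 18 * D + 14543)) (k := 13) (n := 2) s_S27_17_13 p13 rfl rfl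
  have d1 := desc G (y := 109) rfl p14
  have p15 := tk2 d1
  have d2 := desc G (y := 67) rfl p15
  obtain ⟨p16, q16⟩ := sstep G (C := 2 ^ 4 * (2 ^ 18 * D + 14543)) (k := 11) (n := 1) s_S27_17_d2 d2 rfl rfl
  have d3 := desc G (y := 16) rfl p16
  obtain ⟨p17, q17⟩ := sstep G (C := 2 ^ 4 * (2 ^ 18 * D + 14543)) (k := 10) (n := 1) s_S27_17_d3 d3 rfl rfl
  have d4 := desc G (y := 1) rfl p17
  have p18 := tk2 d4
  have d5 := desc G (y := 27) rfl p18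
  have p19 := tk2 d5
  have d6 := desc G (y := 13) rfl p19
  obtain ⟨p20, q20⟩ := sstep G (C := 2 ^ 4 * (2 ^ 18 * D + 14543)) (k := 7) (n := 1) s_S27_17_d6 d6 rfl rfl
  have d7 := desc G (y := 6) rfl p20
  obtain ⟨p21, q21⟩ := sstep G (C := 2 ^ 4 * (2 ^ 18 * D + 14543)) (k := 6) (n := 1) s_S27_17_d7 d7 rfl rfl
  have d8 := desc G (y := 9) rfl p21
  obtain ⟨p22, q22⟩ := sstep G (C := 2 ^ 4 * (2 ^ 18 * D + 14543)) (k := 5) (n := 1) s_S27_17_d8 d8 rfl rfl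
  have d9 := desc G (y := 16) rfl p22
  obtain ⟨p23, q23⟩ := sstep G (C := 2 ^ 4 * (2 ^ 18 * D + 14543)) (k := 4) (n := 1) s_S27_17_d9 d9 rfl rfl
  have e : 2 * (2 * (2 * (2 * (2 * (2 * (2 * (2 * (2 * (2 ^ 9 * D + 2 + 2 + 2 + 2 + 2 + 2 + 2 + 2 + 2 + 2 + 2 + 2 + 2 + 2)) + 1) + 1))) + 1) + 1) + 1) + 1 = 2 ^ 18 * D + 14543 := by ring
  rw [e] at p23
  exact ⟨_, fin_state G (K := 18) (k := 4) (o := 14543) (A := 147850776) (J := 11) hS (by norm_num) (by omega)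
    (by decide +kernel) (by norm_num) rfl rfl p23
    (fun h => QT.eq (by ring) (q1 (QT.eq (by ring) (q2 (QT.eq (by ring) (q3 (QT.eq (by ring) (q4 (QT.eq (by ring) (q5 (QT.eq (by ring) (q6 (QT.eq (by ring) (q7 (QT.eq (by ring) (q8 (QT.eq (by ring) (q9 (QT.eq (by ring) (q10 (QT.eq (by ring) (q11 (QT.eq (by ring) (q12 (QT.eq (by ring) (q13 (QT.eq (by ring) (q14 (QT.eq (by ring) (q16 (QT.eq (by ring) (q17 (QT.eq (by ring) (q20 (QT.eq (by ring) (q21 (QT.eq (by ring) (q22 (QT.eq (by ring) (q23 (QT.eq (by ring) h))))))))))))))))))))))))))))))))))))))))), by omega⟩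

theorem mu_83 (G : Good a) : ∃ c, Law a c 83 := by
  obtain ⟨D, hS, hD⟩ := e_27_17 G
  exact mult_of G (K := 7) (k := 5) (o := 121) (A := 514628) (J := 9) (w := 82) hS (by norm_num) (by norm_num) c_M83 (by omega)
    (by decide +kernel) (by norm_num) (by decide +kernel)

theorem x_M89 : bq (xsl 11 7 13) [594, 891, 1782, 2673, 5346, 8019, 16038, 24057, 48114, 72171, 144342, 216513, 433026] = true := by decide +kernel

theorem b_M89 : bq (win 19 11 7 (33 + 2))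
    ([19, 278] ++ ([179, 99] ++ ([80, 19] ++ ([99, 118] ++ ([47, 71] ++ ([52, 19] ++ ([33, 52] ++ ([19, 33] ++ ([14, 19] ++ ([5, 14] ++ ([19, 33] ++ ([24, 9] ++ ([33, 42] ++ ([57, 99] ++ ([52, 47] ++ ([5, 42] ++ ([3] ++ ([39, 2])))))))))))))))))) = true := by decide +kernel

theorem mu_89 (G : Good a) : ∃ c, Law a c 89 := by
  obtain ⟨D, hS, hD⟩ := e_19_11 G
  have p0 := sstart G (K := 7) (k := 13) (o := 33) hS x_M89 b_M89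
  obtain ⟨p1, q1⟩ := sstep G (C := 2 ^ 8 * (2 ^ 12 * D + 1061)) (k := 13) (n := 2) s_M89_0 p0 rfl rfl
  obtain ⟨p2, q2⟩ := sstep G (C := 2 ^ 8 * (2 ^ 12 * D + 1061)) (k := 13) (n := 2) s_M89_1 p1 rfl rfl
  obtain ⟨p3, q3⟩ := sstep G (C := 2 ^ 8 * (2 ^ 12 * D + 1061)) (k := 13) (n := 2) s_M89_2 p2 rfl rfl
  obtain ⟨p4, q4⟩ := sstep G (C := 2 ^ 8 * (2 ^ 12 * D + 1061)) (k := 13) (n := 2) s_M89_3 p3 rfl rfl
  obtain ⟨p5, q5⟩ := sstep G (C := 2 ^ 8 * (2 ^ 12 * D + 1061)) (k := 13) (n := 2) s_M89_4 p4 rfl rfl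
  obtain ⟨p6, q6⟩ := sstep G (C := 2 ^ 8 * (2 ^ 12 * D + 1061)) (k := 13) (n := 2) s_M89_5 p5 rfl rfl
  obtain ⟨p7, q7⟩ := sstep G (C := 2 ^ 8 * (2 ^ 12 * D + 1061)) (k := 13) (n := 2) s_M89_6 p6 rfl rfl
  obtain ⟨p8, q8⟩ := sstep G (C := 2 ^ 8 * (2 ^ 12 * D + 1061)) (k := 13) (n := 2) s_M89_7 p7 rfl rfl
  obtain ⟨p9, q9⟩ := sstep G (C := 2 ^ 8 * (2 ^ 12 * D + 1061)) (k := 13) (n := 2) s_M89_8 p8 rfl rfl
  obtain ⟨p10, q10⟩ := sstep G (C := 2 ^ 8 * (2 ^ 12 * D + 1061)) (k := 13) (n := 2) s_M89_9 p9 rfl rfl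
  obtain ⟨p11, q11⟩ := sstep G (C := 2 ^ 8 * (2 ^ 12 * D + 1061)) (k := 13) (n := 2) s_M89_10 p10 rfl rfl
  obtain ⟨p12, q12⟩ := sstep G (C := 2 ^ 8 * (2 ^ 12 * D + 1061)) (k := 13) (n := 2) s_M89_11 p11 rfl rfl
  obtain ⟨p13, q13⟩ := sstep G (C := 2 ^ 8 * (2 ^ 12 * D + 1061)) (k := 13) (n := 2) s_M89_12 p12 rfl rfl
  obtain ⟨p14, q14⟩ := sstep G (C := 2 ^ 8 * (2 ^ 12 * D + 1061)) (k := 13) (n := 2) s_M89_13 p13 rfl rfl
  obtain ⟨p15, q15⟩ := sstep G (C := 2 ^ 8 * (2 ^ 12 * D + 1061)) (k := 13) (n := 2) s_M89_14 p14 rfl rfl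
  obtain ⟨p16, q16⟩ := sstep G (C := 2 ^ 8 * (2 ^ 12 * D + 1061)) (k := 13) (n := 2) s_M89_15 p15 rfl rfl
  obtain ⟨p17, q17⟩ := sstep G (C := 2 ^ 8 * (2 ^ 12 * D + 1061)) (k := 13) (n := 1) s_M89_16 p16 rfl rfl
  have d1 := desc G (y := 17) rfl p17
  have p18 := tk2 d1
  have d2 := desc G (y := 20) rfl p18
  have p19 := tk2 d2
  have d3 := desc G (y := 7) rfl p19
  obtain ⟨p20, q20⟩ := sstep G (C := 2 ^ 8 * (2 ^ 12 * D + 1061)) (k := 10) (n := 1) s_M89_d3 d3 rfl rfl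
  have d4 := desc G (y := 57) rfl p20
  have p21 := tk2 d4
  have d5 := desc G (y := 88) rfl p21
  obtain ⟨p22, q22⟩ := sstep G (C := 2 ^ 8 * (2 ^ 12 * D + 1061)) (k := 8) (n := 1) s_M89_d5 d5 rfl rfl
  have e : 2 * (2 * (2 * (2 * (2 * (2 ^ 7 * D + 2 + 2 + 2 + 2 + 2 + 2 + 2 + 2 + 2 + 2 + 2 + 2 + 2 + 2 + 2 + 2 + 1))) + 1)) + 1 = 2 ^ 12 * D + 1061 := by ring
  rw [e] at p22
  exact fin_mult G (K := 12) (k := 8) (o := 1061) (A := 119548934) (J := 10) hS (by norm_num) (by omega)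
    (by decide +kernel) (by norm_num) p22
    (fun h => QT.eq (by ring) (q1 (QT.eq (by ring) (q2 (QT.eq (by ring) (q3 (QT.eq (by ring) (q4 (QT.eq (by ring) (q5 (QT.eq (by ring) (q6 (QT.eq (by ring) (q7 (QT.eq (by ring) (q8 (QT.eq (by ring) (q9 (QT.eq (by ring) (q10 (QT.eq (by ring) (q11 (QT.eq (by ring) (q12 (QT.eq (by ring) (q13 (QT.eq (by ring) (q14 (QT.eq (by ring) (q15 (QT.eq (by ring) (q16 (QT.eq (by ring) (q17 (QT.eq (by ring) (q20 (QT.eq (by ring) (q22 (QT.eq (by ring) h)))))))))))))))))))))))))))))))))))))))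

theorem x_S29_5 : bq (xsl 7 5 13) [126, 189, 378, 567, 1134, 1701, 3402, 5103, 10206, 15309, 30618, 45927, 91854] = true := by decide +kernel

theorem b_S29_5 : bq (win 1 7 5 (8 + 2))
    ([1, 62] ++ ([41, 21] ++ ([20, 1] ++ ([21, 22] ++ ([13, 9]))))) = true := by decide +kernel

theorem e_29_5 (G : Good a) : SE a 29 5 := by
  obtain ⟨D, hS, hD⟩ := e_1_7 G
  have p0 := sstart G (K := 5) (k := 13) (o := 8) hS x_S29_5 b_S29_5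
  obtain ⟨p1, q1⟩ := sstep G (C := 2 ^ 4 * (2 ^ 14 * D + 4259)) (k := 13) (n := 2) s_S29_5_0 p0 rfl rfl
  obtain ⟨p2, q2⟩ := sstep G (C := 2 ^ 4 * (2 ^ 14 * D + 4259)) (k := 13) (n := 2) s_S29_5_1 p1 rfl rfl
  obtain ⟨p3, q3⟩ := sstep G (C := 2 ^ 4 * (2 ^ 14 * D + 4259)) (k := 13) (n := 2) s_S29_5_2 p2 rfl rfl
  obtain ⟨p4, q4⟩ := sstep G (C := 2 ^ 4 * (2 ^ 14 * D + 4259)) (k := 13) (n := 2) s_S29_5_3 p3 rfl rfl
  have d1 := desc G (y := 6) rfl p4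
  have p5 := tk2 d1
  have d2 := desc G (y := 9) rfl p5
  obtain ⟨p6, q6⟩ := sstep G (C := 2 ^ 4 * (2 ^ 14 * D + 4259)) (k := 11) (n := 1) s_S29_5_d2 d2 rfl rfl
  have d3 := desc G (y := 11) rfl p6
  have p7 := tk2 d3
  have d4 := desc G (y := 10) rfl p7
  obtain ⟨p8, q8⟩ := sstep G (C := 2 ^ 4 * (2 ^ 14 * D + 4259)) (k := 9) (n := 1) s_S29_5_d4 d4 rfl rfl
  have d5 := desc G (y := 3) rfl p8
  have p9 := tk2 d5
  have d6 := desc G (y := 15) rfl p9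
  have p10 := tk2 d6
  have d7 := desc G (y := 29) rfl p10
  have p11 := tk2 d7
  have d8 := desc G (y := 13) rfl p11
  obtain ⟨p12, q12⟩ := sstep G (C := 2 ^ 4 * (2 ^ 14 * D + 4259)) (k := 5) (n := 1) s_S29_5_d8 d8 rfl rfl
  have d9 := desc G (y := 4) rfl p12
  obtain ⟨p13, q13⟩ := sstep G (C := 2 ^ 4 * (2 ^ 14 * D + 4259)) (k := 4) (n := 1) s_S29_5_d9 d9 rfl rfl
  have e : 2 * (2 * (2 * (2 * (2 * (2 * (2 * (2 * (2 * (2 ^ 5 * D + 2 + 2 + 2 + 2)) + 1)) + 1)))) + 1) + 1 = 2 ^ 14 * D + 4259 := by ring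
  rw [e] at p13
  exact ⟨_, fin_state G (K := 14) (k := 4) (o := 4259) (A := 15570736) (J := 9) hS (by norm_num) (by omega)
    (by decide +kernel) (by norm_num) rfl rfl p13
    (fun h => QT.eq (by ring) (q1 (QT.eq (by ring) (q2 (QT.eq (by ring) (q3 (QT.eq (by ring) (q4 (QT.eq (by ring) (q6 (QT.eq (by ring) (q8 (QT.eq (by ring) (q12 (QT.eq (by ring) (q13 (QT.eq (by ring) h))))))))))))))))), by omega⟩

theorem x_S39_7 : bq (xsl 5 10 13) [1215, 2430, 3645, 7290, 10935, 21870, 32805, 65610, 98415, 196830, 295245, 590490, 885735] = true := by decide +kernel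

theorem b_S39_7 : bq (win 29 5 10 (35 + 2))
    ([29, 781] ++ ([376, 405] ++ ([241, 164] ++ ([135, 29] ++ ([106, 135] ++ ([29, 106] ++ ([135, 241] ++ ([164, 77] ++ ([61, 16] ++ ([103, 119] ++ ([74, 45] ++ ([29, 16] ++ ([45, 61] ++ ([74, 135] ++ ([29, 106] ++ ([45, 61] ++ ([16, 45] ++ ([29] ++ ([16, 13]))))))))))))))))))) = true := by decide +kernel

theorem e_39_7 (G : Good a) : SE a 39 7 := by
  obtain ⟨D, hS, hD⟩ := e_29_5 G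
  have p0 := sstart G (K := 10) (k := 13) (o := 35) hS x_S39_7 b_S39_7
  obtain ⟨p1, q1⟩ := sstep G (C := 2 ^ 5 * (2 ^ 18 * D + 9191)) (k := 13) (n := 2) s_S39_7_0 p0 rfl rfl
  obtain ⟨p2, q2⟩ := sstep G (C := 2 ^ 5 * (2 ^ 18 * D + 9191)) (k := 13) (n := 2) s_S39_7_1 p1 rfl rfl
  obtain ⟨p3, q3⟩ := sstep G (C := 2 ^ 5 * (2 ^ 18 * D + 9191)) (k := 13) (n := 2) s_S39_7_2 p2 rfl rfl
  obtain ⟨p4, q4⟩ := sstep G (C := 2 ^ 5 * (2 ^ 18 * D + 9191)) (k := 13) (n := 2) s_S39_7_3 p3 rfl rfl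
  obtain ⟨p5, q5⟩ := sstep G (C := 2 ^ 5 * (2 ^ 18 * D + 9191)) (k := 13) (n := 2) s_S39_7_4 p4 rfl rfl
  obtain ⟨p6, q6⟩ := sstep G (C := 2 ^ 5 * (2 ^ 18 * D + 9191)) (k := 13) (n := 2) s_S39_7_5 p5 rfl rfl
  obtain ⟨p7, q7⟩ := sstep G (C := 2 ^ 5 * (2 ^ 18 * D + 9191)) (k := 13) (n := 2) s_S39_7_6 p6 rfl rfl
  obtain ⟨p8, q8⟩ := sstep G (C := 2 ^ 5 * (2 ^ 18 * D + 9191)) (k := 13) (n := 2) s_S39_7_7 p7 rfl rfl
  obtain ⟨p9, q9⟩ := sstep G (C := 2 ^ 5 * (2 ^ 18 * D + 9191)) (k := 13) (n := 2) s_S39_7_8 p8 rfl rfl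
  obtain ⟨p10, q10⟩ := sstep G (C := 2 ^ 5 * (2 ^ 18 * D + 9191)) (k := 13) (n := 2) s_S39_7_9 p9 rfl rfl
  obtain ⟨p11, q11⟩ := sstep G (C := 2 ^ 5 * (2 ^ 18 * D + 9191)) (k := 13) (n := 2) s_S39_7_10 p10 rfl rfl
  obtain ⟨p12, q12⟩ := sstep G (C := 2 ^ 5 * (2 ^ 18 * D + 9191)) (k := 13) (n := 2) s_S39_7_11 p11 rfl rfl
  obtain ⟨p13, q13⟩ := sstep G (C := 2 ^ 5 * (2 ^ 18 * D + 9191)) (k := 13) (n := 2) s_S39_7_12 p12 rfl rfl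
  obtain ⟨p14, q14⟩ := sstep G (C := 2 ^ 5 * (2 ^ 18 * D + 9191)) (k := 13) (n := 2) s_S39_7_13 p13 rfl rfl
  obtain ⟨p15, q15⟩ := sstep G (C := 2 ^ 5 * (2 ^ 18 * D + 9191)) (k := 13) (n := 2) s_S39_7_14 p14 rfl rfl
  obtain ⟨p16, q16⟩ := sstep G (C := 2 ^ 5 * (2 ^ 18 * D + 9191)) (k := 13) (n := 2) s_S39_7_15 p15 rfl rfl
  obtain ⟨p17, q17⟩ := sstep G (C := 2 ^ 5 * (2 ^ 18 * D + 9191)) (k := 13) (n := 2) s_S39_7_16 p16 rfl rfl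
  obtain ⟨p18, q18⟩ := sstep G (C := 2 ^ 5 * (2 ^ 18 * D + 9191)) (k := 13) (n := 1) s_S39_7_17 p17 rfl rfl
  have d1 := desc G (y := 23) rfl p18
  obtain ⟨p19, q19⟩ := sstep G (C := 2 ^ 5 * (2 ^ 18 * D + 9191)) (k := 12) (n := 1) s_S39_7_d1 d1 rfl rfl
  have d2 := desc G (y := 40) rfl p19
  obtain ⟨p20, q20⟩ := sstep G (C := 2 ^ 5 * (2 ^ 18 * D + 9191)) (k := 11) (n := 1) s_S39_7_d2 d2 rfl rfl
  have d3 := desc G (y := 5) rfl p20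
  obtain ⟨p21, q21⟩ := sstep G (C := 2 ^ 5 * (2 ^ 18 * D + 9191)) (k := 10) (n := 1) s_S39_7_d3 d3 rfl rfl
  have d4 := desc G (y := 6) rfl p21
  have p22 := tk2 d4
  have d5 := desc G (y := 39) rfl p22
  have p23 := tk2 d5
  have d6 := desc G (y := 8) rfl p23
  obtain ⟨p24, q24⟩ := sstep G (C := 2 ^ 5 * (2 ^ 18 * D + 9191)) (k := 7) (n := 1) s_S39_7_d6 d6 rfl rfl
  have d7 := desc G (y := 1) rfl p24
  obtain ⟨p25, q25⟩ := sstep G (C := 2 ^ 5 * (2 ^ 18 * D + 9191)) (k := 6) (n := 1) s_S39_7_d7 d7 rfl rfl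
  have d8 := desc G (y := 6) rfl p25
  obtain ⟨p26, q26⟩ := sstep G (C := 2 ^ 5 * (2 ^ 18 * D + 9191)) (k := 5) (n := 1) s_S39_7_d8 d8 rfl rfl
  have e : 2 * (2 * (2 * (2 * (2 * (2 * (2 * (2 * (2 ^ 10 * D + 2 + 2 + 2 + 2 + 2 + 2 + 2 + 2 + 2 + 2 + 2 + 2 + 2 + 2 + 2 + 2 + 2 + 1) + 1) + 1) + 1))) + 1) + 1) + 1 = 2 ^ 18 * D + 9191 := by ring
  rw [e] at p26
  exact ⟨_, fin_state G (K := 18) (k := 5) (o := 9191) (A := 289549653) (J := 11) hS (by norm_num) (by omega)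
    (by decide +kernel) (by norm_num) rfl rfl p26
    (fun h => QT.eq (by ring) (q1 (QT.eq (by ring) (q2 (QT.eq (by ring) (q3 (QT.eq (by ring) (q4 (QT.eq (by ring) (q5 (QT.eq (by ring) (q6 (QT.eq (by ring) (q7 (QT.eq (by ring) (q8 (QT.eq (by ring) (q9 (QT.eq (by ring) (q10 (QT.eq (by ring) (q11 (QT.eq (by ring) (q12 (QT.eq (by ring) (q13 (QT.eq (by ring) (q14 (QT.eq (by ring) (q15 (QT.eq (by ring) (q16 (QT.eq (by ring) (q17 (QT.eq (by ring) (q18 (QT.eq (by ring) (q19 (QT.eq (by ring) (q20 (QT.eq (by ring) (q21 (QT.eq (by ring) (q24 (QT.eq (by ring) (q25 (QT.eq (by ring) (q26 (QT.eq (by ring) h))))))))))))))))))))))))))))))))))))))))))))))))), by omega⟩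

theorem x_M97 : bq (xsl 7 5 13) [126, 189, 378, 567, 1134, 1701, 3402, 5103, 10206, 15309, 30618, 45927, 91854] = true := by decide +kernel

theorem b_M97 : bq (win 39 7 5 (25 + 2))
    ([39, 24] ++ ([3, 21] ++ ([60, 81] ++ ([63, 18] ++ ([53, 71] ++ ([10, 61] ++ ([7, 54] ++ ([3, 51] ++ ([46, 5] ++ ([49, 54] ++ ([53, 1] ++ ([102, 103] ++ ([7] ++ ([96, 95])))))))))))))) = true := by decide +kernel

theorem mu_97 (G : Good a) : ∃ c, Law a c 97 := by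
  obtain ⟨D, hS, hD⟩ := e_39_7 G
  have p0 := sstart G (K := 5) (k := 13) (o := 25) hS x_M97 b_M97
  obtain ⟨p1, q1⟩ := sstep G (C := 2 ^ 13 * (2 ^ 5 * D + 25)) (k := 13) (n := 2) s_M97_0 p0 rfl rfl
  obtain ⟨p2, q2⟩ := sstep G (C := 2 ^ 13 * (2 ^ 5 * D + 25)) (k := 13) (n := 2) s_M97_1 p1 rfl rfl
  obtain ⟨p3, q3⟩ := sstep G (C := 2 ^ 13 * (2 ^ 5 * D + 25)) (k := 13) (n := 2) s_M97_2 p2 rfl rfl
  obtain ⟨p4, q4⟩ := sstep G (C := 2 ^ 13 * (2 ^ 5 * D + 25)) (k := 13) (n := 2) s_M97_3 p3 rfl rfl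
  obtain ⟨p5, q5⟩ := sstep G (C := 2 ^ 13 * (2 ^ 5 * D + 25)) (k := 13) (n := 2) s_M97_4 p4 rfl rfl
  obtain ⟨p6, q6⟩ := sstep G (C := 2 ^ 13 * (2 ^ 5 * D + 25)) (k := 13) (n := 2) s_M97_5 p5 rfl rfl
  obtain ⟨p7, q7⟩ := sstep G (C := 2 ^ 13 * (2 ^ 5 * D + 25)) (k := 13) (n := 2) s_M97_6 p6 rfl rfl
  obtain ⟨p8, q8⟩ := sstep G (C := 2 ^ 13 * (2 ^ 5 * D + 25)) (k := 13) (n := 2) s_M97_7 p7 rfl rfl
  obtain ⟨p9, q9⟩ := sstep G (C := 2 ^ 13 * (2 ^ 5 * D + 25)) (k := 13) (n := 2) s_M97_8 p8 rfl rfl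
  obtain ⟨p10, q10⟩ := sstep G (C := 2 ^ 13 * (2 ^ 5 * D + 25)) (k := 13) (n := 2) s_M97_9 p9 rfl rfl
  obtain ⟨p11, q11⟩ := sstep G (C := 2 ^ 13 * (2 ^ 5 * D + 25)) (k := 13) (n := 2) s_M97_10 p10 rfl rfl
  obtain ⟨p12, q12⟩ := sstep G (C := 2 ^ 13 * (2 ^ 5 * D + 25)) (k := 13) (n := 2) s_M97_11 p11 rfl rfl
  obtain ⟨p13, q13⟩ := sstep G (C := 2 ^ 13 * (2 ^ 5 * D + 25)) (k := 13) (n := 1) s_M97_12 p12 rfl rfl
  have e : 2 ^ 5 * D + 2 + 2 + 2 + 2 + 2 + 2 + 2 + 2 + 2 + 2 + 2 + 2 + 1 = 2 ^ 5 * D + 25 := by ring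
  rw [e] at p13
  exact fin_mult G (K := 5) (k := 13) (o := 25) (A := 68007214) (J := 10) hS (by norm_num) (by omega)
    (by decide +kernel) (by norm_num) p13
    (fun h => QT.eq (by ring) (q1 (QT.eq (by ring) (q2 (QT.eq (by ring) (q3 (QT.eq (by ring) (q4 (QT.eq (by ring) (q5 (QT.eq (by ring) (q6 (QT.eq (by ring) (q7 (QT.eq (by ring) (q8 (QT.eq (by ring) (q9 (QT.eq (by ring) (q10 (QT.eq (by ring) (q11 (QT.eq (by ring) (q12 (QT.eq (by ring) (q13 (QT.eq (by ring) h)))))))))))))))))))))))))))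

end Pool.Agent.SeqDil
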