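import Mathlib

namespace Pool.Agent.SeqDil

/-- one step of the recursion -/
def stp (x v : ℕ) : ℕ := cond (Nat.ble x v) (x + v) (x - v)

theorem stp_le {x v : ℕ} (h : x ≤ v) : stp x v = x + v := by
  unfold stp
  rw [Nat.ble_eq_true_of_le h]; rfl

theorem stp_gt {x v : ℕ} (h : v < x) : stp x v = x - v := by
  unfold stp
  have : Nat.ble x v = false := by
    rw [← Bool.not_eq_true]
    intro h2
    exact absurd (Nat.le_of_ble_eq_true h2) (by omega)
  rw [this]; rfl

structure Good (a : ℕ → ℕ) : Prop where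
  one : a 1 = 1
  even : ∀ n, 1 ≤ n → a (2 * n) = a n
  odd : ∀ n, 1 ≤ n → a (2 * n + 1) = stp (a (2 * n - 1)) (a n)

section
variable {a : ℕ → ℕ} (G : Good a)
include G

theorem pos : ∀ n, 1 ≤ n → 1 ≤ a n := by
  intro n
  induction n using Nat.strong_induction_on with
  | _ n ih =>
    intro hn
    rcases Nat.even_or_odd' n with ⟨m, rfl | rfl⟩
    · rw [G.even m (by omega)]
      exact ih m (by omega) (by omega)
    · rcases Nat.eq_zero_or_pos m with rfl | hm
      · rw [Nat.mul_zero, Nat.zero_add, G.one]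
      · rw [G.odd m hm]
        have h1 := ih (2 * m - 1) (by omega) (by omega)
        have h2 := ih m (by omega) (by omega)
        rcases Nat.lt_or_ge (a m) (a (2 * m - 1)) with h | h
        · rw [stp_gt h]; omega
        · rw [stp_le h]; omega

theorem par : ∀ n, 1 ≤ n → (a n % 2 = 0 ↔ n % 3 = 0) := by
  intro n
  induction n using Nat.strong_induction_on with
  | _ n ih =>
    intro hn
    rcases Nat.even_or_odd' n with ⟨m, rfl | rfl⟩
    · rw [G.even m (by omega), ih m (by omega) (by omega)]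
      omega
    · rcases Nat.eq_zero_or_pos m with rfl | hm
      · rw [Nat.mul_zero, Nat.zero_add, G.one]
      · rw [G.odd m hm]
        have h1 := ih (2 * m - 1) (by omega) (by omega)
        have h2 := ih m (by omega) (by omega)
        have key : (a (2 * m - 1) + a m) % 2 = 0 ↔ (2 * m + 1) % 3 = 0 := by
          rcases (by omega : m % 3 = 0 ∨ m % 3 = 1 ∨ m % 3 = 2) with h | h | h
          · have e1 : ¬ (2 * m - 1) % 3 = 0 := by omega
            have e2 := h2.mpr h
            have e3 : ¬ a (2 * m - 1) % 2 = 0 := fun hh => e1 (h1.mp hh)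
            constructor <;> intro <;> omega
          · have e1 : ¬ (2 * m - 1) % 3 = 0 := by omega
            have e2 : ¬ a m % 2 = 0 := fun hh => by have := h2.mp hh; omega
            have e3 : ¬ a (2 * m - 1) % 2 = 0 := fun hh => e1 (h1.mp hh)
            constructor <;> intro <;> omega
          · have e1 : (2 * m - 1) % 3 = 0 := by omega
            have e2 : ¬ a m % 2 = 0 := fun hh => by have := h2.mp hh; omega
            have e3 := h1.mpr e1
            constructor <;> intro <;> omega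
        rcases Nat.lt_or_ge (a m) (a (2 * m - 1)) with h | h
        · rw [stp_gt h, ← key]
          constructor <;> intro <;> omega
        · rw [stp_le h, ← key]

end

/-- `T a C i = 2 + a (C-1) + ... + a (C-i)` -/
def T (a : ℕ → ℕ) (C : ℕ) : ℕ → ℕ
  | 0 => 2
  | i + 1 => T a C i + a (C - (i + 1))

def Q (a : ℕ → ℕ) (C R : ℕ) : Prop := ∀ i, i < R → 2 * a (C - (i + 1)) ≤ T a C i

section
variable {a : ℕ → ℕ} (G : Good a)
include G

theorem funnel {C R : ℕ} (hR : R < C) (hQ : Q a C R)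
    (hin : a (2 * (C - R) - 1) ≤ T a C R) :
    ∀ d i, i + d = R → a (2 * (C - i) - 1) ≤ T a C i := by
  intro d
  induction d with
  | zero =>
    intro i hi
    have : i = R := by omega
    subst this
    exact hin
  | succ d ih =>
    intro i hi
    have h1 := ih (i + 1) (by omega)
    have h2 := hQ i (by omega)
    have e1 : 2 * (C - i) - 1 = 2 * (C - (i + 1)) + 1 := by omega
    rw [e1, G.odd _ (by omega)]
    have e2 : T a C (i + 1) = T a C i + a (C - (i + 1)) := rfl
    rw [e2] at h1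
    rcases Nat.lt_or_ge (a (C - (i + 1))) (a (2 * (C - (i + 1)) - 1)) with h | h
    · rw [stp_gt h]; omega
    · rw [stp_le h]; omega

/-- partial sums of the odd entries one level up -/
def U (a : ℕ → ℕ) (C : ℕ) : ℕ → ℕ
  | 0 => 0
  | j + 1 => U a C j + a (2 * (C - (j + 1)) + 1)

omit G in
theorem T_double (he : ∀ n, 1 ≤ n → a (2 * n) = a n) {C : ℕ} :
    ∀ j, j < C → T a (2 * C) (2 * j) = T a C j + U a C j := by
  intro j
  induction j with
  | zero => intro _; rfl
  | succ j ih =>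
    intro hj
    have h := ih (by omega)
    have e : 2 * (j + 1) = 2 * j + 1 + 1 := by ring
    rw [e]
    show T a (2 * C) (2 * j) + a (2 * C - (2 * j + 1)) + a (2 * C - (2 * j + 1 + 1)) =
      T a C j + a (C - (j + 1)) + (U a C j + a (2 * (C - (j + 1)) + 1))
    have e1 : 2 * C - (2 * j + 1) = 2 * (C - (j + 1)) + 1 := by omega
    have e2 : 2 * C - (2 * j + 1 + 1) = 2 * (C - (j + 1)) := by omega
    rw [e1, e2, he _ (by omega), h]
    ring

theorem u_one {C R : ℕ} (hR : R < C) (h3 : C % 3 = 0) (hQ : Q a C R)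
    (hin : a (2 * (C - R) - 1) ≤ T a C R) : a (2 * C - 1) = 1 := by
  have h := funnel G hR hQ hin R 0 (by omega)
  have h' : a (2 * C - 1) ≤ 2 := by simpa [T] using h
  have hp := pos G (2 * C - 1) (by omega)
  have hq := par G (2 * C - 1) (by omega)
  omega

theorem P_all {C R : ℕ} (hR : R < C) (h3 : C % 3 = 0) (hQ : Q a C R)
    (hin : a (2 * (C - R) - 1) ≤ T a C R) :
    ∀ j, j < R → 2 * a (2 * (C - (j + 1)) + 1) ≤ T a C j + U a C j := by
  intro j
  induction j with
  | zero =>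
    intro _
    have h := u_one G hR h3 hQ hin
    have e : 2 * (C - (0 + 1)) + 1 = 2 * C - 1 := by omega
    rw [e, h]
    simp [T, U]
  | succ j ih =>
    intro hj
    have h := ih (by omega)
    have hq := hQ j (by omega)
    have e : 2 * (C - (j + 1 + 1)) + 1 = 2 * (C - (j + 1)) - 1 := by omega
    rw [e]
    show 2 * a (2 * (C - (j + 1)) - 1) ≤
      T a C j + a (C - (j + 1)) + (U a C j + a (2 * (C - (j + 1)) + 1))
    have ho := G.odd (C - (j + 1)) (by omega)
    rcases Nat.lt_or_ge (a (C - (j + 1))) (a (2 * (C - (j + 1)) - 1)) with h' | h'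
    · rw [stp_gt h'] at ho; omega
    · omega

theorem Q_double {C R : ℕ} (hR : R < C) (h3 : C % 3 = 0) (hQ : Q a C R)
    (hin : a (2 * (C - R) - 1) ≤ T a C R) : Q a (2 * C) (2 * R) := by
  intro i hi
  rcases Nat.even_or_odd' i with ⟨j, rfl | rfl⟩
  · rw [T_double G.even j (by omega)]
    have e : 2 * C - (2 * j + 1) = 2 * (C - (j + 1)) + 1 := by omega
    rw [e]
    exact P_all G hR h3 hQ hin j (by omega)
  · have e : 2 * C - (2 * j + 1 + 1) = 2 * (C - (j + 1)) := by omega
    rw [e, G.even _ (by omega)]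
    have h := hQ j (by omega)
    have e3 : T a (2 * C) (2 * j + 1) = T a (2 * C) (2 * j) + a (2 * C - (2 * j + 1)) := rfl
    rw [e3, T_double G.even j (by omega)]
    omega

theorem U_ge {C : ℕ} : ∀ j, j < C → j ≤ U a C j := by
  intro j
  induction j with
  | zero => intro _; exact Nat.zero_le _
  | succ j ih =>
    intro hj
    have h := ih (by omega)
    have hp := pos G (2 * (C - (j + 1)) + 1) (by omega)
    show j + 1 ≤ U a C j + a (2 * (C - (j + 1)) + 1)
    omega

/-- state of the induction at level `k` -/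
def E (a : ℕ → ℕ) (C R k : ℕ) : Prop :=
  Q a (2 ^ k * C) (2 ^ k * R) ∧ T a C R + R * (2 ^ k - 1) ≤ T a (2 ^ k * C) (2 ^ k * R)

omit G in
theorem E_zero {C R : ℕ} (hQ : Q a C R) : E a C R 0 := by
  unfold E
  simpa using hQ

theorem E_step {C R k : ℕ} (hR : R < C) (h3 : C % 3 = 0) (hE : E a C R k)
    (hin : a (2 ^ (k + 1) * (C - R) - 1) ≤ T a C R + R * (2 ^ k - 1)) :
    E a C R (k + 1) ∧ a (2 ^ (k + 1) * C - 1) = 1 := by
  obtain ⟨hQ, hT⟩ := hE
  have hk : 0 < 2 ^ k := by positivity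
  have hR' : 2 ^ k * R < 2 ^ k * C := Nat.mul_lt_mul_of_pos_left hR hk
  have h3' : (2 ^ k * C) % 3 = 0 := by
    have : 3 ∣ 2 ^ k * C := Dvd.dvd.mul_left (Nat.dvd_of_mod_eq_zero h3) _
    omega
  have e1 : 2 * (2 ^ k * C - 2 ^ k * R) - 1 = 2 ^ (k + 1) * (C - R) - 1 := by
    rw [← Nat.mul_sub, pow_succ, ← Nat.mul_assoc, Nat.mul_comm (2 ^ k) 2]
  have hin' : a (2 * (2 ^ k * C - 2 ^ k * R) - 1) ≤ T a (2 ^ k * C) (2 ^ k * R) := by
    rw [e1]; exact le_trans hin hT
  have e2 : 2 ^ (k + 1) * C = 2 * (2 ^ k * C) := by ring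
  have e3 : 2 ^ (k + 1) * R = 2 * (2 ^ k * R) := by ring
  refine ⟨⟨?_, ?_⟩, ?_⟩
  · rw [e2, e3]
    exact Q_double G hR' h3' hQ hin'
  · rw [e2, e3, T_double G.even _ hR']
    have h := U_ge G (C := 2 ^ k * C) _ hR'
    have e4 : R * (2 ^ (k + 1) - 1) = R * (2 ^ k - 1) + 2 ^ k * R := by
      obtain ⟨q, hq⟩ : ∃ q, 2 ^ k = q + 1 := ⟨2 ^ k - 1, by omega⟩
      have : 2 ^ (k + 1) - 1 = (2 ^ k - 1) + 2 ^ k := by rw [pow_succ]; omega
      rw [this]; ring
    omega
  · rw [e2]
    exact u_one G hR' h3' hQ hin'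

/-- dilation law up to level `K` -/
theorem law_upto {C K : ℕ} (hC : 1 ≤ C)
    (hu : ∀ k, 1 ≤ k → k ≤ K → a (2 ^ k * C - 1) = 1) :
    ∀ k, k ≤ K → ∀ i, 1 ≤ i → i < 2 ^ k → a (2 ^ k * C + i) = (a C + 1) * a i := by
  have hev : ∀ k, a (2 ^ k * C) = a C := by
    intro k
    induction k with
    | zero => simp
    | succ k ih =>
      have e : 2 ^ (k + 1) * C = 2 * (2 ^ k * C) := by ring
      have : 1 ≤ 2 ^ k * C := Nat.mul_pos (by positivity) hC
      rw [e, G.even _ this, ih]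
  intro k
  induction k with
  | zero => intro _ i h1 h2; simp at h2; omega
  | succ k ih =>
    intro hk i
    have ihk := ih (by omega)
    have hpk : 1 ≤ 2 ^ k * C := Nat.mul_pos (by positivity) hC
    have e : 2 ^ (k + 1) * C = 2 * (2 ^ k * C) := by ring
    have hu' := hu (k + 1) (by omega) hk
    induction i using Nat.strong_induction_on with
    | _ i ihi =>
      intro h1 h2
      rw [pow_succ] at h2
      rcases Nat.even_or_odd' i with ⟨j, rfl | rfl⟩
      · rw [e, ← Nat.mul_add, G.even _ (by omega), G.even j (by omega)]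
        exact ihk j (by omega) (by omega)
      · rcases Nat.eq_zero_or_pos j with rfl | hj
        · rw [Nat.mul_zero, Nat.zero_add, G.one, e, G.odd _ hpk, ← e, hu', hev]
          have := pos G C hC
          rw [stp_le this]; ring
        · have e5 : 2 ^ (k + 1) * C + (2 * j + 1) = 2 * (2 ^ k * C + j) + 1 := by rw [e]; ring
          have e6 : 2 * (2 ^ k * C + j) - 1 = 2 ^ (k + 1) * C + (2 * j - 1) := by
            rw [e]; omega
          rw [e5, G.odd _ (by omega), e6, ihk j hj (by omega),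
            ihi (2 * j - 1) (by omega) (by omega) (by rw [pow_succ]; omega), G.odd j hj]
          have hs : 0 < a C + 1 := by omega
          rcases Nat.lt_or_ge (a j) (a (2 * j - 1)) with h | h
          · rw [stp_gt h, stp_gt (Nat.mul_lt_mul_of_pos_left h hs), Nat.mul_sub]
          · rw [stp_le h, stp_le (Nat.mul_le_mul_left _ h), Nat.mul_add]

end

section
variable {a : ℕ → ℕ} (G : Good a)
include G

/-! ### the multiplier three -/

theorem a_three : a 3 = 2 := by
  have h : a 3 = stp (a 1) (a 1) := G.odd 1 (le_refl 1)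
  rw [G.one, stp_le (le_refl 1)] at h
  exact h

theorem m_rec {K : ℕ}
    (hu : ∀ k, 1 ≤ k → k ≤ K → a (2 ^ k * 3 - 1) = 1) :
    ∀ k, 1 ≤ k → k ≤ K → a (2 ^ (k + 2) - 1) = 3 * a (2 ^ k - 1) := by
  intro k h1 hk
  have h := law_upto G (C := 3) (by norm_num) hu k hk (2 ^ k - 1)
  have h2 : 2 ≤ 2 ^ k := by
    calc 2 = 2 ^ 1 := by norm_num
      _ ≤ 2 ^ k := Nat.pow_le_pow_right (by norm_num) h1
  have a3 : a 3 = 2 := a_three G
  have e : 2 ^ (k + 2) - 1 = 2 ^ k * 3 + (2 ^ k - 1) := by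
    rw [pow_add]; omega
  rw [e, h (by omega) (by omega), a3]

theorem m_bound {K : ℕ}
    (hu : ∀ k, 1 ≤ k → k ≤ K → a (2 ^ k * 3 - 1) = 1) :
    ∀ k, k ≤ K → a (2 ^ (k + 2) - 1) ≤ 2 ^ k + 2 := by
  intro k
  induction k using Nat.strong_induction_on with
  | _ k ih =>
    intro hk
    have a3 : a 3 = 2 := a_three G
    match k with
    | 0 => simp [a3]
    | 1 =>
      rw [m_rec G hu 1 (le_refl 1) hk]
      simp [G.one]
    | 2 =>
      rw [m_rec G hu 2 (by norm_num) hk]
      simp [a3]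
    | 3 =>
      rw [m_rec G hu 3 (by norm_num) hk]
      rw [show (2 : ℕ) ^ 3 - 1 = 2 ^ (1 + 2) - 1 by norm_num,
        m_rec G hu 1 (by norm_num) (by omega)]
      simp [G.one]
    | k + 4 =>
      rw [m_rec G hu (k + 4) (by omega) hk]
      have h := ih (k + 2) (by omega) (by omega)
      have e3 : 2 ^ (k + 2) = 4 * 2 ^ k := by rw [pow_add]; ring
      have e5 : 2 ^ (k + 4) = 16 * 2 ^ k := by rw [pow_add]; ring
      have h' : a (2 ^ (k + 4) - 1) ≤ 2 ^ (k + 2) + 2 := h
      have hp : 1 ≤ 2 ^ k := Nat.one_le_two_pow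
      generalize a (2 ^ (k + 4) - 1) = X at *
      omega

theorem three_ind : ∀ K, E a 3 1 K ∧ ∀ k, 1 ≤ k → k ≤ K → a (2 ^ k * 3 - 1) = 1 := by
  intro K
  induction K with
  | zero =>
    refine ⟨E_zero ?_, fun k h1 h2 => by omega⟩
    intro i hi
    have hi0 : i = 0 := by omega
    subst hi0
    have : a 2 = 1 := by
      have := G.even 1 (le_refl 1)
      rw [G.one] at this
      simpa using this
    simp [T, this]
  | succ K ih =>
    obtain ⟨hE, hu⟩ := ih
    have hb := m_bound G hu K (le_refl K)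
    have a2 : a 2 = 1 := by
      have := G.even 1 (le_refl 1)
      rw [G.one] at this
      simpa using this
    have hT : T a 3 1 = 3 := by simp [T, a2]
    have hp : 1 ≤ 2 ^ K := Nat.one_le_two_pow
    have hin : a (2 ^ (K + 1) * (3 - 1) - 1) ≤ T a 3 1 + 1 * (2 ^ K - 1) := by
      have e : 2 ^ (K + 1) * (3 - 1) = 2 ^ (K + 2) := by
        rw [pow_succ 2 (K + 1)]
      rw [e, hT]; omega
    obtain ⟨h1, h2⟩ := E_step G (by norm_num) (by norm_num) hE hin
    refine ⟨h1, fun k hk hk' => ?_⟩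
    rcases Nat.lt_or_ge K k with h | h
    · have : k = K + 1 := by omega
      rw [this]; exact h2
    · exact hu k hk h

theorem m_rec' : ∀ k, 1 ≤ k → a (2 ^ (k + 2) - 1) = 3 * a (2 ^ k - 1) :=
  fun k hk => m_rec G (three_ind G k).2 k hk (le_refl k)

end

/-- value at `2 ^ k - 1` -/
def mm : ℕ → ℕ
  | 0 => 0
  | 1 => 1
  | 2 => 2
  | k + 3 => 3 * mm (k + 1)

section
variable {a : ℕ → ℕ} (G : Good a)
include G

theorem mm_eq : ∀ k, 1 ≤ k → a (2 ^ k - 1) = mm k := by
  intro k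
  induction k using Nat.strong_induction_on with
  | _ k ih =>
    intro hk
    match k with
    | 0 => omega
    | 1 => simpa [mm] using G.one
    | 2 => simpa [mm] using a_three G
    | k + 3 =>
      have h := m_rec' G (k + 1) (by omega)
      have e : k + 3 = k + 1 + 2 := by omega
      rw [e, h, ih (k + 1) (by omega) (by omega)]
      rfl

end

/-- `c` is a center with multiplier `s` -/
def Law (a : ℕ → ℕ) (c s : ℕ) : Prop :=
  ∀ k i, 1 ≤ i → i < 2 ^ k → a (c * 2 ^ k + i) = s * a i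

theorem Law.comp {a : ℕ → ℕ} {c d s t : ℕ} (h1 : Law a c s) (h2 : Law a d t) :
    ∃ e, Law a e (s * t) := by
  obtain ⟨J, hJ⟩ : ∃ J, d < 2 ^ J := ⟨d, Nat.lt_two_pow_self⟩
  refine ⟨c * 2 ^ J + d, fun k i hi hik => ?_⟩
  have e1 : (c * 2 ^ J + d) * 2 ^ k + i = c * 2 ^ (J + k) + (d * 2 ^ k + i) := by
    rw [pow_add]; ring
  have hlt : d * 2 ^ k + i < 2 ^ (J + k) := by
    have : (d + 1) * 2 ^ k ≤ 2 ^ J * 2 ^ k := Nat.mul_le_mul_right _ hJ
    rw [pow_add]
    have e3 : (d + 1) * 2 ^ k = d * 2 ^ k + 2 ^ k := by ring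
    omega
  rw [e1, h1 (J + k) (d * 2 ^ k + i) (by omega) hlt, h2 k i hi hik, Nat.mul_assoc]

section
variable {a : ℕ → ℕ} (G : Good a)
include G

theorem law_three : Law a 3 3 := by
  intro k i h1 h2
  have a3 : a 3 = 2 := by
    have := mm_eq G 2 (by norm_num)
    simpa [mm] using this
  have h := law_upto G (C := 3) (by norm_num) (three_ind G k).2 k (le_refl k) i h1 h2
  rw [Nat.mul_comm 3, h, a3]

/-- general lock criterion -/
theorem lock {C t : ℕ} {A : ℕ} (ht : 2 ^ t < C) (h3 : C % 3 = 0) (hQ : Q a C (C - 2 ^ t))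
    (hT : T a C (C - 2 ^ t) = A)
    (hin : ∀ k, mm (k + 1 + t) ≤ A + (C - 2 ^ t) * (2 ^ k - 1)) :
    Law a C (a C + 1) := by
  have hpt : 1 ≤ 2 ^ t := Nat.one_le_two_pow
  have main : ∀ K, E a C (C - 2 ^ t) K ∧ ∀ k, 1 ≤ k → k ≤ K → a (2 ^ k * C - 1) = 1 := by
    intro K
    induction K with
    | zero => exact ⟨E_zero hQ, fun k h1 h2 => by omega⟩
    | succ K ih =>
      obtain ⟨hE, hu⟩ := ih
      have e : 2 ^ (K + 1) * (C - (C - 2 ^ t)) - 1 = 2 ^ (K + 1 + t) - 1 := by
        have : C - (C - 2 ^ t) = 2 ^ t := by omega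
        rw [this, ← pow_add]
      have hin' : a (2 ^ (K + 1) * (C - (C - 2 ^ t)) - 1) ≤
          T a C (C - 2 ^ t) + (C - 2 ^ t) * (2 ^ K - 1) := by
        rw [e, mm_eq G _ (by omega), hT]
        exact hin K
      obtain ⟨h1, h2⟩ := E_step G (by omega) h3 hE hin'
      refine ⟨h1, fun k hk hk' => ?_⟩
      rcases Nat.lt_or_ge K k with h | h
      · have : k = K + 1 := by omega
        rw [this]; exact h2
      · exact hu k hk h
  intro k i h1 h2
  have h := law_upto G (C := C) (by omega) (main k).2 k (le_refl k) i h1 h2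
  rw [Nat.mul_comm C, h]

end

/-! ### certificates -/

/-- `a` takes the values `L` from position `p` on -/
def Rep (a : ℕ → ℕ) : ℕ → List ℕ → Prop
  | _, [] => True
  | p, v :: vs => a p = v ∧ Rep a (p + 1) vs

def nxt : ℕ → List ℕ → List ℕ
  | _, [] => []
  | x, v :: vs => v :: stp x v :: nxt (stp x v) vs

theorem Rep.take {a : ℕ → ℕ} : ∀ (L : List ℕ) (p n : ℕ), Rep a p L → Rep a p (L.take n)
  | [], _, n, _ => by cases n <;> simp [Rep]
  | v :: vs, p, 0, _ => by simp [Rep]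
  | v :: vs, p, n + 1, h => by
    rw [List.take_succ_cons]
    exact ⟨h.1, Rep.take vs (p + 1) n h.2⟩

theorem Rep.nxt {a : ℕ → ℕ} (G : Good a) : ∀ (L : List ℕ) (p x : ℕ), 1 ≤ p →
    a (2 * p - 1) = x → Rep a p L → Rep a (2 * p) (nxt x L)
  | [], _, _, _, _, _ => trivial
  | v :: vs, p, x, hp, hx, h => by
    have ho := G.odd p hp
    rw [hx, h.1] at ho
    refine ⟨by rw [G.even p hp]; exact h.1, ho, ?_⟩
    have e : 2 * p + 1 + 1 = 2 * (p + 1) := by ring
    rw [e]
    refine Rep.nxt G vs (p + 1) _ (by omega) ?_ h.2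
    have e2 : 2 * (p + 1) - 1 = 2 * p + 1 := by omega
    rw [e2]; exact ho

/-- `D` has value `u` and incoming data `m * mm` -/
def St (a : ℕ → ℕ) (D u m : ℕ) : Prop :=
  1 ≤ D ∧ a D = u ∧ ∀ k, 1 ≤ k → a (2 ^ k * D - 1) = m * mm k

theorem St.root {a : ℕ → ℕ} (G : Good a) : St a 1 1 1 :=
  ⟨le_refl 1, G.one, fun k hk => by rw [Nat.mul_one, Nat.one_mul]; exact mm_eq G k hk⟩

/-- window of length `n` at level `t` after a center with data `(u, m)` -/
def win (u m : ℕ) : ℕ → ℕ → List ℕ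
  | 0, n => List.take n [u]
  | t + 1, n => (nxt (m * mm (t + 1)) (win u m t ((n + 1) / 2))).take n

theorem win_rep {a : ℕ → ℕ} (G : Good a) {D u m : ℕ} (hS : St a D u m) :
    ∀ t n, Rep a (2 ^ t * D) (win u m t n)
  | 0, n => by
    show Rep a (2 ^ 0 * D) (List.take n [u])
    refine Rep.take _ _ _ ⟨?_, trivial⟩
    simpa using hS.2.1
  | t + 1, n => by
    show Rep a (2 ^ (t + 1) * D) ((nxt (m * mm (t + 1)) (win u m t ((n + 1) / 2))).take n)
    refine Rep.take _ _ _ ?_
    have e : 2 ^ (t + 1) * D = 2 * (2 ^ t * D) := by ring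
    rw [e]
    refine Rep.nxt G _ _ _ (Nat.mul_pos (by positivity) hS.1) ?_ (win_rep G hS t _)
    rw [← e]
    exact hS.2.2 (t + 1) (by omega)

theorem nxt_length : ∀ (L : List ℕ) (x : ℕ), (nxt x L).length = 2 * L.length
  | [], _ => rfl
  | v :: vs, x => by
    show (nxt (stp x v) vs).length + 1 + 1 = 2 * (vs.length + 1)
    rw [nxt_length vs]; ring

theorem win_length (u m : ℕ) : ∀ t n, n ≤ 2 ^ t → (win u m t n).length = n
  | 0, n, h => by
    show (List.take n [u]).length = n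
    rw [List.length_take]; simp at h ⊢; omega
  | t + 1, n, h => by
    show ((nxt (m * mm (t + 1)) (win u m t ((n + 1) / 2))).take n).length = n
    rw [pow_succ] at h
    rw [List.length_take, nxt_length, win_length u m t _ (by omega)]
    omega

/-- forward check: remaining budget `B` -/
def chk : ℕ → List ℕ → Bool
  | B, [] => Nat.beq B 2
  | B, v :: vs => and (Nat.ble (3 * v) B) (chk (B - v) vs)

theorem chk_sound {a : ℕ → ℕ} {C : ℕ} : ∀ (L : List ℕ) (p B : ℕ), Rep a p L → chk B L = true →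
    C = p + L.length → 1 ≤ p → Q a C L.length ∧ T a C L.length = B
  | [], p, B, _, hc, _, _ => by
    refine ⟨fun i hi => by simp at hi, ?_⟩
    have : B = 2 := Nat.eq_of_beq_eq_true hc
    rw [this]; rfl
  | v :: vs, p, B, h, hc, hC, hp => by
    rw [chk, Bool.and_eq_true] at hc
    have h3 := Nat.le_of_ble_eq_true hc.1
    have hlen : (v :: vs).length = vs.length + 1 := rfl
    rw [hlen] at hC
    obtain ⟨hq, ht⟩ := chk_sound (C := C) vs (p + 1) (B - v) h.2 hc.2 (by omega) (by omega)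
    have e : C - (vs.length + 1) = p := by omega
    have hv : a p = v := h.1
    rw [hlen]
    refine ⟨fun i hi => ?_, ?_⟩
    · rcases Nat.lt_or_ge i vs.length with h' | h'
      · exact hq i h'
      · have : i = vs.length := by omega
        rw [this, e, hv, ht]; omega
    · show T a C vs.length + a (C - (vs.length + 1)) = B
      rw [e, hv, ht]; omega

/-- the last element of the list is `v` -/
def lastIs (v : ℕ) : ℕ → List ℕ → Bool
  | cur, [] => Nat.beq cur v
  | _, x :: xs => cond (Nat.ble x x) (lastIs v x xs) false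

theorem lastIs_sound {a : ℕ → ℕ} {v : ℕ} : ∀ (L : List ℕ) (p cur : ℕ), Rep a p L →
    lastIs v cur L = true → 1 ≤ L.length → a (p + (L.length - 1)) = v
  | [], _, _, _, _, h => by simp at h
  | [x], p, cur, hr, hl, _ => by
    have h1 : lastIs v cur [x] = Nat.beq x v := by
      show cond (Nat.ble x x) (Nat.beq x v) false = Nat.beq x v
      rw [Nat.ble_eq_true_of_le (le_refl x)]; rfl
    rw [h1] at hl
    have := Nat.eq_of_beq_eq_true hl
    simp only [List.length_cons, List.length_nil, Nat.zero_add, Nat.sub_self, Nat.add_zero]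
    rw [hr.1, this]
  | x :: y :: ys, p, cur, hr, hl, _ => by
    have h1 : lastIs v cur (x :: y :: ys) = lastIs v x (y :: ys) := by
      show cond (Nat.ble x x) (lastIs v x (y :: ys)) false = lastIs v x (y :: ys)
      rw [Nat.ble_eq_true_of_le (le_refl x)]; rfl
    rw [h1] at hl
    have h := lastIs_sound (y :: ys) (p + 1) x hr.2 hl (by simp)
    have e : p + ((x :: y :: ys).length - 1) = p + 1 + ((y :: ys).length - 1) := by
      simp only [List.length_cons]; omega
    rw [e]; exact h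

theorem win_last {a : ℕ → ℕ} (G : Good a) {D u m : ℕ} (hS : St a D u m) {t n v : ℕ}
    (hn : n + 1 ≤ 2 ^ t) (h : lastIs v 0 (win u m t (n + 1)) = true) :
    a (2 ^ t * D + n) = v := by
  have hl := win_length u m t (n + 1) hn
  have := lastIs_sound _ (2 ^ t * D) 0 (win_rep G hS t (n + 1)) h (by rw [hl]; omega)
  rw [hl] at this
  simpa using this

theorem mm_add_two (k : ℕ) (hk : 1 ≤ k) : mm (k + 2) = 3 * mm k := by
  match k, hk with
  | k + 1, _ => rfl

theorem hin_of {m t A R J : ℕ}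
    (h0 : ∀ j, j < J + 2 → m * mm (j + 1 + t) ≤ A + R * (2 ^ j - 1))
    (hJ : 2 * A ≤ R * 2 ^ J) : ∀ j, m * mm (j + 1 + t) ≤ A + R * (2 ^ j - 1) := by
  intro j
  induction j using Nat.strong_induction_on with
  | _ j ih =>
    rcases Nat.lt_or_ge j (J + 2) with h | h
    · exact h0 j h
    · obtain ⟨i, rfl⟩ : ∃ i, j = i + 2 := ⟨j - 2, by omega⟩
      have h1 := ih i (by omega)
      have e : i + 2 + 1 + t = (i + 1 + t) + 2 := by ring
      rw [e, mm_add_two _ (by omega)]
      have h2 : R * 2 ^ J ≤ R * 2 ^ i :=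
        Nat.mul_le_mul_left _ (Nat.pow_le_pow_right (by norm_num) (by omega))
      obtain ⟨q, hq⟩ : ∃ q, 2 ^ i = q + 1 := ⟨2 ^ i - 1, by
        have : 1 ≤ 2 ^ i := Nat.one_le_two_pow
        omega⟩
      have e2 : 2 ^ (i + 2) - 1 = 4 * q + 3 := by rw [pow_add, hq]; omega
      rw [e2]
      rw [hq] at h1 h2
      have e3 : q + 1 - 1 = q := by omega
      rw [e3] at h1
      have e4 : m * (3 * mm (i + 1 + t)) = 3 * (m * mm (i + 1 + t)) := by ring
      have e5 : R * (4 * q + 3) = 4 * (R * q) + 3 * R := by ring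
      have e6 : R * (q + 1) = R * q + R := by ring
      rw [e4, e5]
      rw [e6] at h2
      omega

/-- the lock criterion -/
theorem lockS {a : ℕ → ℕ} (G : Good a) {D u m t R A J : ℕ} (hS : St a D u m)
    (hR : 1 ≤ R) (hRt : R ≤ 2 ^ t) (hchk : chk A (win u m t R) = true)
    (h3 : (2 ^ t * D + R) % 3 = 0)
    (h0 : ∀ j, j < J + 2 → m * mm (j + 1 + t) ≤ A + R * (2 ^ j - 1))
    (hJ : 2 * A ≤ R * 2 ^ J) :
    ∀ j, a (2 ^ j * (2 ^ t * D + R) - 1) = 1 := by
  have hin := hin_of h0 hJ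
  have hpD : 1 ≤ 2 ^ t * D := Nat.mul_pos (by positivity) hS.1
  have hl := win_length u m t R hRt
  obtain ⟨hQ, hT⟩ := chk_sound (C := 2 ^ t * D + R) _ (2 ^ t * D) A (win_rep G hS t R) hchk
    (by rw [hl]) hpD
  rw [hl] at hQ hT
  have main : ∀ K, E a (2 ^ t * D + R) R K ∧
      ∀ k, 1 ≤ k → k ≤ K → a (2 ^ k * (2 ^ t * D + R) - 1) = 1 := by
    intro K
    induction K with
    | zero => exact ⟨E_zero hQ, fun k h1 h2 => by omega⟩
    | succ K ih =>
      obtain ⟨hE, hu⟩ := ih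
      have e : 2 ^ (K + 1) * (2 ^ t * D + R - R) - 1 = 2 ^ (K + 1 + t) * D - 1 := by
        have : 2 ^ t * D + R - R = 2 ^ t * D := by omega
        rw [this, pow_add 2 (K + 1) t, Nat.mul_assoc]
      have hin' : a (2 ^ (K + 1) * (2 ^ t * D + R - R) - 1) ≤
          T a (2 ^ t * D + R) R + R * (2 ^ K - 1) := by
        rw [e, hS.2.2 _ (by omega), hT]
        exact hin K
      obtain ⟨h1, h2⟩ := E_step G (by omega) h3 hE hin'
      refine ⟨h1, fun k hk hk' => ?_⟩
      rcases Nat.lt_or_ge K k with h | h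
      · have : k = K + 1 := by omega
        rw [this]; exact h2
      · exact hu k hk h
  intro j
  rcases Nat.eq_zero_or_pos j with rfl | hj
  · have h := hQ 0 (by omega)
    have h2 : 2 * a (2 ^ t * D + R - 1) ≤ 2 := h
    have hp := pos G (2 ^ t * D + R - 1) (by omega)
    rw [pow_zero, Nat.one_mul]
    omega
  · exact (main j).2 j hj (le_refl j)

theorem Law.of_u {a : ℕ → ℕ} (G : Good a) {c w : ℕ} (hc : 1 ≤ c) (hw : a c = w)
    (hu : ∀ k, 1 ≤ k → a (2 ^ k * c - 1) = 1) : Law a c (w + 1) := by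
  intro k i h1 h2
  have h := law_upto G (C := c) hc (fun k hk _ => hu k hk) k (le_refl k) i h1 h2
  rw [Nat.mul_comm c, h, hw]

theorem even_pow {a : ℕ → ℕ} (G : Good a) {c : ℕ} (hc : 1 ≤ c) : ∀ k, a (2 ^ k * c) = a c := by
  intro k
  induction k with
  | zero => simp
  | succ k ih =>
    have e : 2 ^ (k + 1) * c = 2 * (2 ^ k * c) := by ring
    have : 1 ≤ 2 ^ k * c := Nat.mul_pos (by positivity) hc
    rw [e, G.even _ this, ih]

/-- final lock: a multiplier `w + 1` -/
theorem mult_of {a : ℕ → ℕ} (G : Good a) {D u m K k o A J w : ℕ} (hS : St a D u m)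
    (ho : 1 ≤ o) (hot : o + 1 ≤ 2 ^ K) (hchk : chk A (win u m (K + k) (2 ^ k * o)) = true)
    (h3 : (2 ^ K * D + o) % 3 = 0)
    (h0 : ∀ j, j < J + 2 → m * mm (j + 1 + (K + k)) ≤ A + 2 ^ k * o * (2 ^ j - 1))
    (hJ : 2 * A ≤ 2 ^ k * o * 2 ^ J)
    (hw : lastIs w 0 (win u m K (o + 1)) = true) :
    ∃ c, Law a c (w + 1) := by
  have hpk : 1 ≤ 2 ^ k := Nat.one_le_two_pow
  have hpo : 1 ≤ 2 ^ k * o := Nat.mul_pos hpk ho
  have hw' := win_last G hS hot hw
  have hRt : 2 ^ k * o ≤ 2 ^ (K + k) := by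
    rw [pow_add, Nat.mul_comm]
    exact Nat.mul_le_mul_right _ (by omega)
  have e : 2 ^ (K + k) * D + 2 ^ k * o = 2 ^ k * (2 ^ K * D + o) := by rw [pow_add]; ring
  have h3' : (2 ^ (K + k) * D + 2 ^ k * o) % 3 = 0 := by
    rw [e]
    have : 3 ∣ 2 ^ k * (2 ^ K * D + o) := Dvd.dvd.mul_left (Nat.dvd_of_mod_eq_zero h3) _
    omega
  have h := lockS G hS hpo hRt hchk h3' h0 hJ
  refine ⟨2 ^ (K + k) * D + 2 ^ k * o, Law.of_u G (by omega) ?_ (fun j _ => h j)⟩
  rw [e, even_pow G (by omega), hw']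

/-- lock at all levels: new state -/
theorem state_of {a : ℕ → ℕ} (G : Good a) {D u m K k o A J w v : ℕ} (hS : St a D u m)
    (ho : 1 ≤ o) (hot : o + 2 ≤ 2 ^ K) (hchk : chk A (win u m (K + k) (2 ^ k * o)) = true)
    (h3 : (2 ^ K * D + o) % 3 = 0)
    (h0 : ∀ j, j < J + 2 → m * mm (j + 1 + (K + k)) ≤ A + 2 ^ k * o * (2 ^ j - 1))
    (hJ : 2 * A ≤ 2 ^ k * o * 2 ^ J)
    (hw : lastIs w 0 (win u m K (o + 1)) = true)
    (hv : lastIs v 0 (win u m K (o + 2)) = true)
    (hl : ∀ l, 1 ≤ l → l < k → lastIs 1 0 (win u m (K + l) (2 ^ l * o)) = true) :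
    St a (2 ^ K * D + o + 1) v (w + 1) := by
  have hpk : 1 ≤ 2 ^ k := Nat.one_le_two_pow
  have hpo : 1 ≤ 2 ^ k * o := Nat.mul_pos hpk ho
  have hw' := win_last G hS (by omega) hw
  have hv' := win_last G hS hot hv
  have hRt : 2 ^ k * o ≤ 2 ^ (K + k) := by
    rw [pow_add, Nat.mul_comm]
    exact Nat.mul_le_mul_right _ (by omega)
  have e : 2 ^ (K + k) * D + 2 ^ k * o = 2 ^ k * (2 ^ K * D + o) := by rw [pow_add]; ring
  have h3' : (2 ^ (K + k) * D + 2 ^ k * o) % 3 = 0 := by
    rw [e]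
    have : 3 ∣ 2 ^ k * (2 ^ K * D + o) := Dvd.dvd.mul_left (Nat.dvd_of_mod_eq_zero h3) _
    omega
  have h := lockS G hS hpo hRt hchk h3' h0 hJ
  have hu : ∀ j, 1 ≤ j → a (2 ^ j * (2 ^ K * D + o) - 1) = 1 := by
    intro j hj
    rcases Nat.lt_or_ge j k with hjk | hjk
    · have h1 := hl j hj hjk
      have hpj : 1 ≤ 2 ^ j := Nat.one_le_two_pow
      have hpjo : 1 ≤ 2 ^ j * o := Nat.mul_pos hpj ho
      have hb : 2 ^ j * o ≤ 2 ^ (K + j) := by
        rw [pow_add, Nat.mul_comm]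
        exact Nat.mul_le_mul_right _ (by omega)
      obtain ⟨r, hr⟩ : ∃ r, 2 ^ j * o = r + 1 := ⟨2 ^ j * o - 1, by omega⟩
      rw [hr] at h1
      have h2 := win_last G hS (by omega) h1
      have e2 : 2 ^ j * (2 ^ K * D + o) - 1 = 2 ^ (K + j) * D + r := by
        have : 2 ^ j * (2 ^ K * D + o) = 2 ^ (K + j) * D + 2 ^ j * o := by
          rw [pow_add]; ring
        rw [this, hr]; omega
      rw [e2]; exact h2
    · obtain ⟨i, rfl⟩ : ∃ i, j = i + k := ⟨j - k, by omega⟩
      have := h i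
      rw [e, ← Nat.mul_assoc, ← pow_add] at this
      exact this
  have hc : 1 ≤ 2 ^ K * D + o := by omega
  have hlaw := Law.of_u G hc hw' hu
  refine ⟨by omega, ?_, fun j hj => ?_⟩
  · rw [← hv']; congr 1
  · have h2 : 2 ≤ 2 ^ j := by
      calc 2 = 2 ^ 1 := by norm_num
        _ ≤ 2 ^ j := Nat.pow_le_pow_right (by norm_num) hj
    have h4 := hlaw j (2 ^ j - 1) (by omega) (by omega)
    rw [mm_eq G j hj] at h4
    rw [← h4]
    congr 1
    have : 2 ^ j * (2 ^ K * D + o + 1) = (2 ^ K * D + o) * 2 ^ j + 2 ^ j := by ring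
    rw [this]; omega

end Pool.Agent.SeqDil
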