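import Pool.Agent.SeqDil.SegAsm

/-! Windows after `2 ^ t` as linear forms in `3 ^ j`. -/

namespace Pool.Agent.SeqDil

/-- value of the linear form `f.1 * X + f.2` -/
def ev (X : ℤ) (f : ℤ × ℤ) : ℤ := f.1 * X + f.2

def gtb (X0 : ℤ) (x v : ℤ × ℤ) : Bool :=
  decide (v.1 ≤ x.1) && decide (0 < (x.1 - v.1) * X0 + (x.2 - v.2))

def leb (X0 : ℤ) (x v : ℤ × ℤ) : Bool :=
  decide (x.1 ≤ v.1) && decide (0 ≤ (v.1 - x.1) * X0 + (v.2 - x.2))

theorem gtb_sound {X0 X : ℤ} {x v : ℤ × ℤ} (hX : X0 ≤ X) (h : gtb X0 x v = true) :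
    ev X v < ev X x := by
  unfold gtb at h
  rw [Bool.and_eq_true, decide_eq_true_eq, decide_eq_true_eq] at h
  obtain ⟨h1, h2⟩ := h
  have h3 : (x.1 - v.1) * X0 ≤ (x.1 - v.1) * X := mul_le_mul_of_nonneg_left hX (by linarith)
  unfold ev
  nlinarith

theorem leb_sound {X0 X : ℤ} {x v : ℤ × ℤ} (hX : X0 ≤ X) (h : leb X0 x v = true) :
    ev X x ≤ ev X v := by
  unfold leb at h
  rw [Bool.and_eq_true, decide_eq_true_eq, decide_eq_true_eq] at h
  obtain ⟨h1, h2⟩ := h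
  have h3 : (v.1 - x.1) * X0 ≤ (v.1 - x.1) * X := mul_le_mul_of_nonneg_left hX (by linarith)
  unfold ev
  nlinarith

/-- next form -/
def stl (X0 : ℤ) (x v : ℤ × ℤ) : ℤ × ℤ :=
  cond (gtb X0 x v) (x.1 - v.1, x.2 - v.2) (x.1 + v.1, x.2 + v.2)

def nxl (X0 : ℤ) : ℤ × ℤ → List (ℤ × ℤ) → List (ℤ × ℤ)
  | _, [] => []
  | x, v :: vs => v :: stl X0 x v :: nxl X0 (stl X0 x v) vs

def okl (X0 : ℤ) : ℤ × ℤ → List (ℤ × ℤ) → Bool
  | _, [] => true
  | x, v :: vs => (gtb X0 x v || leb X0 x v) && okl X0 (stl X0 x v) vs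

def RepL (a : ℕ → ℕ) (X : ℤ) : ℕ → List (ℤ × ℤ) → Prop
  | _, [] => True
  | p, v :: vs => (a p : ℤ) = ev X v ∧ RepL a X (p + 1) vs

def InL (a : ℕ → ℕ) (X : ℤ) : ℕ → List (ℤ × ℤ) → Prop
  | _, [] => True
  | P, x :: xs => (a (2 * P - 1) : ℤ) = ev X x ∧ InL a X (2 * P) xs

theorem RepL.mem {a : ℕ → ℕ} {X : ℤ} : ∀ (L : List (ℤ × ℤ)) (p : ℕ), 1 ≤ p → RepL a X p L →
    ∀ f ∈ L, ∃ n, 1 ≤ n ∧ (a n : ℤ) = ev X f
  | [], _, _, _, f, hf => by simp at hf
  | v :: vs, p, hp, h, f, hf => by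
    rcases List.mem_cons.mp hf with rfl | hf
    · exact ⟨p, hp, h.1⟩
    · exact RepL.mem vs (p + 1) (by omega) h.2 f hf

def winl (X0 : ℤ) : List (ℤ × ℤ) → List (ℤ × ℤ) → List (ℤ × ℤ)
  | [], L => L
  | x :: xs, L => winl X0 xs (nxl X0 x L)

def okw (X0 : ℤ) : List (ℤ × ℤ) → List (ℤ × ℤ) → Bool
  | [], _ => true
  | x :: xs, L => okl X0 x L && okw X0 xs (nxl X0 x L)

section
variable {a : ℕ → ℕ} (G : Good a)
include G

theorem nxl_sound {X0 X : ℤ} (hX : X0 ≤ X) : ∀ (L : List (ℤ × ℤ)) (p : ℕ) (x : ℤ × ℤ), 1 ≤ p →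
    (a (2 * p - 1) : ℤ) = ev X x → RepL a X p L → okl X0 x L = true →
    RepL a X (2 * p) (nxl X0 x L)
  | [], _, _, _, _, _, _ => trivial
  | v :: vs, p, x, hp, hx, h, hok => by
    rw [okl, Bool.and_eq_true, Bool.or_eq_true] at hok
    have ho := G.odd p hp
    have hnew : (a (2 * p + 1) : ℤ) = ev X (stl X0 x v) := by
      unfold stl
      cases hg : gtb X0 x v with
      | true =>
        have h1 := gtb_sound hX hg
        rw [← hx, ← h.1] at h1
        have h2 : a p < a (2 * p - 1) := by exact_mod_cast h1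
        rw [ho, stp_gt h2, Nat.cast_sub h2.le, hx, h.1]
        show ev X x - ev X v = ev X (x.1 - v.1, x.2 - v.2)
        unfold ev; ring
      | false =>
        have h0 : leb X0 x v = true := by
          rcases hok.1 with h' | h'
          · rw [hg] at h'; exact absurd h' (by simp)
          · exact h'
        have h1 := leb_sound hX h0
        rw [← hx, ← h.1] at h1
        have h2 : a (2 * p - 1) ≤ a p := by exact_mod_cast h1
        rw [ho, stp_le h2, Nat.cast_add, hx, h.1]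
        show ev X x + ev X v = ev X (x.1 + v.1, x.2 + v.2)
        unfold ev; ring
    refine ⟨by rw [G.even p hp]; exact h.1, hnew, ?_⟩
    have e : 2 * p + 1 + 1 = 2 * (p + 1) := by ring
    rw [e]
    refine nxl_sound hX vs (p + 1) _ (by omega) ?_ h.2 hok.2
    have e2 : 2 * (p + 1) - 1 = 2 * p + 1 := by omega
    rw [e2]; exact hnew

theorem winl_sound {X0 X : ℤ} (hX : X0 ≤ X) : ∀ (xs L : List (ℤ × ℤ)) (P : ℕ), 1 ≤ P →
    RepL a X P L → InL a X P xs → okw X0 xs L = true →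
    RepL a X (2 ^ xs.length * P) (winl X0 xs L)
  | [], L, P, _, hr, _, _ => by simpa [winl] using hr
  | x :: xs, L, P, hP, hr, hx, hok => by
    rw [okw, Bool.and_eq_true] at hok
    have h := winl_sound hX xs (nxl X0 x L) (2 * P) (by omega)
      (nxl_sound G hX L P x hP hx.1 hr hok.1) hx.2 hok.2
    have e : 2 ^ (x :: xs).length * P = 2 ^ xs.length * (2 * P) := by
      rw [List.length_cons, pow_succ]; ring
    rw [e]; exact h

/-- incoming forms after `2 ^ t` -/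
def cl : ℕ → ℤ → ℤ → List (ℤ × ℤ)
  | 0, _, _ => []
  | n + 1, c, c' => (c, 0) :: cl n c' (3 * c)

theorem cl_in {X : ℤ} : ∀ (n t : ℕ) (c c' : ℤ), (mm (t + 1) : ℤ) = c * X →
    (mm (t + 2) : ℤ) = c' * X → InL a X (2 ^ t) (cl n c c')
  | 0, _, _, _, _, _ => trivial
  | n + 1, t, c, c', h1, h2 => by
    have e : 2 * 2 ^ t = 2 ^ (t + 1) := by ring
    refine ⟨?_, ?_⟩
    · rw [e, mm_eq G (t + 1) (by omega), h1]
      show c * X = ev X (c, 0)
      unfold ev; ring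
    · rw [e]
      refine cl_in n (t + 1) c' (3 * c) h2 ?_
      have h3 : mm (t + 1 + 2) = 3 * mm (t + 1) := mm_add_two (t + 1) (by omega)
      rw [h3]; push_cast; rw [h1]; ring

omit G in
theorem mm_odd : ∀ j, mm (2 * j + 1) = 3 ^ j
  | 0 => rfl
  | j + 1 => by
    have e : 2 * (j + 1) + 1 = 2 * j + 1 + 2 := by ring
    rw [e, mm_add_two _ (by omega), mm_odd j, pow_succ]; ring

omit G in
theorem mm_even : ∀ j, mm (2 * j + 2) = 2 * 3 ^ j
  | 0 => rfl
  | j + 1 => by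
    have e : 2 * (j + 1) + 2 = 2 * j + 2 + 2 := by ring
    rw [e, mm_add_two _ (by omega), mm_even j, pow_succ]; ring

/-- all forms of the window of depth `n` after `2 ^ (2 j + n)` are values at `X = 3 ^ j` -/
theorem forms {n : ℕ} {X0 : ℤ} (hok : okw X0 (cl n 1 2) [(0, 1)] = true) {j : ℕ}
    (hj : X0 ≤ 3 ^ j) : ∀ f ∈ winl X0 (cl n 1 2) [(0, 1)],
      ∃ N, 1 ≤ N ∧ (a N : ℤ) = ev (3 ^ j) f := by
  have h1 : a (2 ^ (2 * j)) = 1 := by
    have := even_pow G (le_refl 1) (2 * j)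
    rw [Nat.mul_one] at this
    rw [this, G.one]
  have hr : RepL a (3 ^ j) (2 ^ (2 * j)) [(0, 1)] := by
    refine ⟨?_, trivial⟩
    rw [h1]; simp [ev]
  have hin := cl_in G (X := 3 ^ j) n (2 * j) 1 2 (by rw [mm_odd]; push_cast; ring)
    (by rw [mm_even]; push_cast; ring)
  have h := winl_sound G hj _ _ _ (Nat.one_le_two_pow) hr hin hok
  exact RepL.mem _ _ (Nat.mul_pos (by positivity) (by positivity)) h

end

end Pool.Agent.SeqDil
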