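import Pool.Agent.SeqDil.CertA

/-! Fast, segmented kernel checks of long windows. -/

namespace Pool.Agent.SeqDil

/-- strict application -/
noncomputable def fc {α : Type} (f : ℕ → α) (n : ℕ) : α :=
  Nat.rec (f 0) (fun k _ => f (Nat.succ k)) n

theorem fc_eq {α : Type} (f : ℕ → α) (n : ℕ) : fc f n = f n := by cases n <;> rfl

/-- one step -/
noncomputable def sp (x v : ℕ) : ℕ := Bool.rec (Nat.sub x v) (Nat.add x v) (Nat.ble x v)

theorem sp_eq (x v : ℕ) : sp x v = stp x v := by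
  unfold sp stp
  cases Nat.ble x v <;> rfl

noncomputable def nx : List ℕ → ℕ → List ℕ :=
  List.rec (fun _ => []) (fun v _ ih x => List.cons v (fc (fun y => List.cons y (ih y)) (sp x v)))

theorem nx_eq : ∀ L x, nx L x = nxt x L
  | [], _ => rfl
  | v :: vs, x => by
    show List.cons v (fc (fun y => List.cons y (nx vs y)) (sp x v)) =
      v :: stp x v :: nxt (stp x v) vs
    rw [fc_eq, sp_eq, nx_eq]

/-- last new entry one level up -/
noncomputable def ly : List ℕ → ℕ → ℕ := List.rec (fun x => x) (fun v _ ih x => fc ih (sp x v))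

/-- top level check of a segment -/
noncomputable def ck (y' B' : ℕ) : List ℕ → ℕ → ℕ → Bool :=
  List.rec (fun x B => Bool.rec false (Nat.beq B B') (Nat.beq x y')) (fun v _ ih x B =>
    Bool.rec false
      (fc (fun y => fc (fun B1 => Bool.rec false (fc (fun B2 => ih y B2) (Nat.sub B1 y))
        (Nat.ble (Nat.mul 3 y) B1)) (Nat.sub B v)) (sp x v))
      (Nat.ble (Nat.mul 3 v) B))

/-- check of a segment: incoming values `xs`, outgoing values `ys` -/
noncomputable def segC (B B' : ℕ) : List ℕ → List ℕ → List ℕ → Bool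
  | [x], [y], L => ck y B' L x B
  | x :: x2 :: xs, y :: ys, L => and (Nat.beq (ly L x) y) (segC B B' (x2 :: xs) ys (nx L x))
  | _, _, _ => false

def bq : List ℕ → List ℕ → Bool
  | [], [] => true
  | x :: xs, y :: ys => and (Nat.beq x y) (bq xs ys)
  | _, _ => false

theorem bq_eq : ∀ L M, bq L M = true → L = M
  | [], [], _ => rfl
  | [], _ :: _, h => by simp [bq] at h
  | _ :: _, [], h => by simp [bq] at h
  | x :: xs, y :: ys, h => by
    rw [bq, Bool.and_eq_true] at h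
    rw [Nat.eq_of_beq_eq_true h.1, bq_eq xs ys h.2]

/-- budget data at position `p` -/
def QT (a : ℕ → ℕ) (C p B : ℕ) : Prop := p ≤ C ∧ Q a C (C - p) ∧ T a C (C - p) = B

theorem QT.step {a : ℕ → ℕ} {C p v B : ℕ} (h : QT a C (p + 1) (B - v)) (hv : a p = v)
    (hb : 3 * v ≤ B) : QT a C p B := by
  obtain ⟨h1, h2, h3⟩ := h
  have e : C - p = (C - (p + 1)) + 1 := by omega
  have e2 : C - ((C - (p + 1)) + 1) = p := by omega
  refine ⟨by omega, ?_, ?_⟩
  · intro i hi
    rcases Nat.lt_or_ge i (C - (p + 1)) with h' | h'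
    · exact h2 i h'
    · have : i = C - (p + 1) := by omega
      subst this
      rw [e2, hv, h3]; omega
  · rw [e]
    show T a C (C - (p + 1)) + a (C - ((C - (p + 1)) + 1)) = B
    rw [e2, hv, h3]; omega

/-- incoming values at the center `P`, one for each level -/
def InX (a : ℕ → ℕ) : ℕ → List ℕ → Prop
  | _, [] => True
  | P, x :: xs => a (2 * P - 1) = x ∧ InX a (2 * P) xs

section
variable {a : ℕ → ℕ} (G : Good a)
include G

theorem ly_sound : ∀ (L : List ℕ) (P x : ℕ), 1 ≤ P → Rep a P L → a (2 * P - 1) = x →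
    a (2 * (P + L.length) - 1) = ly L x
  | [], _, _, _, _, hx => hx
  | v :: vs, P, x, hP, hr, hx => by
    have ho := G.odd P hP
    rw [hx, hr.1] at ho
    have e : 2 * (P + 1) - 1 = 2 * P + 1 := by omega
    have h := ly_sound vs (P + 1) (stp x v) (by omega) hr.2 (by rw [e]; exact ho)
    have e2 : P + (v :: vs).length = P + 1 + vs.length := by
      rw [List.length_cons]; omega
    rw [e2, h]
    show ly vs (stp x v) = fc (ly vs) (sp x v)
    rw [fc_eq, sp_eq]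

theorem ck_sound {C y' B' : ℕ} : ∀ (L : List ℕ) (P x B : ℕ), 1 ≤ P → Rep a P L →
    a (2 * P - 1) = x → ck y' B' L x B = true →
    a (2 * (P + L.length) - 1) = y' ∧ (QT a C (2 * (P + L.length)) B' → QT a C (2 * P) B)
  | [], P, x, B, _, _, hx, hc => by
    have hc' : (Bool.rec false (Nat.beq B B') (Nat.beq x y') : Bool) = true := hc
    cases h1 : Nat.beq x y' with
    | false => rw [h1] at hc'; exact absurd hc' (by simp)
    | true =>
      rw [h1] at hc'
      have e1 := Nat.eq_of_beq_eq_true h1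
      have e2 : B = B' := Nat.eq_of_beq_eq_true hc'
      subst e1; subst e2
      exact ⟨hx, fun h => h⟩
  | v :: vs, P, x, B, hP, hr, hx, hc => by
    have ho := G.odd P hP
    rw [hx, hr.1] at ho
    have hev : a (2 * P) = v := by rw [G.even P hP]; exact hr.1
    have hc' : (Bool.rec false
      (fc (fun y => fc (fun B1 => Bool.rec false (fc (fun B2 => ck y' B' vs y B2) (Nat.sub B1 y))
        (Nat.ble (Nat.mul 3 y) B1)) (Nat.sub B v)) (sp x v))
      (Nat.ble (Nat.mul 3 v) B) : Bool) = true := hc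
    rw [fc_eq, fc_eq, fc_eq, sp_eq] at hc'
    cases h1 : Nat.ble (Nat.mul 3 v) B with
    | false => rw [h1] at hc'; exact absurd hc' (by simp)
    | true =>
      rw [h1] at hc'
      have hc2 : (Bool.rec false (ck y' B' vs (stp x v) (Nat.sub (Nat.sub B v) (stp x v)))
        (Nat.ble (Nat.mul 3 (stp x v)) (Nat.sub B v)) : Bool) = true := hc'
      cases h2 : Nat.ble (Nat.mul 3 (stp x v)) (Nat.sub B v) with
      | false => rw [h2] at hc2; exact absurd hc2 (by simp)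
      | true =>
        rw [h2] at hc2
        have hc3 : ck y' B' vs (stp x v) (B - v - stp x v) = true := hc2
        have hb1 : 3 * v ≤ B := Nat.le_of_ble_eq_true h1
        have hb2 : 3 * stp x v ≤ B - v := Nat.le_of_ble_eq_true h2
        have e : 2 * (P + 1) - 1 = 2 * P + 1 := by omega
        obtain ⟨r1, r2⟩ := ck_sound (C := C) (y' := y') (B' := B') vs (P + 1) (stp x v) _
          (by omega) hr.2 (by rw [e]; exact ho) hc3
        have e2 : P + (v :: vs).length = P + 1 + vs.length := by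
          rw [List.length_cons]; omega
        rw [e2]
        refine ⟨r1, fun h => ?_⟩
        have h3 := r2 h
        have e3 : 2 * (P + 1) = 2 * P + 1 + 1 := by ring
        rw [e3] at h3
        exact QT.step (QT.step h3 ho hb2) hev hb1

theorem segC_sound {C B B' : ℕ} : ∀ (xs ys L : List ℕ) (P : ℕ), 1 ≤ P → Rep a P L →
    InX a P xs → segC B B' xs ys L = true →
    InX a (P + L.length) ys ∧
      (QT a C (2 ^ xs.length * (P + L.length)) B' → QT a C (2 ^ xs.length * P) B)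
  | [], ys, L, P, _, _, _, hs => by simp [segC] at hs
  | [x], [], L, P, _, _, _, hs => by simp [segC] at hs
  | [x], [y], L, P, hP, hr, hx, hs => by
    rw [segC] at hs
    obtain ⟨h1, h2⟩ := ck_sound G (C := C) L P x B hP hr hx.1 hs
    refine ⟨⟨h1, trivial⟩, ?_⟩
    simpa using h2
  | [x], y :: y2 :: ys, L, P, _, _, _, hs => by simp [segC] at hs
  | x :: x2 :: xs, [], L, P, _, _, _, hs => by simp [segC] at hs
  | x :: x2 :: xs, y :: ys, L, P, hP, hr, hx, hs => by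
    rw [segC, Bool.and_eq_true] at hs
    have hl := ly_sound G L P x hP hr hx.1
    rw [Nat.eq_of_beq_eq_true hs.1] at hl
    have hr2 : Rep a (2 * P) (nx L x) := by
      rw [nx_eq]
      exact Rep.nxt G L P x hP hx.1 hr
    obtain ⟨h1, h2⟩ := segC_sound (C := C) (x2 :: xs) ys (nx L x) (2 * P) (by omega) hr2 hx.2 hs.2
    have e : (nx L x).length = 2 * L.length := by rw [nx_eq, nxt_length]
    rw [e] at h1 h2
    have e1 : 2 * P + 2 * L.length = 2 * (P + L.length) := by ring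
    rw [e1] at h1 h2
    refine ⟨⟨hl, h1⟩, ?_⟩
    have e2 : ∀ z, 2 ^ (x :: x2 :: xs).length * z = 2 ^ (x2 :: xs).length * (2 * z) := by
      intro z
      rw [List.length_cons, pow_succ]; ring
    rw [e2, e2]
    exact h2

end

theorem Rep.append {a : ℕ → ℕ} : ∀ (L M : List ℕ) (p : ℕ), Rep a p (L ++ M) →
    Rep a p L ∧ Rep a (p + L.length) M
  | [], _, _, h => ⟨trivial, h⟩
  | v :: vs, M, p, h => by
    obtain ⟨h1, h2⟩ := Rep.append vs M (p + 1) h.2
    refine ⟨⟨h.1, h1⟩, ?_⟩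
    have e : p + (v :: vs).length = p + 1 + vs.length := by rw [List.length_cons]; omega
    rw [e]; exact h2

section
variable {a : ℕ → ℕ} (G : Good a)
include G

theorem sstep {C k P B B' n : ℕ} {X X' L M : List ℕ} (hs : segC B B' X X' L = true)
    (h : 1 ≤ P ∧ Rep a P (L ++ M) ∧ InX a P X) (hk : X.length = k) (hn : L.length = n) :
    (1 ≤ P + n ∧ Rep a (P + n) M ∧ InX a (P + n) X') ∧
      (QT a C (2 ^ k * (P + n)) B' → QT a C (2 ^ k * P) B) := by
  obtain ⟨hP, hr, hx⟩ := h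
  obtain ⟨r1, r2⟩ := Rep.append L M P hr
  obtain ⟨h1, h2⟩ := segC_sound G (C := C) X X' L P hP r1 hx hs
  rw [hn] at r2 h1 h2
  rw [hk] at h2
  exact ⟨⟨by omega, r2, h1⟩, h2⟩

end

/-- incoming values of a state -/
def xsl (m : ℕ) : ℕ → ℕ → List ℕ
  | _, 0 => []
  | t, n + 1 => m * mm (t + 1) :: xsl m (t + 1) n

theorem xsl_in {a : ℕ → ℕ} {D u m : ℕ} (hS : St a D u m) : ∀ n t, InX a (2 ^ t * D) (xsl m t n)
  | 0, _ => trivial
  | n + 1, t => by
    have e : 2 * (2 ^ t * D) = 2 ^ (t + 1) * D := by ring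
    refine ⟨?_, ?_⟩
    · rw [e]; exact hS.2.2 (t + 1) (by omega)
    · rw [e]; exact xsl_in hS n (t + 1)

theorem sstart {a : ℕ → ℕ} (G : Good a) {D u m K k o : ℕ} {X L : List ℕ} (hS : St a D u m)
    (hX : bq (xsl m K k) X = true) (hL : bq (win u m K (o + 2)) L = true) :
    1 ≤ 2 ^ K * D ∧ Rep a (2 ^ K * D) L ∧ InX a (2 ^ K * D) X := by
  refine ⟨Nat.mul_pos (by positivity) hS.1, ?_, ?_⟩
  · rw [← bq_eq _ _ hL]; exact win_rep G hS K _
  · rw [← bq_eq _ _ hX]; exact xsl_in hS k K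

/-- the lock criterion, from the budget data -/
theorem lockQ {a : ℕ → ℕ} (G : Good a) {D u m t R A J : ℕ} (hS : St a D u m)
    (hR : 1 ≤ R) (hqt : QT a (2 ^ t * D + R) (2 ^ t * D) A)
    (h3 : (2 ^ t * D + R) % 3 = 0)
    (h0 : ∀ j, j < J + 2 → m * mm (j + 1 + t) ≤ A + R * (2 ^ j - 1))
    (hJ : 2 * A ≤ R * 2 ^ J) :
    ∀ j, a (2 ^ j * (2 ^ t * D + R) - 1) = 1 := by
  have hin := hin_of h0 hJ
  have hpD : 1 ≤ 2 ^ t * D := Nat.mul_pos (by positivity) hS.1
  obtain ⟨_, hQ, hT⟩ := hqt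
  have e0 : 2 ^ t * D + R - 2 ^ t * D = R := by omega
  rw [e0] at hQ hT
  have main : ∀ K, E a (2 ^ t * D + R) R K ∧
      ∀ k, 1 ≤ k → k ≤ K → a (2 ^ k * (2 ^ t * D + R) - 1) = 1 := by
    intro K
    induction K with
    | zero => exact ⟨E_zero hQ, fun k h1 h2 => by omega⟩
    | succ K ih =>
      obtain ⟨hE, hu⟩ := ih
      have e : 2 ^ (K + 1) * (2 ^ t * D + R - R) - 1 = 2 ^ (K + 1 + t) * D - 1 := by
        have : 2 ^ t * D + R - R = 2 ^ t * D := by omega
        rw [this, pow_add 2 (K + 1) t, Nat.mul_assoc]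
      have hin' : a (2 ^ (K + 1) * (2 ^ t * D + R - R) - 1) ≤
          T a (2 ^ t * D + R) R + R * (2 ^ K - 1) := by
        rw [e, hS.2.2 _ (by omega), hT]
        exact hin K
      obtain ⟨h1, h2⟩ := E_step G (by omega) h3 hE hin'
      refine ⟨h1, fun k hk hk' => ?_⟩
      rcases Nat.lt_or_ge K k with h | h
      · have : k = K + 1 := by omega
        rw [this]; exact h2
      · exact hu k hk h
  intro j
  rcases Nat.eq_zero_or_pos j with rfl | hj
  · have h := hQ 0 (by omega)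
    have h2 : 2 * a (2 ^ t * D + R - 1) ≤ 2 := h
    have hp := pos G (2 ^ t * D + R - 1) (by omega)
    rw [pow_zero, Nat.one_mul]
    omega
  · exact (main j).2 j hj (le_refl j)

/-- all entries are `1` -/
def ones : List ℕ → Bool
  | [] => true
  | x :: xs => and (Nat.beq x 1) (ones xs)

theorem ones_sound {a : ℕ → ℕ} : ∀ (X : List ℕ) (P l : ℕ), InX a P X → ones X = true →
    1 ≤ l → l ≤ X.length → a (2 ^ l * P - 1) = 1
  | [], _, _, _, _, h1, h2 => by simp at h2; omega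
  | x :: xs, P, l, hx, ho, h1, h2 => by
    rw [ones, Bool.and_eq_true] at ho
    rcases Nat.lt_or_ge 1 l with h | h
    · have e : 2 ^ l * P = 2 ^ (l - 1) * (2 * P) := by
        obtain ⟨j, rfl⟩ : ∃ j, l = j + 1 := ⟨l - 1, by omega⟩
        rw [Nat.add_sub_cancel, pow_succ]; ring
      rw [e]
      exact ones_sound xs (2 * P) (l - 1) hx.2 ho.2 (by omega)
        (by rw [List.length_cons] at h2; omega)
    · have : l = 1 := by omega
      subst this
      rw [pow_one, hx.1]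
      exact Nat.eq_of_beq_eq_true ho.1

theorem fin_mult {a : ℕ → ℕ} (G : Good a) {D u m K k o A J w v : ℕ} (hS : St a D u m)
    (ho : 1 ≤ o) (h3 : (2 ^ K * D + o) % 3 = 0)
    (h0 : ∀ j, j < J + 2 → m * mm (j + 1 + (K + k)) ≤ A + 2 ^ k * o * (2 ^ j - 1))
    (hJ : 2 * A ≤ 2 ^ k * o * 2 ^ J) {X : List ℕ}
    (hend : 1 ≤ 2 ^ K * D + o ∧ Rep a (2 ^ K * D + o) [w, v] ∧ InX a (2 ^ K * D + o) X)
    (hq : QT a (2 ^ k * (2 ^ K * D + o)) (2 ^ k * (2 ^ K * D + o)) 2 →
      QT a (2 ^ k * (2 ^ K * D + o)) (2 ^ k * (2 ^ K * D)) A) :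
    ∃ c, Law a c (w + 1) := by
  have hq2 := hq ⟨le_refl _, fun i hi => by omega, by rw [Nat.sub_self]; rfl⟩
  have hpk : 1 ≤ 2 ^ k := Nat.one_le_two_pow
  have hpo : 1 ≤ 2 ^ k * o := Nat.mul_pos hpk ho
  have e : 2 ^ k * (2 ^ K * D + o) = 2 ^ (K + k) * D + 2 ^ k * o := by rw [pow_add]; ring
  have e' : 2 ^ k * (2 ^ K * D) = 2 ^ (K + k) * D := by rw [pow_add]; ring
  rw [e, e'] at hq2
  have h3' : (2 ^ (K + k) * D + 2 ^ k * o) % 3 = 0 := by
    rw [← e]
    have : 3 ∣ 2 ^ k * (2 ^ K * D + o) := Dvd.dvd.mul_left (Nat.dvd_of_mod_eq_zero h3) _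
    omega
  have h := lockQ G hS hpo hq2 h3' h0 hJ
  refine ⟨2 ^ (K + k) * D + 2 ^ k * o, Law.of_u G (by omega) ?_ (fun j _ => h j)⟩
  rw [← e, even_pow G (by omega), hend.2.1.1]

theorem fin_state {a : ℕ → ℕ} (G : Good a) {D u m K k o A J w v : ℕ} (hS : St a D u m)
    (ho : 1 ≤ o) (h3 : (2 ^ K * D + o) % 3 = 0)
    (h0 : ∀ j, j < J + 2 → m * mm (j + 1 + (K + k)) ≤ A + 2 ^ k * o * (2 ^ j - 1))
    (hJ : 2 * A ≤ 2 ^ k * o * 2 ^ J) {X : List ℕ} (hXk : X.length = k) (hX1 : ones X = true)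
    (hend : 1 ≤ 2 ^ K * D + o ∧ Rep a (2 ^ K * D + o) [w, v] ∧ InX a (2 ^ K * D + o) X)
    (hq : QT a (2 ^ k * (2 ^ K * D + o)) (2 ^ k * (2 ^ K * D + o)) 2 →
      QT a (2 ^ k * (2 ^ K * D + o)) (2 ^ k * (2 ^ K * D)) A) :
    St a (2 ^ K * D + o + 1) v (w + 1) := by
  have hq2 := hq ⟨le_refl _, fun i hi => by omega, by rw [Nat.sub_self]; rfl⟩
  have hpk : 1 ≤ 2 ^ k := Nat.one_le_two_pow
  have hpo : 1 ≤ 2 ^ k * o := Nat.mul_pos hpk ho
  have e : 2 ^ k * (2 ^ K * D + o) = 2 ^ (K + k) * D + 2 ^ k * o := by rw [pow_add]; ring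
  have e' : 2 ^ k * (2 ^ K * D) = 2 ^ (K + k) * D := by rw [pow_add]; ring
  rw [e, e'] at hq2
  have h3' : (2 ^ (K + k) * D + 2 ^ k * o) % 3 = 0 := by
    rw [← e]
    have : 3 ∣ 2 ^ k * (2 ^ K * D + o) := Dvd.dvd.mul_left (Nat.dvd_of_mod_eq_zero h3) _
    omega
  have h := lockQ G hS hpo hq2 h3' h0 hJ
  have hu : ∀ j, 1 ≤ j → a (2 ^ j * (2 ^ K * D + o) - 1) = 1 := by
    intro j hj
    rcases Nat.lt_or_ge k j with hjk | hjk
    · obtain ⟨i, rfl⟩ : ∃ i, j = i + k := ⟨j - k, by omega⟩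
      have := h i
      rw [← e, ← Nat.mul_assoc, ← pow_add] at this
      exact this
    · exact ones_sound X _ j hend.2.2 hX1 hj (by omega)
  have hlaw := Law.of_u G hend.1 hend.2.1.1 hu
  refine ⟨by omega, ?_, fun j hj => ?_⟩
  · have := hend.2.1.2.1
    exact this
  · have h2 : 2 ≤ 2 ^ j := by
      calc 2 = 2 ^ 1 := by norm_num
        _ ≤ 2 ^ j := Nat.pow_le_pow_right (by norm_num) hj
    have h4 := hlaw j (2 ^ j - 1) (by omega) (by omega)
    rw [mm_eq G j hj] at h4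
    rw [← h4]
    congr 1
    have : 2 ^ j * (2 ^ K * D + o + 1) = (2 ^ K * D + o) * 2 ^ j + 2 ^ j := by ring
    omega

theorem QT.eq {a : ℕ → ℕ} {C N N' B : ℕ} (e : N = N') (h : QT a C N B) : QT a C N' B := e ▸ h

section
variable {a : ℕ → ℕ} (G : Good a)
include G

/-- one level down, keeping two cells in front -/
theorem desc {P v v' x y : ℕ} {X : List ℕ} (hy : stp x v = y)
    (h : 1 ≤ P ∧ Rep a P [v, v'] ∧ InX a P (x :: X)) :
    1 ≤ 2 * P ∧ Rep a (2 * P) ([v] ++ [y, v']) ∧ InX a (2 * P) X := by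
  obtain ⟨hP, hr, hx, hX⟩ := h
  have h2 := Rep.nxt G [v, v'] P x hP hx hr
  refine ⟨by omega, ⟨h2.1, ?_, h2.2.2.1, trivial⟩, hX⟩
  rw [← hy]; exact h2.2.1

omit G in
/-- forget the third cell -/
theorem tk2 {P v y v' : ℕ} {X : List ℕ}
    (h : 1 ≤ P ∧ Rep a P ([v] ++ [y, v']) ∧ InX a P X) :
    1 ≤ P ∧ Rep a P [v, y] ∧ InX a P X :=
  ⟨h.1, ⟨h.2.1.1, h.2.1.2.1, trivial⟩, h.2.2⟩

omit G in
/-- a single cell at the top level -/
theorem step0 {C P v B B' : ℕ} {M : List ℕ} (hB : B - v = B') (hb : 3 * v ≤ B)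
    (h : 1 ≤ P ∧ Rep a P ([v] ++ M) ∧ InX a P []) :
    (1 ≤ P + 1 ∧ Rep a (P + 1) M ∧ InX a (P + 1) []) ∧
      (QT a C (2 ^ 0 * (P + 1)) B' → QT a C (2 ^ 0 * P) B) := by
  refine ⟨⟨by omega, h.2.1.2, trivial⟩, fun hq => ?_⟩
  rw [pow_zero, Nat.one_mul] at hq ⊢
  rw [← hB] at hq
  exact QT.step hq h.2.1.1 hb

end

/-- a state with data `(u, m)` exists -/
def SE (a : ℕ → ℕ) (u m : ℕ) : Prop := ∃ D, St a D u m ∧ D % 3 = 1

end Pool.Agent.SeqDil
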