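import Pool.Agent.SeqDil.Seg

namespace Pool.Agent.SeqDil

theorem c_S5_7 : chk 86800 (win 9 5 (9 + 3) (2 ^ 3 * 205)) = true := by decide +kernel

theorem s_S19_3_0 : segC 2793342 103431
    [42, 63, 126, 189, 378, 567, 1134, 1701, 3402, 5103, 10206, 15309, 30618]
    [21, 26, 11, 26, 1, 4, 25, 44, 71, 136, 179, 54, 45]
    [5, 16] = true := by decide +kernel

theorem s_S19_3_d3 : segC 103431 48748
    [26, 1, 4, 25, 44, 71, 136, 179, 54, 45]
    [17, 27, 47, 81, 137, 239, 391, 719, 1167, 2119]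
    [9] = true := by decide +kernel

theorem s_S19_3_d4 : segC 48748 7507
    [27, 47, 81, 137, 239, 391, 719, 1167, 2119]
    [25, 20, 29, 2, 35, 30, 1, 26, 33]
    [2] = true := by decide +kernel

theorem s_S19_3_d5 : segC 7507 1914
    [20, 29, 2, 35, 30, 1, 26, 33]
    [5, 9, 17, 27, 49, 83, 143, 171]
    [15] = true := by decide +kernel

theorem s_S19_3_d8 : segC 1914 527
    [27, 49, 83, 143, 171]
    [17, 22, 39, 4, 41]
    [10] = true := by decide +kernel

theorem s_S19_3_d9 : segC 527 92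
    [22, 39, 4, 41]
    [15, 17, 11, 27]
    [7] = true := by decide +kernel

theorem s_S19_3_d10 : segC 92 23
    [17, 11, 27]
    [7, 8, 1]
    [10] = true := by decide +kernel

theorem s_S19_3_d11 : segC 23 6
    [8, 1]
    [3, 3]
    [5] = true := by decide +kernel

theorem s_S19_3_d12 : segC 6 3
    [3]
    [1]
    [2] = true := by decide +kernel

theorem s_S19_11_0 : segC 3636605 1426756
    [54, 81, 162, 243, 486, 729, 1458, 2187, 4374, 6561]
    [41, 17, 3, 25, 21, 5, 27, 29, 41, 11]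
    [19, 8, 37, 45, 28, 17, 9, 8, 25, 33, 34, 67, 3, 64, 31, 33] = true := by decide +kernel

theorem s_S19_11_1 : segC 1426756 29043
    [41, 17, 3, 25, 21, 5, 27, 29, 41, 11]
    [16, 25, 6, 11, 22, 23, 18, 25, 50, 75]
    [22, 11, 9, 2, 25, 27, 34, 61, 3, 58, 31, 27, 22, 5] = true := by decide +kernel

theorem s_S19_11_d1 : segC 29043 9522
    [25, 6, 11, 22, 23, 18, 25, 50, 75]
    [16, 31, 32, 23, 10, 23, 42, 51, 14]
    [9] = true := by decide +kernel

theorem s_S19_11_d2 : segC 9522 1091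
    [31, 32, 23, 10, 23, 42, 51, 14]
    [24, 1, 16, 25, 42, 51, 14, 41]
    [7] = true := by decide +kernel

theorem s_S19_11_d4 : segC 1091 2
    [16, 25, 42, 51, 14, 41]
    [7, 9, 1, 1, 1, 1]
    [9] = true := by decide +kernel

theorem s_M47_0 : segC 7721616 3806595
    [66, 99, 198, 297, 594, 891, 1782, 2673, 5346, 8019, 16038, 24057, 48114]
    [33, 52, 5, 42, 59, 6, 55, 90, 179, 248, 27, 250, 411]
    [19, 14] = true := by decide +kernel

theorem s_M47_1 : segC 3806595 2479230
    [33, 52, 5, 42, 59, 6, 55, 90, 179, 248, 27, 250, 411]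
    [19, 27, 51, 79, 153, 215, 425, 659, 41, 87, 627, 253, 577]
    [3, 11] = true := by decide +kernel

theorem s_M47_2 : segC 2479230 878575
    [19, 27, 51, 79, 153, 215, 425, 659, 41, 87, 627, 253, 577]
    [49, 8, 21, 40, 67, 110, 201, 270, 37, 260, 31, 128, 225]
    [30] = true := by decide +kernel

end Pool.Agent.SeqDil
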