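import Pool.Agent.SeqDil.SegD10

namespace Pool.Agent.SeqDil

theorem s_S41_7_3 : segC 15314081 12731766
    [39, 26, 39, 32, 43, 54, 3, 68, 57, 108, 183, 296, 545]
    [13, 17, 13, 23, 45, 69, 115, 197, 333, 595, 735, 185, 703]
    [9, 17] = true := by decide +kernel

theorem s_S41_7_4 : segC 12731766 4838962
    [13, 17, 13, 23, 45, 69, 115, 197, 333, 595, 735, 185, 703]
    [122, 189, 366, 573, 1090, 1469, 246, 1299, 1884, 687, 372, 979, 1638]
    [46, 63] = true := by decide +kernel

theorem s_S41_7_5 : segC 4838962 20954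
    [122, 189, 366, 573, 1090, 1469, 246, 1299, 1884, 687, 372, 979, 1638]
    [67, 67, 43, 49, 35, 47, 9, 1, 11, 13, 1, 13, 23]
    [55] = true := by decide +kernel

theorem s_S41_7_d5 : segC 20954 8156
    [47, 9, 1, 11, 13, 1, 13, 23]
    [39, 40, 7, 42, 1, 24, 3, 4]
    [8] = true := by decide +kernel

theorem s_S41_7_d6 : segC 8156 1958
    [40, 7, 42, 1, 24, 3, 4]
    [13, 21, 15, 11, 17, 1, 13]
    [27] = true := by decide +kernel

theorem s_S41_7_d7 : segC 1958 762
    [21, 15, 11, 17, 1, 13]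
    [9, 12, 23, 38, 67, 114]
    [12] = true := by decide +kernel

theorem s_S41_7_d8 : segC 762 148
    [12, 23, 38, 67, 114]
    [11, 11, 15, 3, 3]
    [1] = true := by decide +kernel

theorem s_S41_7_d9 : segC 148 20
    [11, 15, 3, 3]
    [3, 4, 5, 8]
    [8] = true := by decide +kernel

theorem s_S41_7_d10 : segC 20 2
    [4, 5, 8]
    [1, 1, 1]
    [3] = true := by decide +kernel

theorem s_S31_19_0 : segC 13628389 8545886
    [63, 126, 189, 378, 567, 1134, 1701, 3402, 5103, 10206, 15309, 30618, 45927]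
    [21, 41, 61, 121, 197, 357, 559, 1043, 1725, 2027, 463, 1663, 745]
    [41, 1] = true := by decide +kernel

theorem s_S31_19_1 : segC 8545886 4400278
    [21, 41, 61, 121, 197, 357, 559, 1043, 1725, 2027, 463, 1663, 745]
    [20, 63, 20, 19, 12, 7, 8, 7, 4, 7, 10, 3, 8]
    [62, 63] = true := by decide +kernel

theorem s_S31_19_2 : segC 4400278 1225800
    [20, 63, 20, 19, 12, 7, 8, 7, 4, 7, 10, 3, 8]
    [75, 83, 59, 31, 51, 51, 21, 69, 73, 33, 81, 97, 107]
    [55] = true := by decide +kernel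

theorem s_S31_19_d1 : segC 1225800 252890
    [83, 59, 31, 51, 51, 21, 69, 73, 33, 81, 97, 107]
    [75, 126, 23, 70, 107, 128, 49, 4, 119, 8, 7, 16]
    [8] = true := by decide +kernel

theorem s_S31_19_d3 : segC 252890 98321
    [23, 70, 107, 128, 49, 4, 119, 8, 7, 16]
    [90, 93, 34, 77, 110, 205, 388, 17, 312, 113]
    [67] = true := by decide +kernel

theorem s_S31_19_d4 : segC 98321 17130
    [93, 34, 77, 110, 205, 388, 17, 312, 113]
    [34, 59, 18, 49, 34, 55, 90, 171, 282]
    [59] = true := by decide +kernel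

theorem s_S31_19_d5 : segC 17130 1917
    [59, 18, 49, 34, 55, 90, 171, 282]
    [28, 21, 18, 31, 60, 75, 8, 89]
    [31] = true := by decide +kernel

theorem s_S31_19_d7 : segC 1917 2
    [18, 31, 60, 75, 8, 89]
    [15, 13, 1, 1, 1, 1]
    [3] = true := by decide +kernel

end Pool.Agent.SeqDil
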