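import Pool.Agent.SeqDil.SegD24

namespace Pool.Agent.SeqDil

theorem s_M89_1 : segC 80354053 72637944
    [297, 316, 259, 316, 183, 216, 175, 90, 191, 78, 173, 128, 81]
    [19, 99, 141, 251, 439, 773, 951, 181, 1113, 2219, 2549, 949, 2243]
    [179, 99] = true := by decide +kernel

theorem s_M89_2 : segC 72637944 67052108
    [19, 99, 141, 251, 439, 773, 951, 181, 1113, 2219, 2549, 949, 2243]
    [80, 19, 4, 109, 36, 41, 16, 55, 78, 15, 62, 41, 8]
    [80, 19] = true := by decide +kernel

theorem s_M89_3 : segC 67052108 58539897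
    [80, 19, 4, 109, 36, 41, 16, 55, 78, 15, 62, 41, 8]
    [61, 118, 221, 284, 523, 848, 1535, 2524, 4639, 7534, 13395, 23626, 28463]
    [99, 118] = true := by decide +kernel

theorem s_M89_4 : segC 58539897 50728878
    [61, 118, 221, 284, 523, 848, 1535, 2524, 4639, 7534, 13395, 23626, 28463]
    [85, 43, 103, 123, 43, 109, 157, 165, 3, 227, 7, 149, 79]
    [47, 71] = true := by decide +kernel

theorem s_M89_5 : segC 50728878 46212034
    [85, 43, 103, 123, 43, 109, 157, 165, 3, 227, 7, 149, 79]
    [14, 29, 32, 7, 36, 33, 10, 29, 14, 11, 10, 9, 12]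
    [52, 19] = true := by decide +kernel

theorem s_M89_6 : segC 46212034 41240707
    [14, 29, 32, 7, 36, 33, 10, 29, 14, 11, 10, 9, 12]
    [99, 166, 285, 342, 109, 244, 445, 510, 149, 656, 1157, 1164, 803]
    [33, 52] = true := by decide +kernel

end Pool.Agent.SeqDil
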